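import Pool.Agent.P.MP_10147b_co.Embed

namespace Pool.Agent.P.MP_10147b_co

open List

theorem es (n : ℕ) : ∀ i j, i + j = n → ∀ l : List ℕ, l.Nodup → 2 ^ n ≤ l.length →
    (∃ l', l' <+ l ∧ l'.Pairwise (· < ·) ∧ l'.length = i) ∨
    (∃ l', l' <+ l ∧ l'.Pairwise (· > ·) ∧ l'.length = j) := by
  induction n with
  | zero =>
    intro i j hij l _ _
    exact Or.inl ⟨[], nil_sublist _, Pairwise.nil, by simp; omega⟩
  | succ n ih =>
    intro i j hij l hl hlen
    rcases i with _ | i
    · exact Or.inl ⟨[], nil_sublist _, Pairwise.nil, rfl⟩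
    rcases j with _ | j
    · exact Or.inr ⟨[], nil_sublist _, Pairwise.nil, rfl⟩
    cases l with
    | nil => simp at hlen
    | cons a l =>
      rw [nodup_cons] at hl
      have k := List.length_eq_length_filter_add (l := l) (fun x => decide (a < x))
      rw [length_cons, pow_succ] at hlen
      by_cases h1 : 2 ^ n ≤ (l.filter fun x => decide (a < x)).length
      · rcases ih i (j + 1) (by omega) _ (hl.2.filter _) h1 with ⟨l', k1, k2, k3⟩ | ⟨l', k1, k2, k3⟩
        · refine Or.inl ⟨a :: l', (k1.trans filter_sublist).cons_cons a,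
            pairwise_cons.2 ⟨fun x hx => ?_, k2⟩, by simp [k3]⟩
          simpa using (mem_filter.1 (k1.subset hx)).2
        · exact Or.inr ⟨l', (k1.trans filter_sublist).cons a, k2, k3⟩
      · rcases ih (i + 1) j (by omega) (l.filter fun x => !decide (a < x)) (hl.2.filter _)
          (by omega) with ⟨l', k1, k2, k3⟩ | ⟨l', k1, k2, k3⟩
        · exact Or.inl ⟨l', (k1.trans filter_sublist).cons a, k2, k3⟩
        · refine Or.inr ⟨a :: l', (k1.trans filter_sublist).cons_cons a,
            pairwise_cons.2 ⟨fun x hx => ?_, k2⟩, by simp [k3]⟩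
          have k4 := mem_filter.1 (k1.subset hx)
          have k5 : x ≠ a := fun h => hl.1 (h ▸ k4.1)
          have k6 : ¬ a < x := by simpa using k4.2
          omega

theorem first_hit (M : ℕ) (Y : Finset ℕ) (v : List ℕ) (h : ∃ y ∈ Y, M ≤ v.count y) :
    ∃ v1 v2, v = v1 ++ v2 ∧ (∃ a ∈ Y, M ≤ v1.count a) ∧ ∀ y ∈ Y, v1.count y ≤ M := by
  induction v using List.reverseRecOn with
  | nil => exact ⟨[], [], rfl, h, by simp⟩
  | append_singleton v x ih =>
    by_cases h' : ∃ y ∈ Y, M ≤ v.count y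
    · obtain ⟨v1, v2, rfl, k⟩ := ih h'
      exact ⟨v1, v2 ++ [x], by simp, k⟩
    · refine ⟨v ++ [x], [], by simp, h, fun y hy => ?_⟩
      push Not at h'
      have := h' y hy
      rw [count_append]
      have : count y [x] ≤ 1 := count_le_length
      omega

/-- a long realisable subsequence on few letters from `Y` -/
def Win (M j : ℕ) (v : List ℕ) (Y : Finset ℕ) : Prop :=
  ∃ w, w <+ v ∧ R w ∧ (∀ x ∈ w, x ∈ Y) ∧ w.toFinset.card ≤ j ∧ M * j ≤ w.length

theorem Win.mono {M j : ℕ} {v v' : List ℕ} {Y Y' : Finset ℕ} (h : Win M j v Y) (hv : v <+ v')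
    (hY : Y ⊆ Y') : Win M j v' Y' := by
  obtain ⟨w, h1, h2, h3, h4⟩ := h
  exact ⟨w, h1.trans hv, h2, fun x hx => hY (h3 x hx), h4⟩

theorem split {M N c : ℕ} (hM : 1 ≤ M) (hN : 1 ≤ N) (j : ℕ) : ∀ (v : List ℕ) (Y : Finset ℕ),
    j * N ≤ Y.card → (∀ y ∈ Y, c + M ≤ v.count y) → Win M j v Y ∨
      ∃ v1 v2 Y', v = v1 ++ v2 ∧ Y' ⊆ Y ∧ N ≤ Y'.card ∧ ∀ y ∈ Y', y ∈ v1 ∧ c ≤ v2.count y := by
  induction j with
  | zero => exact fun v Y _ _ => Or.inl ⟨[], nil_sublist _, R_nil, by simp, by simp, by simp⟩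
  | succ j ih =>
    intro v Y hY hc
    have hne : Y.Nonempty := Finset.card_pos.1 (by nlinarith)
    obtain ⟨y0, hy0⟩ := hne
    obtain ⟨v1, v2, rfl, ⟨a, ha, ha'⟩, hle⟩ := first_hit M Y v ⟨y0, hy0, by have := hc y0 hy0; omega⟩
    by_cases h1 : N ≤ (Y.filter (· ∈ v1)).card
    · refine Or.inr ⟨v1, v2, _, rfl, Finset.filter_subset _ _, h1, fun y hy => ?_⟩
      have k := Finset.mem_filter.1 hy
      have k1 := hc y k.1
      have k2 := hle y k.1
      rw [count_append] at k1
      exact ⟨k.2, by omega⟩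
    · have k := Finset.card_filter_add_card_filter_not (s := Y) (· ∈ v1)
      have hav : a ∈ v1 := count_pos_iff.1 (by omega)
      rcases ih v2 (Y.filter (· ∉ v1)) (by nlinarith) (fun y hy => by
        have k := Finset.mem_filter.1 hy
        have k1 := hc y k.1
        rwa [count_append, count_eq_zero_of_not_mem k.2, zero_add] at k1) with
        ⟨w, w1, w2, w3, w4, w5⟩ | ⟨v21, v22, Y', rfl, k1, k2, k3⟩
      · refine Or.inl ⟨replicate M a ++ w, (replicate_sublist_iff.2 ha').append w1,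
          (R_replicate M a).append w2 fun x hx hx' => ?_, fun x hx => ?_, ?_, ?_⟩
        · rw [eq_of_mem_replicate hx] at hx'
          exact (Finset.mem_filter.1 (w3 a hx')).2 hav
        · rcases mem_append.1 hx with hx | hx
          · rw [eq_of_mem_replicate hx]; exact ha
          · exact (Finset.mem_filter.1 (w3 x hx)).1
        · rw [toFinset_append, toFinset_replicate_of_ne_zero (by omega)]
          refine (Finset.card_union_le _ _).trans ?_
          rw [Finset.card_singleton]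
          omega
        · rw [length_append, length_replicate]
          nlinarith
      · exact Or.inr ⟨v1 ++ v21, v22, Y', by simp, k1.trans (Finset.filter_subset _ _), k2,
          fun y hy => ⟨mem_append_right _ (k3 y hy).1, (k3 y hy).2⟩⟩

theorem iter {M : ℕ} (hM : 1 ≤ M) (g s h : ℕ) : ∃ n, ∀ (v : List ℕ) (Y : Finset ℕ),
    n ≤ Y.card → (∀ y ∈ Y, h * M ≤ v.count y) → Win M g v Y ∨
      ∃ Z, Z ⊆ Y ∧ Z.card = s ∧ ∃ i j, i + j = h ∧
        (replicate i (Z.sort (· ≤ ·))).flatten <+ v ∧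
        (replicate j (Z.sort (· ≥ ·))).flatten <+ v := by
  induction h with
  | zero =>
    refine ⟨s, fun v Y hY _ => Or.inr ?_⟩
    obtain ⟨Z, h1, h2⟩ := Finset.exists_subset_card_eq hY
    exact ⟨Z, h1, h2, 0, 0, rfl, by simp, by simp⟩
  | succ h ih =>
    obtain ⟨n, ih⟩ := ih
    refine ⟨g * 2 ^ (n + n), fun v Y hY hc => ?_⟩
    rcases split (c := h * M) hM Nat.one_le_two_pow g v Y hY
      (fun y hy => by have := hc y hy; nlinarith) with k | ⟨v1, v2, Y', rfl, k1, k2, k3⟩
    · exact Or.inl k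
    have hl : 2 ^ (n + n) ≤ ((v1.filter (· ∈ Y')).dedup).length := by
      rw [← List.card_toFinset]
      refine k2.trans (Finset.card_le_card fun y hy => ?_)
      simp [hy, (k3 y hy).1]
    have hsub : (v1.filter (· ∈ Y')).dedup <+ v1 := (dedup_sublist _).trans filter_sublist
    have key : ∀ l', l' <+ (v1.filter (· ∈ Y')).dedup → l'.length = n →
        Win M g (v1 ++ v2) Y ∨ ∃ Z, Z ⊆ Y ∧ (∀ x ∈ Z, x ∈ l') ∧ Z.card = s ∧ ∃ i j, i + j = h ∧
        (replicate i (Z.sort (· ≤ ·))).flatten <+ v2 ∧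
        (replicate j (Z.sort (· ≥ ·))).flatten <+ v2 := by
      intro l' h1 h2
      have h3 : l'.toFinset ⊆ Y' := fun x hx => by
        have := h1.subset (mem_toFinset.1 hx)
        simp only [mem_dedup, mem_filter, decide_eq_true_eq] at this
        exact this.2
      rcases ih v2 l'.toFinset
        (by rw [List.toFinset_card_of_nodup ((nodup_dedup _).sublist h1), h2])
        (fun y hy => (k3 y (h3 hy)).2) with k | ⟨Z, z1, z2, z3⟩
      · exact Or.inl (k.mono (sublist_append_right _ _) (h3.trans k1))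
      · exact Or.inr ⟨Z, (z1.trans h3).trans k1, fun x hx => mem_toFinset.1 (z1 hx), z2, z3⟩
    rcases es (n + n) n n rfl _ (nodup_dedup _) hl with ⟨l', l1, l2, l3⟩ | ⟨l', l1, l2, l3⟩
    · rcases key l' l1 l3 with k | ⟨Z, z1, z2, z3, i, j, z4, z5, z6⟩
      · exact Or.inl k
      · refine Or.inr ⟨Z, z1, z3, i + 1, j, by omega, ?_, z6.trans (sublist_append_right _ _)⟩
        rw [replicate_succ, flatten_cons]
        refine Sublist.append (Sublist.trans ?_ (l1.trans hsub)) z5
        exact sublist_of_subperm_of_pairwise (r := (· ≤ ·))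
          (subperm_of_subset (Finset.sort_nodup _ _) fun x hx => z2 x ((Finset.mem_sort _).1 hx))
          (Finset.pairwise_sort _ _) (l2.imp le_of_lt)
    · rcases key l' l1 l3 with k | ⟨Z, z1, z2, z3, i, j, z4, z5, z6⟩
      · exact Or.inl k
      · refine Or.inr ⟨Z, z1, z3, i, j + 1, by omega, z5.trans (sublist_append_right _ _), ?_⟩
        rw [replicate_succ, flatten_cons]
        refine Sublist.append (Sublist.trans ?_ (l1.trans hsub)) z6
        exact sublist_of_subperm_of_pairwise (r := (· ≥ ·))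
          (subperm_of_subset (Finset.sort_nodup _ _) fun x hx => z2 x ((Finset.mem_sort _).1 hx))
          (Finset.pairwise_sort _ _) (l2.imp le_of_lt)

theorem local_lemma {M : ℕ} (hM : 1 ≤ M) : ∃ g n0, 1 ≤ g ∧ ∀ (v : List ℕ) (Y : Finset ℕ),
    n0 ≤ Y.card → (∀ y ∈ Y, g ≤ v.count y) → Win M g v Y := by
  obtain ⟨s, hs, hE⟩ := exists_long (4 * M ^ 2)
  obtain ⟨n0, h0⟩ := iter hM (4 * s * M) s (4 * s)
  refine ⟨4 * s * M, n0, by nlinarith, fun v Y hY hc => ?_⟩
  rcases h0 v Y hY hc with k | ⟨Z, z1, z2, i, j, z3, z4, z5⟩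
  · exact k
  have key : ∀ (σ : List ℕ) (k : ℕ), σ.Nodup → σ.toFinset = Z → 2 * s ≤ k →
      (replicate k σ).flatten <+ v → Win M (4 * s * M) v Y := by
    intro σ k h1 h2 h3 h4
    obtain ⟨w, w1, w2, w3⟩ := hE σ h1 (by rw [← List.toFinset_card_of_nodup h1, h2, z2])
    have w4 : w.toFinset ⊆ Z := fun x hx => by
      obtain ⟨l, hl, hx'⟩ := mem_flatten.1 (w1.subset (mem_toFinset.1 hx))
      rw [eq_of_mem_replicate hl] at hx'
      rw [← h2]
      exact mem_toFinset.2 hx'
    refine ⟨w, w1.trans (Sublist.trans (Sublist.flatten ?_) h4), w2,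
      fun x hx => z1 (w4 (mem_toFinset.2 hx)), ?_, by nlinarith⟩
    · exact (replicate_sublist_replicate _).2 h3
    · have := Finset.card_le_card w4
      nlinarith
  by_cases hi : 2 * s ≤ i
  · exact key _ i (Finset.sort_nodup _ _) (Finset.sort_toFinset _ _) hi z4
  · exact key _ j (Finset.sort_nodup _ _) (Finset.sort_toFinset _ _) (by omega) z5

theorem interval {M g n0 K r : ℕ} (hg : 1 ≤ g) (hK : 1 ≤ K) (hr : n0 * M ≤ r)
    (hL : ∀ (v : List ℕ) (Y : Finset ℕ), n0 ≤ Y.card → (∀ y ∈ Y, g ≤ v.count y) → Win M g v Y)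
    (v : List ℕ) (hv : v.length = 4 * K * g * r) (hV : v.toFinset.card ≤ K * r) (U : Finset ℕ) :
    4 * K * g * r ≤ 2 * ∑ x ∈ U, v.count x ∨
      ∃ w, w <+ v ∧ R w ∧ (∀ x ∈ w, x ∉ U) ∧ w.toFinset.card ≤ g ∧ M * g ≤ w.length := by
  by_cases h1 : ∃ x, x ∉ U ∧ M * g ≤ v.count x
  · obtain ⟨x, hx, hx'⟩ := h1
    refine Or.inr ⟨replicate (M * g) x, replicate_sublist_iff.2 hx', R_replicate _ _,
      fun y hy => by rwa [eq_of_mem_replicate hy], ?_, by simp⟩
    refine le_trans (Finset.card_le_card (t := {x}) fun y hy => ?_) (by simpa using hg)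
    rw [eq_of_mem_replicate (mem_toFinset.1 hy)]
    exact Finset.mem_singleton_self _
  push Not at h1
  by_cases h2 : n0 ≤ ((v.toFinset \ U).filter fun x => g ≤ v.count x).card
  · obtain ⟨w, w1, w2, w3, w4⟩ := hL v _ h2 fun y hy => (Finset.mem_filter.1 hy).2
    exact Or.inr ⟨w, w1, w2,
      fun x hx => (Finset.mem_sdiff.1 (Finset.mem_filter.1 (w3 x hx)).1).2, w4⟩
  left
  have k1 := List.sum_toFinset_count_eq_length v
  have k2 : ∑ x ∈ v.toFinset, v.count x
      ≤ ∑ x ∈ U, v.count x + ∑ x ∈ v.toFinset \ U, v.count x := by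
    rw [← Finset.sum_union Finset.disjoint_sdiff]
    exact Finset.sum_le_sum_of_subset (by
      rw [Finset.union_sdiff_self_eq_union]; exact Finset.subset_union_right)
  have k3 := Finset.sum_filter_add_sum_filter_not (v.toFinset \ U) (fun x => g ≤ v.count x)
    (fun x => v.count x)
  have k4 : ∑ x ∈ (v.toFinset \ U).filter (fun x => g ≤ v.count x), v.count x ≤ n0 * (M * g) := by
    refine (Finset.sum_le_card_nsmul _ _ (M * g) fun x hx => ?_).trans ?_
    · exact (h1 x (Finset.mem_sdiff.1 (Finset.mem_filter.1 hx).1).2).le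
    · exact Nat.mul_le_mul_right _ (by omega)
  have k5 : ∑ x ∈ (v.toFinset \ U).filter (fun x => ¬ g ≤ v.count x), v.count x
      ≤ K * r * g := by
    refine (Finset.sum_le_card_nsmul _ _ g fun x hx => ?_).trans ?_
    · have := (Finset.mem_filter.1 hx).2
      omega
    · exact Nat.mul_le_mul_right _ ((Finset.card_le_card
        ((Finset.filter_subset _ _).trans Finset.sdiff_subset)).trans hV)
  have k6 : n0 * (M * g) ≤ K * r * g := by
    rw [← mul_assoc]
    exact Nat.mul_le_mul_right _ (hr.trans (Nat.le_mul_of_pos_left _ hK))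
  nlinarith

theorem greedy {M g n0 K r : ℕ} (hg : 1 ≤ g) (hK : 1 ≤ K) (hr : n0 * M ≤ r)
    (hL : ∀ (v : List ℕ) (Y : Finset ℕ), n0 ≤ Y.card → (∀ y ∈ Y, g ≤ v.count y) → Win M g v Y)
    (u : List ℕ) (hu : u.toFinset.card ≤ K * r) (T : ℕ) (hT : T * (4 * K * g * r) ≤ u.length) :
    ∃ w a f, w <+ u.take (T * (4 * K * g * r)) ∧ R w ∧ a + f = T ∧ w.toFinset.card ≤ a * g ∧
      a * (M * g) ≤ w.length ∧
      f * (4 * K * g * r) ≤ 2 * ∑ x ∈ w.toFinset, (u.take (T * (4 * K * g * r))).count x := by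
  induction T with
  | zero => exact ⟨[], 0, 0, by simp, R_nil, rfl, by simp, by simp, by simp⟩
  | succ T ih =>
    obtain ⟨w, a, f, h1, h2, h3, h4, h5, h6⟩ := ih (by nlinarith)
    rw [add_mul, one_mul] at hT ⊢
    rw [List.take_add]
    generalize hp : u.take (T * (4 * K * g * r)) = p at *
    obtain ⟨v, hv⟩ : ∃ v, v = (u.drop (T * (4 * K * g * r))).take (4 * K * g * r) := ⟨_, rfl⟩
    rw [← hv]
    have v1 : v.length = 4 * K * g * r := by
      rw [hv, length_take, length_drop]
      omega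
    have v2 : v.toFinset.card ≤ K * r := by
      refine le_trans (Finset.card_le_card fun x hx => ?_) hu
      rw [hv] at hx
      exact mem_toFinset.2 (mem_of_mem_drop (mem_of_mem_take (mem_toFinset.1 hx)))
    rcases interval hg hK hr hL v v1 v2 w.toFinset with k | ⟨w', k1, k2, k3, k4, k5⟩
    · refine ⟨w, a, f + 1, h1.trans (sublist_append_left _ _), h2, by omega, h4, h5, ?_⟩
      simp only [count_append, Finset.sum_add_distrib]
      nlinarith
    · refine ⟨w ++ w', a + 1, f, h1.append k1,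
        h2.append k2 fun x hx hx' => k3 x hx' (mem_toFinset.2 hx), by omega, ?_, ?_, ?_⟩
      · rw [toFinset_append]
        have := Finset.card_union_le w.toFinset w'.toFinset
        nlinarith
      · rw [length_append]
        nlinarith
      · refine h6.trans (Nat.mul_le_mul_left _ ?_)
        calc ∑ x ∈ w.toFinset, p.count x ≤ ∑ x ∈ w.toFinset, (p ++ v).count x :=
              Finset.sum_le_sum fun x _ => by rw [count_append]; omega
          _ ≤ _ := Finset.sum_le_sum_of_subset (by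
              rw [toFinset_append]; exact Finset.subset_union_left)

theorem R_nodup {l : List ℕ} (h : l.Nodup) : R l := by
  induction l with
  | nil => exact R_nil
  | cons a l ih =>
    rw [nodup_cons] at h
    exact (R_replicate 1 a).append (ih h.2) fun x hx => by
      rw [eq_of_mem_replicate hx]; exact h.1

theorem main_comb {K : ℕ} (hK : 1 ≤ K) : ∃ r0, ∀ (u : List ℕ) (r : ℕ), r0 ≤ r →
    r * r ≤ u.length → ∃ w, w <+ u ∧ R w ∧ K * r ≤ w.length := by
  obtain ⟨g, n0, hg, hL⟩ := local_lemma (M := 16 * K ^ 2) (by nlinarith)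
  refine ⟨n0 * (16 * K ^ 2) + 4 * K * g, fun u r hr hu => ?_⟩
  by_cases h1 : ∃ x, K * r ≤ u.count x
  · obtain ⟨x, hx⟩ := h1
    exact ⟨replicate (K * r) x, replicate_sublist_iff.2 hx, R_replicate _ _, by simp⟩
  by_cases h2 : K * r ≤ u.toFinset.card
  · exact ⟨u.dedup, dedup_sublist _, R_nodup (nodup_dedup _), by rwa [← List.card_toFinset]⟩
  push Not at h1 h2
  have hL0 : 0 < 4 * K * g := by positivity
  have t1 := Nat.div_mul_le_self r (4 * K * g)
  have t2 := Nat.lt_div_mul_add (a := r) hL0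
  have t3 : 1 ≤ r / (4 * K * g) := (Nat.le_div_iff_mul_le hL0).2 (by omega)
  generalize r / (4 * K * g) = T at *
  obtain ⟨w, a, f, k1, k2, k3, k4, k5, k6⟩ := greedy hg hK (by omega) hL u h2.le T (by
    calc T * (4 * K * g * r) = T * (4 * K * g) * r := by ring
      _ ≤ r * r := Nat.mul_le_mul_right _ t1
      _ ≤ _ := hu)
  refine ⟨w, k1.trans (take_sublist _ _), k2, ?_⟩
  have k7 : ∑ x ∈ w.toFinset, (u.take (T * (4 * K * g * r))).count x ≤ T * g * (K * r) := by
    refine (Finset.sum_le_card_nsmul _ _ (K * r) fun x _ => ?_).trans ?_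
    · exact ((take_sublist _ _).count_le x).trans (h1 x).le
    · exact Nat.mul_le_mul_right _ (k4.trans (Nat.mul_le_mul_right _ (by omega)))
  have hr0 : 0 < r := by omega
  have k8 : 2 * f * (2 * K * g * r) ≤ T * (2 * K * g * r) := by nlinarith
  have k9 : 2 * f ≤ T := Nat.le_of_mul_le_mul_right k8 (by positivity)
  have k10 : r ≤ 2 * T * (4 * K * g) := by nlinarith
  calc K * r ≤ K * (2 * T * (4 * K * g)) := Nat.mul_le_mul_left _ k10
    _ ≤ K * (2 * (2 * a) * (4 * K * g)) := by gcongr; omega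
    _ = a * (16 * K ^ 2 * g) := by ring
    _ ≤ _ := k5

end Pool.Agent.P.MP_10147b_co
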