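import Pool.Agent.P.MP_10147b_co.Scalar2

namespace Pool.Agent.P.MP_10147b_co

/-- a configuration of cubics grouped in sites, with protected pairs of points -/
structure Cfg (S J : Type) (m : ℕ) where
  X : S → ℝ
  v : S → ℝ
  sl : S → ℝ
  w : S → ℝ
  θ : S → ℝ
  A : S → Fin m → ℝ
  D : S → Fin m → ℝ
  p : J → Bool → ℝ
  own : J → Bool → S × Fin m

namespace Cfg
variable {S J : Type} {m : ℕ} (c : Cfg S J m)

def line (s : S) (z : ℝ) : ℝ := c.v s + c.sl s * (z - c.X s)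

def f (s : S) (t : Fin m) (z : ℝ) : ℝ :=
  c.line s z + c.A s t * (z - c.X s) ^ 2 + c.D s t * (z - c.X s) ^ 3

noncomputable def top (s : S) (t : Fin m) (z : ℝ) : ℝ := c.f s t z + c.θ s * |z - c.X s|

noncomputable def lv (j : J) (b : Bool) : ℝ := c.top (c.own j b).1 (c.own j b).2 (c.p j b)

def Sep (K : ℝ) (s : S) (z lev : ℝ) : Prop :=
  SepR K (c.w s) (c.θ s) (z - c.X s) (c.line s z - lev)

def Val (s : S) (t : Fin m) (z lev : ℝ) : Prop :=
  ValR (c.θ s) (c.A s t) (c.D s t) (z - c.X s) (c.line s z - lev)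

end Cfg

/-- the inductive invariant -/
structure Good {S J : Type} {m : ℕ} (K : ℝ) (c : Cfg S J m) : Prop where
  θpos : ∀ s, 0 < c.θ s
  θw : ∀ s, K * c.θ s ≤ c.w s
  Ab : ∀ s t, K * |c.A s t| ≤ 1
  Dpos : ∀ s t, 0 < c.D s t
  Db : ∀ s t, K * c.D s t * c.w s ^ 2 ≤ c.θ s
  prof : ∀ s t t' t'', t ≤ t' → t' < t'' →
    K * (c.w s * (c.A s t' - c.A s t) + c.θ s) ≤ c.w s * (c.A s t'' - c.A s t')
  W1 : ∀ s j b, c.Sep K s (c.p j b) (c.lv j b)
  W2 : ∀ s t j b, (s, t) ≠ c.own j b → c.Val s t (c.p j b) (c.lv j b)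
  N1 : ∀ s s' z, s ≠ s' → |z - c.X s'| ≤ c.w s' → c.Sep K s z (c.line s' z + c.w s' ^ 2)
  N2 : ∀ s t s' z, s ≠ s' → |z - c.X s'| ≤ c.w s' → c.Val s t z (c.line s' z + c.w s' ^ 2)
  plt : ∀ j, c.p j false < c.p j true
  odiff : ∀ j, c.own j false ≠ c.own j true
  pdisj : ∀ j j', j ≠ j' → c.p j true ≤ c.p j' false ∨ c.p j' true ≤ c.p j false
  cent : ∀ s j, c.X s < c.p j false ∨ c.p j true < c.X s

namespace Good
variable {S J : Type} {m : ℕ} {K : ℝ} {c : Cfg S J m} (g : Good K c)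
include g

theorem wpos (hK : 1 ≤ K) (s : S) : 0 < c.w s := by
  have := g.θpos s
  have := g.θw s
  nlinarith

theorem A_lt (hK : 1 ≤ K) (s : S) {t t' : Fin m} (h : t < t') : c.A s t < c.A s t' := by
  have k1 := g.prof s t t t' le_rfl h
  have k2 := g.θpos s
  have k3 := g.wpos hK s
  have : 0 < c.w s * (c.A s t' - c.A s t) := by nlinarith
  have := (pos_iff_pos_of_mul_pos this).1 k3
  linarith

theorem A_le (hK : 1 ≤ K) (s : S) {t t' : Fin m} (h : t ≤ t') : c.A s t ≤ c.A s t' := by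
  rcases h.eq_or_lt with h | h
  · rw [h]
  · exact (g.A_lt hK s h).le

theorem far (hK : 1 ≤ K) {s s' : S} (h : s ≠ s') : c.w s ≤ |c.X s' - c.X s| :=
  (g.N1 s s' (c.X s') h (by simpa using (g.wpos hK s').le)).1

theorem X_inj (hK : 1 ≤ K) : Function.Injective c.X := by
  intro s s' h
  by_contra hc
  have k1 := g.far hK hc
  have k2 := g.wpos hK s
  rw [h] at k1
  simp at k1
  linarith

theorem nbhd_lt (hK : 1 ≤ K) {s s' : S} (h : c.X s < c.X s') :
    c.X s + c.w s ≤ c.X s' - c.w s' := by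
  have hne : s ≠ s' := by rintro rfl; exact lt_irrefl _ h
  have k1 := g.far hK hne.symm
  rw [abs_sub_comm, abs_of_pos (by linarith)] at k1
  have k2 := (g.N1 s s' (c.X s' - c.w s') hne (by
    rw [show c.X s' - c.w s' - c.X s' = -c.w s' by ring, abs_neg,
      abs_of_pos (g.wpos hK s')])).1
  rw [abs_of_nonneg (by linarith)] at k2
  linarith

theorem nbhd_disj (hK : 1 ≤ K) {s s' : S} (h : s ≠ s') :
    c.X s + c.w s ≤ c.X s' - c.w s' ∨ c.X s' + c.w s' ≤ c.X s - c.w s := by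
  rcases lt_trichotomy (c.X s) (c.X s') with k | k | k
  · exact Or.inl (g.nbhd_lt hK k)
  · exact absurd (g.X_inj hK k) h
  · exact Or.inr (g.nbhd_lt hK k)

theorem pair_nbhd (s : S) (j : J) :
    c.X s + c.w s ≤ c.p j false ∨ c.p j true ≤ c.X s - c.w s := by
  rcases g.cent s j with k | k
  · left
    have k1 := (g.W1 s j false).1
    rw [abs_of_pos (by linarith)] at k1
    linarith
  · right
    have k1 := (g.W1 s j true).1
    rw [abs_of_neg (by linarith)] at k1
    linarith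

theorem slope_gap (hK : 1 ≤ K) {s s' : S} (h : c.X s < c.X s') :
    c.X s' - c.X s ≤ (c.sl s - 2 * c.X s) - (c.sl s' - 2 * c.X s') := by
  have hne : s ≠ s' := by rintro rfl; exact lt_irrefl _ h
  have k1 := (g.N1 s s' (c.X s') hne (by simpa using (g.wpos hK s').le)).2.2 (by linarith)
  have k2 := (g.N1 s' s (c.X s) hne.symm (by simpa using (g.wpos hK s).le)).2.1 (by linarith)
  unfold Cfg.line at k1 k2
  obtain ⟨Δ, hΔ⟩ : ∃ Δ, Δ = c.X s' - c.X s := ⟨_, rfl⟩
  have hΔ0 : 0 < Δ := by linarith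
  rw [← hΔ] at k1
  rw [show c.X s - c.X s' = -Δ by linarith] at k2
  simp only [sub_self, mul_zero, add_zero, neg_neg] at k1 k2
  have k3 : 0 ≤ c.v s' + c.sl s' * -Δ - (c.v s + c.w s ^ 2) := by
    have : 0 ≤ K * Δ ^ 3 := by positivity
    have := g.θpos s'
    by_contra hc
    push Not at hc
    nlinarith
  have k4 : -(c.v s + c.sl s * Δ - (c.v s' + c.w s' ^ 2)) ≤ Δ ^ 2 := by
    by_cases hd : 0 ≤ c.v s + c.sl s * Δ - (c.v s' + c.w s' ^ 2)
    · have : 0 ≤ Δ ^ 2 := by positivity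
      linarith
    · push Not at hd
      nlinarith
  have k5 : (c.sl s' - c.sl s) * Δ ≤ Δ * Δ := by
    have := sq_nonneg (c.w s)
    have := sq_nonneg (c.w s')
    nlinarith
  have k6 := le_of_mul_le_mul_right k5 hΔ0
  linarith

end Good

/-- reindexing the sites -/
def Cfg.reindex {S S' J : Type} {m : ℕ} (c : Cfg S J m) (e : S' ≃ S) : Cfg S' J m where
  X s := c.X (e s)
  v s := c.v (e s)
  sl s := c.sl (e s)
  w s := c.w (e s)
  θ s := c.θ (e s)
  A s := c.A (e s)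
  D s := c.D (e s)
  p := c.p
  own j b := (e.symm (c.own j b).1, (c.own j b).2)

theorem Good.reindex {S S' J : Type} {m : ℕ} {K : ℝ} {c : Cfg S J m} (g : Good K c)
    (e : S' ≃ S) : Good K (c.reindex e) := by
  have hlv : ∀ j b, (c.reindex e).lv j b = c.lv j b := by
    intro j b
    simp [Cfg.lv, Cfg.top, Cfg.f, Cfg.line, Cfg.reindex]
  refine ⟨fun s => g.θpos _, fun s => g.θw _, fun s => g.Ab _, fun s => g.Dpos _, fun s => g.Db _,
    fun s => g.prof _, fun s j b => ?_, fun s t j b h => ?_, fun s s' z h hz => ?_,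
    fun s t s' z h hz => ?_, g.plt, fun j h => ?_, g.pdisj, fun s j => g.cent _ j⟩
  · rw [hlv]; exact g.W1 (e s) j b
  · rw [hlv]
    refine g.W2 (e s) t j b fun k => h ?_
    simp [Cfg.reindex, ← k]
  · exact g.N1 (e s) (e s') z (e.injective.ne h) hz
  · exact g.N2 (e s) t (e s') z (e.injective.ne h) hz
  · apply g.odiff j
    simp only [Cfg.reindex, Prod.mk.injEq, EmbeddingLike.apply_eq_iff_eq] at h
    exact Prod.ext h.1 h.2

theorem base_one (m : ℕ) {K : ℝ} (hK : 1 ≤ K) : ∃ c : Cfg Unit Empty m, Good K c := by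
  obtain ⟨β, hβ⟩ : ∃ β : ℝ, β = 1 / (K * (2 * K + 1) ^ (m + 1)) := ⟨_, rfl⟩
  have hq : 1 ≤ 2 * K + 1 := by linarith
  have hβ0 : 0 < β := by rw [hβ]; positivity
  have hβ1 : K * β * (2 * K + 1) ^ (m + 1) = 1 := by rw [hβ]; field_simp
  have hp : ∀ n ≤ m + 1, K * β * (2 * K + 1) ^ n ≤ 1 := by
    intro n hn
    refine le_trans ?_ hβ1.le
    gcongr
  refine ⟨⟨fun _ => 0, fun _ => 0, fun _ => 0, fun _ => 1, fun _ => β,
    fun _ t => β * (2 * K + 1) ^ ((t : ℕ) + 1), fun _ _ => β / K, fun j => j.elim,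
    fun j => j.elim⟩, fun _ => hβ0, fun _ => ?_, fun _ t => ?_, fun _ _ => ?_, fun _ _ => ?_,
    fun _ t t' t'' h1 h2 => ?_, fun _ j => j.elim, fun _ _ j => j.elim,
    fun _ _ _ h => absurd rfl h, fun _ _ _ _ h => absurd rfl h, fun j => j.elim, fun j => j.elim,
    fun j => j.elim, fun _ j => j.elim⟩
  · simpa using hp 0 (by omega)
  · have := hp (t + 1) (by omega)
    simp only
    rw [abs_of_pos (by positivity)]
    linarith
  · simp only
    positivity
  · simp only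
    field_simp
    exact le_rfl
  · simp only [one_mul]
    have k1 : (2 * K + 1) ^ ((t' : ℕ) + 1 + 1) ≤ (2 * K + 1) ^ ((t'' : ℕ) + 1) :=
      pow_le_pow_right₀ hq (by have : (t' : ℕ) < t'' := h2; omega)
    have k2 : 1 ≤ (2 * K + 1) ^ ((t : ℕ) + 1) := one_le_pow₀ hq
    have k3 : 1 ≤ (2 * K + 1) ^ ((t' : ℕ) + 1) := one_le_pow₀ hq
    rw [pow_succ] at k1
    generalize (2 * K + 1) ^ ((t : ℕ) + 1) = a at *
    generalize (2 * K + 1) ^ ((t' : ℕ) + 1) = b at *
    generalize (2 * K + 1) ^ ((t'' : ℕ) + 1) = c at *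
    have k4 : K * (b - a + 1) ≤ c - b := by nlinarith
    have := mul_le_mul_of_nonneg_left k4 hβ0.le
    nlinarith

theorem base_two {K : ℝ} (hK : 1 ≤ K) : ∃ c : Cfg Bool Empty 0, Good K c := by
  refine ⟨⟨fun s => if s then 1 else 0, fun s => if s then -20 * K ^ 2 else 0,
    fun s => if s then -40 * K ^ 2 else 0, fun _ => 1 / 4, fun _ => 1 / (4 * K),
    fun _ t => t.elim0, fun _ t => t.elim0, fun j => j.elim,
    fun j => j.elim⟩, fun _ => by positivity, fun _ => ?_, fun _ t => t.elim0,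
    fun _ t => t.elim0, fun _ t => t.elim0,
    fun _ t => t.elim0, fun _ j => j.elim, fun _ _ j => j.elim,
    fun s s' z h hz => ?_, fun _ t => t.elim0, fun j => j.elim, fun j => j.elim,
    fun j => j.elim, fun _ j => j.elim⟩
  · simp only
    field_simp
    exact le_rfl
  · have hK2 : 1 ≤ K ^ 2 := one_le_pow₀ hK
    cases s <;> cases s'
    · exact absurd rfl h
    · simp only [if_true] at hz
      have hz' := abs_le.1 hz
      simp only [Cfg.Sep, SepR, Cfg.line, if_true, Bool.false_eq_true, if_false]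
      refine ⟨?_, fun hx => by linarith, fun _ => ?_⟩
      · rw [abs_of_nonneg (by linarith)]; linarith
      · have : 0 ≤ 0 + 0 * (z - 0) - (-20 * K ^ 2 + -40 * K ^ 2 * (z - 1) + (1 / 4) ^ 2) := by
          nlinarith
        have : 0 ≤ K * (0 + 0 * (z - 0)
          - (-20 * K ^ 2 + -40 * K ^ 2 * (z - 1) + (1 / 4) ^ 2)) := by positivity
        have := sq_nonneg (z - 0)
        linarith
    · simp only [Bool.false_eq_true, if_false, sub_zero] at hz
      have hz' := abs_le.1 hz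
      simp only [Cfg.Sep, SepR, Cfg.line, if_true, Bool.false_eq_true, if_false]
      refine ⟨?_, fun hx => ?_, fun _ => by linarith⟩
      · rw [abs_of_nonpos (by linarith)]; linarith
      · have k1 : (-(z - 1)) ^ 3 ≤ (5 / 4) ^ 3 := by
          apply pow_le_pow_left₀ <;> linarith
        have k2 : 9 * K ^ 2 ≤ -20 * K ^ 2 + -40 * K ^ 2 * (z - 1)
          - (0 + 0 * (z - 0) + (1 / 4) ^ 2) := by nlinarith
        calc K * (-(z - 1)) ^ 3 ≤ K * (5 / 4) ^ 3 := by gcongr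
          _ ≤ 1 / (4 * K) * (9 * K ^ 2) := by field_simp; norm_num
          _ ≤ _ := by gcongr
    · exact absurd rfl h

end Pool.Agent.P.MP_10147b_co
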