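import Pool.Agent.P.MP_10147b_co.StepGood

namespace Pool.Agent.P.MP_10147b_co

open Filter Polynomial

theorem exists_sorted {S J : Type} [Fintype S] {m n : ℕ} {K : ℝ} (hK : 1 ≤ K) {c : Cfg S J m}
    (g : Good K c) (hn : Fintype.card S = n) :
    ∃ c' : Cfg (Fin n) J m, Good K c' ∧ StrictMono c'.X := by
  let e0 : Fin n ≃ S := (Fintype.equivFinOfCardEq hn).symm
  let e : Fin n ≃ S := (Tuple.sort (c.X ∘ e0)).trans e0
  refine ⟨c.reindex e, g.reindex e, ?_⟩
  exact (Tuple.monotone_sort (c.X ∘ e0)).strictMono_of_injective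
    ((g.X_inj hK).comp e.injective)

theorem exists_C {J : Type} [Fintype J] {m n : ℕ} {K : ℝ} (hK : 1 ≤ K)
    {B : Cfg (Fin (n + 1)) J m} (g : Good (8 * K ^ 4) B) :
    ∃ C, K ≤ C ∧ (∀ l, Bs C (B.X l) (B.w l) (B.θ l) (B.sl l - 2 * B.X l)
      (B.v l - B.sl l * B.X l + B.X l ^ 2)) ∧ (∀ l t, 1 ≤ C * B.D l t) ∧ (∀ l t, B.D l t ≤ C) ∧
      (∀ j b, |B.p j b| ≤ C) ∧ ∀ j b, B.lv j b ≤ C := by
  have hinv : ∀ x : ℝ, 0 < x → ∀ᶠ C in atTop, 1 ≤ C * x := fun x hx =>
    (eventually_ge_atTop (1 / x)).mono fun C hC => by rwa [div_le_iff₀ hx] at hC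
  apply Eventually.exists (f := atTop)
  refine (eventually_ge_atTop K).and (Eventually.and ?_ (Eventually.and ?_ (Eventually.and ?_
    (Eventually.and ?_ ?_))))
  · rw [eventually_all]
    intro l
    filter_upwards [eventually_ge_atTop |B.X l|, eventually_ge_atTop (B.w l), hinv _ (g.θpos l),
      eventually_ge_atTop |B.sl l - 2 * B.X l|,
      eventually_ge_atTop |B.v l - B.sl l * B.X l + B.X l ^ 2|] with C h1 h2 h3 h4 h5
    refine ⟨h1, h2, h3, ?_, h4, h5⟩
    have := g.θw l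
    have := g.θpos l
    have : 1 ≤ K ^ 4 := one_le_pow₀ hK
    nlinarith
  · simp only [eventually_all]
    exact fun l t => hinv _ (g.Dpos l t)
  · simp only [eventually_all]
    exact fun l t => eventually_ge_atTop _
  · simp only [eventually_all]
    exact fun l t => eventually_ge_atTop _
  · simp only [eventually_all]
    exact fun l t => eventually_ge_atTop _

/-- existence of good configurations with many protected pairs -/
def PP (i a m : ℕ) : Prop := ∀ K : ℝ, 1 ≤ K → ∃ (S J : Type) (_ : Fintype S) (_ : Fintype J)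
  (c : Cfg S J m), Good K c ∧ a ≤ Fintype.card S ∧ i * Fintype.card S * m ≤ 2 * Fintype.card J

theorem PP_zero (m : ℕ) : PP 0 1 m := by
  intro K hK
  obtain ⟨c, g⟩ := base_one m hK
  exact ⟨Unit, Empty, inferInstance, inferInstance, c, g, by simp, by simp⟩

theorem PP_succ (i : ℕ) (ih : ∀ m, PP i 1 m) (m : ℕ) : PP (i + 1) 2 m := by
  induction m with
  | zero =>
    intro K hK
    obtain ⟨c, g⟩ := base_two hK
    exact ⟨Bool, Empty, inferInstance, inferInstance, c, g, by simp, by simp⟩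
  | succ m ihm =>
    intro K hK
    have hK4 : 1 ≤ 8 * K ^ 4 := by
      have : 1 ≤ K ^ 4 := one_le_pow₀ hK
      linarith
    obtain ⟨S0, JB, _, _, B0, gB0, h2, hc⟩ := ihm (8 * K ^ 4) hK4
    obtain ⟨n, hn⟩ : ∃ n, Fintype.card S0 = n + 1 := ⟨Fintype.card S0 - 1, by omega⟩
    obtain ⟨B, gB, hmono⟩ := exists_sorted hK4 gB0 hn
    obtain ⟨C, hKC, h1, h3, h4, h5, h6⟩ := exists_C hK gB
    have hcst : Cst K C (100 * C ^ 4) (1 / (2 * K)) := ⟨hK, hKC, le_rfl, by field_simp⟩
    obtain ⟨S, JT, _, _, T, gT, hS, hT⟩ := ih (n + 1) ((100 * C ^ 4) ^ 2)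
      (by have := hcst.Φ1; have := hcst.Φ2; linarith)
    let d : StepD S JB JT n m := ⟨B, T, K, C, 100 * C ^ 4, 1 / (2 * K)⟩
    have o : d.OK := ⟨hcst, gB, gT, hmono, h1, h3, h4, h5, h6⟩
    refine ⟨_, _, inferInstance, inferInstance, d.N, o.good, ?_, ?_⟩
    · simp only [Fintype.card_prod, Fintype.card_fin]
      nlinarith
    · simp only [Fintype.card_prod, Fintype.card_fin, Fintype.card_sum]
      rw [hn] at hc h2
      have k1 := Nat.mul_le_mul_left (Fintype.card S) hc
      have k2 : Fintype.card S * (n + 1) ≤ Fintype.card S * (2 * n) :=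
        Nat.mul_le_mul_left _ (by omega)
      nlinarith

theorem PP_all (i m : ℕ) : PP i 1 m := by
  induction i generalizing m with
  | zero => exact PP_zero m
  | succ i ih =>
    intro K hK
    obtain ⟨S, J, _, _, c, g, h1, h2⟩ := PP_succ i ih m K hK
    exact ⟨S, J, _, _, c, g, by omega, h2⟩

/-- many cubics with many disjoint intervals whose ends have different strict minimisers -/
theorem exists_cubics (M : ℕ) : ∃ (F : Finset ℝ[X]) (J : Type) (_ : Fintype J)
    (p : J → Bool → ℝ) (o : J → Bool → ℝ[X]), F.Nonempty ∧ (∀ f ∈ F, f.natDegree ≤ 3) ∧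
    M * F.card ≤ Fintype.card J ∧ (∀ j, p j false < p j true) ∧
    (∀ j j', j ≠ j' → p j true ≤ p j' false ∨ p j' true ≤ p j false) ∧
    (∀ j, o j false ≠ o j true) ∧ (∀ j b, o j b ∈ F) ∧
    ∀ j b, ∀ f ∈ F, f ≠ o j b → (o j b).eval (p j b) < f.eval (p j b) := by
  classical
  obtain ⟨S, J, _, _, c, g, h1, h2⟩ := PP_all (2 * M) 1 1 le_rfl
  let P : S × Fin 1 → ℝ[X] := fun s => C (c.v s.1) + C (c.sl s.1) * (X - C (c.X s.1))
    + C (c.A s.1 s.2) * (X - C (c.X s.1)) ^ 2 + C (c.D s.1 s.2) * (X - C (c.X s.1)) ^ 3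
  have hP : ∀ s z, (P s).eval z = c.f s.1 s.2 z := by
    intro s z
    simp [P, Cfg.f, Cfg.line]
  have hlt : ∀ j b s, s ≠ c.own j b → (P (c.own j b)).eval (c.p j b) < (P s).eval (c.p j b) := by
    intro j b s hs
    rw [hP, hP]
    have k1 := g.W2 s.1 s.2 j b hs
    have k2 := (g.W1 s.1 j b).1
    have k3 := g.wpos le_rfl s.1
    have k4 := g.θpos s.1
    have k5 : 0 < c.θ s.1 * |c.p j b - c.X s.1| := mul_pos k4 (by linarith)
    have k6 : 0 ≤ c.θ (c.own j b).1 * |c.p j b - c.X (c.own j b).1| :=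
      mul_nonneg (g.θpos _).le (abs_nonneg _)
    unfold Cfg.Val ValR Cfg.lv Cfg.top at k1
    unfold Cfg.f at *
    linarith
  refine ⟨Finset.univ.image P, J, inferInstance, c.p, fun j b => P (c.own j b), ?_, ?_, ?_, g.plt,
    g.pdisj, fun j h => ?_, fun j b => Finset.mem_image_of_mem _ (Finset.mem_univ _), ?_⟩
  · have : Nonempty S := Fintype.card_pos_iff.1 h1
    exact Finset.univ_nonempty.image _
  · intro f hf
    obtain ⟨s, -, rfl⟩ := Finset.mem_image.1 hf
    simp only [P]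
    compute_degree
  · have k : (Finset.univ.image P).card ≤ Fintype.card S := by
      refine Finset.card_image_le.trans ?_
      simp
    have := Nat.mul_le_mul_left M k
    nlinarith
  · have := hlt j false _ (g.odiff j).symm
    simp only at h
    rw [h] at this
    exact lt_irrefl _ this
  · intro j b f hf hne
    obtain ⟨s, -, rfl⟩ := Finset.mem_image.1 hf
    exact hlt j b s fun k => hne (by rw [k])

end Pool.Agent.P.MP_10147b_co
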