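import Mathlib

namespace Pool.Agent.P.MP_10147b_co

open Polynomial

/-- `e` is the envelope sequence of the family `F`: the finite values among
`t 0 < t 1 < ... < t (r+1)` are exactly the points where two distinct members of `F` agree,
`g i` attains the minimum on the `i`-th component, and equal neighbours are merged. -/
def IsEnvelope (F : Finset ℝ[X]) (e : List ℝ[X]) : Prop :=
  ∃ (r : ℕ) (t : Fin (r + 2) → EReal) (g : Fin (r + 1) → ℝ[X]),
    StrictMono t ∧ t 0 = ⊥ ∧ t (Fin.last (r + 1)) = ⊤ ∧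
    (∀ x : ℝ, (∃ i, t i = x) ↔ ∃ f ∈ F, ∃ h ∈ F, f ≠ h ∧ f.eval x = h.eval x) ∧
    (∀ i, g i ∈ F ∧
      ∀ x : ℝ, t i.castSucc < x → x < t i.succ → ∀ h ∈ F, (g i).eval x ≤ h.eval x) ∧
    e = (List.ofFn g).destutter (· ≠ ·)

/-- after merging equal neighbours, `w` is isomorphic to the envelope sequence of a finite family
of polynomials of degree at most `k` -/
def Realized (k : ℕ) (w : List ℕ) : Prop :=
  ∃ (F : Finset ℝ[X]) (φ : ℕ → ℝ[X]), (∀ f ∈ F, f.natDegree ≤ k) ∧ Set.InjOn φ {a | a ∈ w} ∧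
    IsEnvelope F ((w.destutter (· ≠ ·)).map φ)

/-- largest length of a realized subsequence -/
noncomputable def LSP (u : List ℕ) (k : ℕ) : ℕ :=
  sSup {n | ∃ w : List ℕ, w.Sublist u ∧ Realized k w ∧ w.length = n}

/-- minimum of `LSP` over sequences of length `m` -/
noncomputable def sp (m k : ℕ) : ℕ :=
  sInf {n | ∃ u : List ℕ, u.length = m ∧ LSP u k = n}

end Pool.Agent.P.MP_10147b_co
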