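import Pool.Agent.P.MP_10147b_co.Glue
import Pool.Agent.P.MP_10147b_co.Cubics

namespace Pool.Agent.P.MP_10147b_co

open Polynomial List

/-- number of adjacent non-ascents of the ranks -/
def desc {α : Type} (ρ : α → ℕ) : α → List α → ℕ
  | _, [] => 0
  | a, b :: l => (if ρ a < ρ b then 0 else 1) + desc ρ b l

theorem range'_sub {c b s : ℕ} (h1 : c ≤ b) (h2 : b ≤ s) :
    List.range' b (s - b) <+ List.range' c (s - c) := by
  have := List.range'_append_1 (s := c) (m := b - c) (n := s - b)
  rw [show c + (b - c) = b by omega, show b - c + (s - b) = s - c by omega] at this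
  rw [← this]
  exact List.sublist_append_right _ _

theorem emb {α : Type} (ρ : α → ℕ) (s : ℕ) (l : List α) : ∀ a, (∀ x ∈ a :: l, ρ x < s) →
    (a :: l).map ρ <+ List.range' (ρ a) (s - ρ a)
      ++ (List.replicate (desc ρ a l) (List.range s)).flatten := by
  induction l with
  | nil =>
    intro a ha
    have := ha a (by simp)
    simp only [map_cons, map_nil, desc, replicate_zero, flatten_nil, append_nil,
      singleton_sublist, mem_range'_1]
    omega
  | cons b l ih =>
    intro a ha
    have h1 := ha a (by simp)
    have h2 := ha b (by simp)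
    have k := ih b fun x hx => ha x (List.mem_cons_of_mem _ hx)
    have e : List.range' (ρ a) (s - ρ a) = ρ a :: List.range' (ρ a + 1) (s - (ρ a + 1)) := by
      rw [show s - ρ a = s - (ρ a + 1) + 1 by omega, List.range'_succ]
    rw [map_cons, e, cons_append]
    refine Sublist.cons_cons _ (k.trans ?_)
    by_cases hab : ρ a < ρ b
    · simp only [desc, hab, if_true, zero_add]
      exact (range'_sub hab h2.le).append_right _
    · simp only [desc, hab, if_false]
      rw [add_comm 1, replicate_succ, flatten_cons]
      refine Sublist.trans ?_ (List.sublist_append_right _ _)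
      refine Sublist.append_right ?_ _
      have := range'_sub (Nat.zero_le (ρ b)) h2.le
      rwa [Nat.sub_zero, ← List.range_eq_range'] at this

theorem desc_le {α : Type} [DecidableEq α] (ρ : α → ℕ) (e : List α)
    (H : ∀ pre a b post, e = pre ++ a :: b :: post → b ∈ pre ++ [a] → a ∈ b :: post → ρ a < ρ b)
    (l : List α) : ∀ pre a, e = pre ++ a :: l →
      desc ρ a l + 1 ≤ (l.toFinset \ (pre ++ [a]).toFinset).card + (a :: l).toFinset.card := by
  induction l with
  | nil => intro pre a _; simp [desc]
  | cons b l ih =>
    intro pre a he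
    have k := ih (pre ++ [a]) b (by simp [he])
    have k1 : l.toFinset \ (pre ++ [a] ++ [b]).toFinset
        ⊆ (b :: l).toFinset \ (pre ++ [a]).toFinset := by
      intro x hx
      simp only [Finset.mem_sdiff, mem_toFinset, mem_append, mem_cons, not_or] at hx ⊢
      tauto
    have k2 : (b :: l).toFinset ⊆ (a :: b :: l).toFinset := by
      intro x hx
      simp only [mem_toFinset, mem_cons] at hx ⊢
      tauto
    have c1 := Finset.card_le_card k1
    have c2 := Finset.card_le_card k2
    by_cases hab : ρ a < ρ b
    · simp only [desc, hab, if_true]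
      omega
    · simp only [desc, hab, if_false]
      by_cases hb : b ∈ pre ++ [a]
      · have ha : a ∉ b :: l := fun ha => hab (H pre a b l he hb ha)
        have : (b :: l).toFinset.card < (a :: b :: l).toFinset.card :=
          Finset.card_lt_card ⟨k2, fun h => ha (mem_toFinset.1 (h (by simp)))⟩
        omega
      · have : (l.toFinset \ (pre ++ [a] ++ [b]).toFinset).card
            < ((b :: l).toFinset \ (pre ++ [a]).toFinset).card := by
          refine Finset.card_lt_card ⟨k1, fun h => ?_⟩
          have := h (x := b) (by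
            simp only [Finset.mem_sdiff, mem_toFinset]
            exact ⟨by simp, hb⟩)
          simp at this
        omega

theorem pair_sublist {α : Type} [DecidableEq α] {a b : α} {l : List α} (hb : b ∈ l)
    (h : l.idxOf a < l.idxOf b) : [a, b] <+ l := by
  induction l with
  | nil => simp at hb
  | cons c l ih =>
    have hcb : c ≠ b := by
      rintro rfl
      simp at h
    have hb' : b ∈ l := (List.mem_cons.1 hb).resolve_left hcb.symm
    by_cases hca : c = a
    · subst hca
      exact Sublist.cons_cons _ (List.singleton_sublist.2 hb')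
    · rw [List.idxOf_cons_ne _ hca, List.idxOf_cons_ne _ hcb] at h
      exact (ih hb' (by omega)).cons _

/-- an `ababa`-free chain embeds in a power of a permutation -/
theorem exists_rank {α : Type} [DecidableEq α] (e : List α) (hc : e.IsChain (· ≠ ·))
    (hab : ∀ a b, a ≠ b → ¬ [a, b, a, b, a] <+ e) (s : ℕ) (hs : e.toFinset.card ≤ s) :
    ∃ ρ : α → ℕ, Set.InjOn ρ {x | x ∈ e} ∧ (∀ x ∈ e, ρ x < s) ∧
      e.map ρ <+ (List.replicate (2 * s) (List.range s)).flatten := by
  let ρ : α → ℕ := fun x => (e.toFinset.filter fun y => e.idxOf x < e.idxOf y).card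
  have hρ : ∀ a b, a ∈ e → e.idxOf b < e.idxOf a → ρ a < ρ b := by
    intro a b ha h
    refine Finset.card_lt_card ⟨fun y hy => ?_, fun k => ?_⟩
    · simp only [Finset.mem_filter] at hy ⊢
      exact ⟨hy.1, h.trans hy.2⟩
    · have := k (x := a) (by simp [ha, h])
      simp at this
  have hlt : ∀ x ∈ e, ρ x < s := by
    intro x hx
    refine lt_of_lt_of_le (Finset.card_lt_card ⟨Finset.filter_subset _ _, fun k => ?_⟩) hs
    have := k (x := x) (by simp [hx])
    simp at this
  refine ⟨ρ, fun a ha b hb h => ?_, hlt, ?_⟩
  · rcases lt_trichotomy (e.idxOf a) (e.idxOf b) with k | k | k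
    · exact absurd (hρ b a hb k) (by omega)
    · exact (List.idxOf_inj ha).1 k
    · exact absurd (hρ a b ha k) (by omega)
  · have H : ∀ pre a b post, e = pre ++ a :: b :: post → b ∈ pre ++ [a] → a ∈ b :: post →
        ρ a < ρ b := by
      intro pre a b post he hb ha
      have hne : a ≠ b := by
        rw [he] at hc
        exact List.isChain_append_cons_cons.1 hc |>.2.1
      have hb' : b ∈ pre := by simpa [hne.symm] using hb
      have ha' : a ∈ post := by simpa [hne] using ha
      have hae : a ∈ e := by simp [he]
      apply hρ a b hae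
      rcases lt_trichotomy (e.idxOf a) (e.idxOf b) with k | k | k
      · exfalso
        have k1 : e.idxOf b = pre.idxOf b := by rw [he, List.idxOf_append_of_mem hb']
        have k2 : a ∈ pre := by
          by_contra hn
          rw [k1, he, List.idxOf_append_of_notMem hn] at k
          have := List.idxOf_lt_length_of_mem hb'
          omega
        have k3 : e.idxOf a = pre.idxOf a := by rw [he, List.idxOf_append_of_mem k2]
        rw [k1, k3] at k
        apply hab a b hne
        rw [he]
        exact (pair_sublist hb' k).append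
          (((List.singleton_sublist.2 ha').cons_cons b).cons_cons a)
      · exact absurd ((List.idxOf_inj hae).1 k) hne
      · exact k
    cases e with
    | nil => simp
    | cons a l =>
      have k1 := emb ρ s l a hlt
      have k2 := desc_le ρ _ H l [] a rfl
      have k3 : (l.toFinset \ ([] ++ [a]).toFinset).card ≤ (a :: l).toFinset.card :=
        Finset.card_le_card fun x hx => by
          simp only [Finset.mem_sdiff, mem_toFinset, mem_cons] at hx ⊢
          tauto
      refine k1.trans (Sublist.trans (l₂ := (List.replicate (desc ρ a l + 1)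
        (List.range s)).flatten) ?_ (Sublist.flatten ?_))
      · rw [replicate_succ, flatten_cons]
        refine Sublist.append_right ?_ _
        have := range'_sub (Nat.zero_le (ρ a)) (hlt a (by simp)).le
        rwa [Nat.sub_zero, ← List.range_eq_range'] at this
      · rw [List.replicate_sublist_replicate]
        omega

theorem exists_long (M : ℕ) : ∃ s, 1 ≤ s ∧ ∀ σ : List ℕ, σ.Nodup → σ.length = s →
    ∃ w, w <+ (List.replicate (2 * s) σ).flatten ∧ R w ∧ M * s ≤ w.length := by
  classical
  obtain ⟨F, J, _, p, o, hF, hdeg, hcard, h1, h2, h3, h4, h5⟩ := exists_cubics M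
  obtain ⟨lo, hlo⟩ := (Set.finite_range fun j => p j false).bddBelow
  obtain ⟨hi, hhi⟩ := (Set.finite_range fun j => p j true).bddAbove
  obtain ⟨a, b, ha, hb, e0, k1, k2, k3, -⟩ := exists_lit' hF lo hi
  have hlen := Seg.card_le p o h1 h2 h3 h4 h5 k1.destutter Finset.univ fun j _ =>
    ⟨ha.trans (hlo ⟨j, rfl⟩), (hhi ⟨j, rfl⟩).trans hb⟩
  have henv : Env F (e0.destutter (· ≠ ·)) := Env.destutter ⟨a, b, k1, k2, k3⟩
  have hch := List.isChain_destutter (· ≠ ·) e0
  have hseg := k1.destutter
  generalize e0.destutter (· ≠ ·) = e at *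
  have hdeg' : ∀ g ∈ e, g.natDegree ≤ 3 := fun g hg => hdeg g (hseg.mem g hg)
  obtain ⟨ρ, r1, r2, r3⟩ := exists_rank e hch (fun f g h => hseg.no_ababa hdeg' h) F.card
    (Finset.card_le_card fun g hg => hseg.mem g (mem_toFinset.1 hg))
  refine ⟨F.card, hF.card_pos, fun σ hσ hl => ?_⟩
  let ψ : ℝ[X] → ℕ := fun g => σ.getD (ρ g) 0
  have hψ : Set.InjOn ψ {x | x ∈ e} := by
    intro f hf g hg h
    apply r1 hf hg
    have l1 : ρ f < σ.length := hl ▸ r2 f hf
    have l2 : ρ g < σ.length := hl ▸ r2 g hg
    simp only [ψ, List.getD_eq_getElem _ _ l1, List.getD_eq_getElem _ _ l2] at h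
    exact (List.Nodup.getElem_inj_iff hσ).1 h
  let φ := Function.invFunOn ψ {x | x ∈ e}
  have hφ : ∀ g ∈ e, φ (ψ g) = g := fun g hg => hψ.leftInvOn_invFunOn hg
  have hmap : (e.map ψ).map φ = e := by
    rw [List.map_map]
    conv_rhs => rw [← List.map_id e]
    exact List.map_congr_left hφ
  refine ⟨e.map ψ, ?_, ⟨φ, ?_, ?_, ?_⟩, ?_⟩
  · have := r3.map (fun i => σ.getD i 0)
    rw [List.map_map, List.map_flatten, List.map_replicate] at this
    have e1 : (List.range F.card).map (fun i => σ.getD i 0) = σ := by
      apply List.ext_getElem (by simp [hl])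
      intro i i1 i2
      simp [List.getElem?_eq_getElem i2]
    rwa [e1] at this
  · intro x hx y hy h
    obtain ⟨f, hf, rfl⟩ := List.mem_map.1 hx
    obtain ⟨g, hg, rfl⟩ := List.mem_map.1 hy
    rw [hφ f hf, hφ g hg] at h
    rw [h]
  · intro x hx
    obtain ⟨f, hf, rfl⟩ := List.mem_map.1 hx
    rw [hφ f hf]
    exact hdeg' f hf
  · rw [hmap]
    exact henv.self
  · rw [List.length_map]
    exact hcard.trans (by simpa using hlen)

end Pool.Agent.P.MP_10147b_co
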