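import Pool.Agent.P.MP_10147b_co.Defs

namespace Pool.Agent.P.MP_10147b_co

open Polynomial List

/-- `g` is below all members of `F` at `x` -/
def MinAt (F : Set ℝ[X]) (g : ℝ[X]) (x : ℝ) : Prop := ∀ h ∈ F, g.eval x ≤ h.eval x

/-- a list of minimisers on consecutive closed intervals from `a` to `b` -/
inductive Seg (F : Set ℝ[X]) : ℝ → ℝ → List ℝ[X] → Prop
  | nil (a : ℝ) : Seg F a a []
  | cons {a c b : ℝ} {g : ℝ[X]} {e : List ℝ[X]} : a < c → g ∈ F →
      (∀ x, a ≤ x → x ≤ c → MinAt F g x) → Seg F c b e → Seg F a b (g :: e)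

variable {F : Set ℝ[X]} {a b c : ℝ} {e e' : List ℝ[X]}

theorem Seg.le (h : Seg F a b e) : a ≤ b := by
  induction h with
  | nil => exact le_rfl
  | cons h1 _ _ _ ih => exact h1.le.trans ih

theorem Seg.mem (h : Seg F a b e) : ∀ g ∈ e, g ∈ F := by
  induction h with
  | nil => simp
  | cons _ h2 _ _ ih =>
    intro g hg
    rcases List.mem_cons.1 hg with rfl | hg
    · exact h2
    · exact ih g hg

theorem Seg.append (h : Seg F a b e) (h' : Seg F b c e') : Seg F a c (e ++ e') := by
  induction h with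
  | nil => exact h'
  | cons h1 h2 h3 _ ih => exact Seg.cons h1 h2 h3 (ih h')

theorem Seg.transfer (h : Seg F a b e) {G : Set ℝ[X]} (T : ℝ[X] → ℝ[X]) (s : ℝ)
    (h1 : ∀ g ∈ e, T g ∈ G)
    (h2 : ∀ g ∈ e, ∀ x, a ≤ x → x ≤ b → MinAt F g x → MinAt G (T g) (x + s)) :
    Seg G (a + s) (b + s) (e.map T) := by
  induction h with
  | nil => exact Seg.nil _
  | @cons a c b g e k1 k2 k3 k4 ih =>
    refine Seg.cons (c := c + s) (by linarith) (h1 g (by simp)) (fun x hx hx' => ?_)
      (ih (fun g hg => h1 g (by simp [hg])) fun g hg x hx hx' =>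
        h2 g (by simp [hg]) x (by linarith) hx')
    have := h2 g (by simp) (x - s) (by linarith) (by linarith [k4.le])
      (k3 _ (by linarith) (by linarith))
    simpa using this

theorem Seg.merge {g : ℝ[X]} (h : Seg F a b (g :: g :: e)) : Seg F a b (g :: e) := by
  cases h with
  | cons k1 k2 k3 k4 =>
    cases k4 with
    | cons l1 l2 l3 l4 =>
      refine Seg.cons (k1.trans l1) k2 (fun x hx hx' => ?_) l4
      rcases le_total x _ with k | k
      · exact k3 x hx k
      · exact l3 x k hx'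

theorem Seg.destutter' {g : ℝ[X]} (h : Seg F a b (g :: e)) :
    Seg F a b (e.destutter' (· ≠ ·) g) := by
  induction e generalizing a g with
  | nil => exact h
  | cons g' e ih =>
    by_cases hg : g ≠ g'
    · rw [destutter'_cons_pos _ hg]
      cases h with
      | cons k1 k2 k3 k4 => exact Seg.cons k1 k2 k3 (ih k4)
    · rw [destutter'_cons_neg _ hg]
      push Not at hg
      subst hg
      exact ih h.merge

theorem Seg.destutter (h : Seg F a b e) : Seg F a b (e.destutter (· ≠ ·)) := by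
  cases e with
  | nil => exact h
  | cons g e => exact h.destutter'

theorem head_destutter' {α : Type} [DecidableEq α] (g : α) (e : List α) :
    (e.destutter' (· ≠ ·) g).head? = some g := by
  induction e generalizing g with
  | nil => rfl
  | cons g' e ih =>
    by_cases hg : g ≠ g'
    · rw [destutter'_cons_pos _ hg]; rfl
    · rw [destutter'_cons_neg _ hg]; exact ih g

theorem last_destutter' {α : Type} [DecidableEq α] (g : α) (e : List α) :
    (e.destutter' (· ≠ ·) g).getLast? = (g :: e).getLast? := by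
  induction e generalizing g with
  | nil => rfl
  | cons g' e ih =>
    by_cases hg : g ≠ g'
    · rw [destutter'_cons_pos _ hg, getLast?_cons_cons, ← ih g']
      cases h : e.destutter' (· ≠ ·) g' with
      | nil => exact absurd h (destutter'_ne_nil _ _)
      | cons x l => rw [getLast?_cons_cons]
    · rw [destutter'_cons_neg _ hg, getLast?_cons_cons]
      push Not at hg
      subst hg
      exact ih g

theorem Seg.unique_aux (n : ℕ) : ∀ {a : ℝ} {e e' : List ℝ[X]}, e.length + e'.length ≤ n →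
    Seg F a b e → Seg F a b e' → ∀ g0, e.destutter' (· ≠ ·) g0 = e'.destutter' (· ≠ ·) g0 := by
  induction n with
  | zero =>
    intro a e e' hn _ _ g0
    rw [List.length_eq_zero_iff.1 (by omega : e.length = 0),
      List.length_eq_zero_iff.1 (by omega : e'.length = 0)]
  | succ n ih =>
    intro a e e' hn h h' g0
    cases h with
    | nil =>
      cases h' with
      | nil => rfl
      | cons k1 _ _ k4 => exact absurd (k1.trans_le k4.le) (lt_irrefl _)
    | @cons _ c _ g e k1 k2 k3 k4 =>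
      cases h' with
      | nil => exact absurd (k1.trans_le k4.le) (lt_irrefl _)
      | @cons _ c' _ g' e' l1 l2 l3 l4 =>
        have hg : g = g' := by
          apply eq_of_infinite_eval_eq
          refine (Set.Icc_infinite (lt_min k1 l1)).mono fun x hx => ?_
          exact le_antisymm (k3 x hx.1 (hx.2.trans (min_le_left _ _)) _ l2)
            (l3 x hx.1 (hx.2.trans (min_le_right _ _)) _ k2)
        subst hg
        have key : e.destutter' (· ≠ ·) g = e'.destutter' (· ≠ ·) g := by
          simp only [List.length_cons] at hn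
          rcases lt_trichotomy c c' with k | k | k
          · have := ih (by simp only [List.length_cons]; omega) k4
              (Seg.cons k l2 (fun x hx hx' => l3 x (k1.le.trans hx) hx') l4) g
            rw [this, destutter'_cons_neg _ (by simp)]
          · subst k
            exact ih (by omega) k4 l4 g
          · have := ih (by simp only [List.length_cons]; omega)
              (Seg.cons k k2 (fun x hx hx' => k3 x (l1.le.trans hx) hx') k4) l4 g
            rw [← this, destutter'_cons_neg _ (by simp)]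
        by_cases hg : g0 ≠ g
        · rw [destutter'_cons_pos _ hg, destutter'_cons_pos _ hg, key]
        · rw [destutter'_cons_neg _ hg, destutter'_cons_neg _ hg]
          push Not at hg
          subst hg
          exact key

theorem Seg.unique (h : Seg F a b e) (h' : Seg F a b e') :
    e.destutter (· ≠ ·) = e'.destutter (· ≠ ·) := by
  cases h with
  | nil =>
    cases h' with
    | nil => rfl
    | cons k1 _ _ k4 => exact absurd (k1.trans_le k4.le) (lt_irrefl _)
  | @cons _ c _ g e k1 k2 k3 k4 =>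
    cases h' with
    | nil => exact absurd (k1.trans_le k4.le) (lt_irrefl _)
    | @cons _ c' _ g' e' l1 l2 l3 l4 =>
      have hg : g = g' := by
        apply eq_of_infinite_eval_eq
        refine (Set.Icc_infinite (lt_min k1 l1)).mono fun x hx => ?_
        exact le_antisymm (k3 x hx.1 (hx.2.trans (min_le_left _ _)) _ l2)
          (l3 x hx.1 (hx.2.trans (min_le_right _ _)) _ k2)
      subst hg
      have := Seg.unique_aux _ le_rfl (Seg.cons k1 k2 k3 k4) (Seg.cons l1 l2 l3 l4) g
      rw [destutter'_cons_neg _ (by simp), destutter'_cons_neg _ (by simp)] at this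
      exact this

theorem Seg.card_le {J : Type} [DecidableEq J] (p : J → Bool → ℝ) (o : J → Bool → ℝ[X])
    (h1 : ∀ j, p j false < p j true)
    (h2 : ∀ j j', j ≠ j' → p j true ≤ p j' false ∨ p j' true ≤ p j false)
    (h3 : ∀ j, o j false ≠ o j true) (h4 : ∀ j b, o j b ∈ F)
    (h5 : ∀ j b, ∀ f ∈ F, f ≠ o j b → (o j b).eval (p j b) < f.eval (p j b))
    (h : Seg F a b e) (I : Finset J) (hI : ∀ j ∈ I, a ≤ p j false ∧ p j true ≤ b) :
    I.card ≤ e.length := by
  induction h generalizing I with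
  | nil a =>
    rw [Finset.eq_empty_of_forall_notMem (s := I)]
    · simp
    · intro j hj
      have := hI j hj
      have := h1 j
      linarith
  | @cons a c b g e k1 k2 k3 k4 ih =>
    have hc : ∀ j ∈ I, c < p j true := by
      intro j hj
      by_contra hc
      push Not at hc
      have hj' := hI j hj
      have hlt := h1 j
      have key : ∀ β, a ≤ p j β → p j β ≤ c → g = o j β := by
        intro β l1 l2
        by_contra hne
        exact absurd (k3 _ l1 l2 _ (h4 j β)) (not_le.2 (h5 j β g k2 hne))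
      exact h3 j ((key false hj'.1 (by linarith)).symm.trans (key true (by linarith) hc))
    have l1 := ih (I.filter fun j => c ≤ p j false) fun j hj =>
      ⟨(Finset.mem_filter.1 hj).2, (hI j (Finset.mem_filter.1 hj).1).2⟩
    have l2 : (I.filter fun j => ¬ c ≤ p j false).card ≤ 1 := by
      rw [Finset.card_le_one]
      intro j hj j' hj'
      by_contra hne
      have m1 := Finset.mem_filter.1 hj
      have m2 := Finset.mem_filter.1 hj'
      have := hc j m1.1
      have := hc j' m2.1
      have := not_le.1 m1.2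
      have := not_le.1 m2.2
      rcases h2 j j' hne with k | k <;> linarith
    have := Finset.card_filter_add_card_filter_not (s := I) (fun j => c ≤ p j false)
    simp only [List.length_cons]
    omega

/-- increasing sample points avoiding `Z` -/
def Pts (F : Set ℝ[X]) (Z : Set ℝ) (b : ℝ) : ℝ → List ℝ[X] → Prop
  | _, [] => True
  | a, g :: l => ∃ x, a < x ∧ x < b ∧ x ∉ Z ∧ MinAt F g x ∧ Pts F Z b x l

theorem Pts.mono {Z : Set ℝ} {a' : ℝ} {l : List ℝ[X]} (h : Pts F Z b a l) (ha : a' ≤ a) :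
    Pts F Z b a' l := by
  cases l with
  | nil => trivial
  | cons g l =>
    obtain ⟨x, h1, h2⟩ := h
    exact ⟨x, ha.trans_lt h1, h2⟩

theorem Seg.pts {Z : Set ℝ} (hZ : Z.Finite) (h : Seg F a b e) {l : List ℝ[X]} (hl : l <+ e) :
    Pts F Z b a l := by
  induction h generalizing l with
  | nil => rw [List.sublist_nil.1 hl]; trivial
  | @cons a c b g e k1 k2 k3 k4 ih =>
    cases hl with
    | cons _ hl => exact (ih hl).mono k1.le
    | cons_cons _ hl =>
      obtain ⟨x, hx, hx'⟩ := ((Set.Ioo_infinite k1).sdiff hZ).nonempty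
      exact ⟨x, hx.1, hx.2.trans_le k4.le, hx', k3 x hx.1.le hx.2.le, (ih hl).mono hx.2.le⟩

theorem root_between {q : ℝ[X]} {x y : ℝ} (hxy : x < y) (h : q.eval x * q.eval y < 0) :
    ∃ z, x < z ∧ z < y ∧ q.eval z = 0 := by
  have hc : ContinuousOn (fun z => q.eval z) (Set.Icc x y) := q.continuous.continuousOn
  rcases mul_neg_iff.1 h with k | k
  · obtain ⟨z, hz, hz'⟩ := intermediate_value_Ioo' hxy.le hc ⟨k.2, k.1⟩
    exact ⟨z, hz.1, hz.2, hz'⟩
  · obtain ⟨z, hz, hz'⟩ := intermediate_value_Ioo hxy.le hc ⟨k.1, k.2⟩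
    exact ⟨z, hz.1, hz.2, hz'⟩

theorem Seg.no_ababa (h : Seg F a b e) (hdeg : ∀ g ∈ e, g.natDegree ≤ 3) {f g : ℝ[X]}
    (hfg : f ≠ g) : ¬ [f, g, f, g, f] <+ e := by
  intro hl
  have hq : f - g ≠ 0 := sub_ne_zero.2 hfg
  have hZ : {x | IsRoot (f - g) x}.Finite := finite_setOfPred_isRoot hq
  have hf : f ∈ e := hl.subset (by simp)
  have hg : g ∈ e := hl.subset (by simp)
  obtain ⟨x1, -, -, z1, m1, x2, l2, -, z2, m2, x3, l3, -, z3, m3, x4, l4, -, z4, m4,
    x5, l5, -, z5, m5, -⟩ := h.pts hZ hl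
  have neg : ∀ x, x ∉ {x | IsRoot (f - g) x} → MinAt F f x → (f - g).eval x < 0 := by
    intro x hx hm
    refine lt_of_le_of_ne ?_ hx
    rw [eval_sub]
    linarith [hm g (h.mem g hg)]
  have pos : ∀ x, x ∉ {x | IsRoot (f - g) x} → MinAt F g x → 0 < (f - g).eval x := by
    intro x hx hm
    refine lt_of_le_of_ne ?_ (Ne.symm hx)
    rw [eval_sub]
    linarith [hm f (h.mem f hf)]
  obtain ⟨y1, a1, b1, c1⟩ := root_between l2 (mul_neg_of_neg_of_pos (neg _ z1 m1) (pos _ z2 m2))
  obtain ⟨y2, a2, b2, c2⟩ := root_between l3 (mul_neg_of_pos_of_neg (pos _ z2 m2) (neg _ z3 m3))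
  obtain ⟨y3, a3, b3, c3⟩ := root_between l4 (mul_neg_of_neg_of_pos (neg _ z3 m3) (pos _ z4 m4))
  obtain ⟨y4, a4, b4, c4⟩ := root_between l5 (mul_neg_of_pos_of_neg (pos _ z4 m4) (neg _ z5 m5))
  apply hq
  have hd : (f - g).natDegree ≤ 3 :=
    (natDegree_sub_le f g).trans (max_le (hdeg f hf) (hdeg g hg))
  apply eq_zero_of_natDegree_lt_card_of_eval_eq_zero (f - g) (f := ![y1, y2, y3, y4])
  · apply StrictMono.injective
    rw [Fin.strictMono_iff_lt_succ]
    intro i
    fin_cases i <;> simp <;> linarith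
  · intro i
    fin_cases i
    exacts [c1, c2, c3, c4]
  · simp only [Fintype.card_fin]
    omega

theorem no_cross {F : Finset ℝ[X]} (hF : F.Nonempty) {lo hi : EReal} {x0 : ℝ} (h0 : lo < x0)
    (h1 : (x0 : EReal) < hi)
    (hc : ∀ x : ℝ, lo < x → (x : EReal) < hi → ¬ ∃ f ∈ F, ∃ h ∈ F, f ≠ h ∧ f.eval x = h.eval x) :
    ∃ g ∈ F, ∀ x : ℝ, lo < x → (x : EReal) < hi → MinAt F g x := by
  obtain ⟨g, hg, hmin⟩ := F.exists_min_image (fun f => f.eval x0) hF
  refine ⟨g, hg, fun x hx hx' h hh => ?_⟩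
  by_contra hlt
  push Not at hlt
  have hne : h ≠ g := by rintro rfl; exact lt_irrefl _ hlt
  have hcont : ContinuousOn (fun z => (h - g).eval z) (Set.uIcc x0 x) :=
    (h - g).continuous.continuousOn
  have hm := hmin h hh
  obtain ⟨z, hz, hz'⟩ := intermediate_value_uIcc hcont (show (0 : ℝ) ∈ Set.uIcc _ _ by
    rw [Set.mem_uIcc]
    right
    simp only [eval_sub]
    constructor <;> linarith)
  refine hc z ?_ ?_ ⟨h, hh, g, hg, hne, by simpa [sub_eq_zero] using hz'⟩
  · rcases Set.mem_uIcc.1 hz with k | k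
    · exact h0.trans_le (EReal.coe_le_coe_iff.2 k.1)
    · exact hx.trans_le (EReal.coe_le_coe_iff.2 k.1)
  · rcases Set.mem_uIcc.1 hz with k | k
    · exact (EReal.coe_le_coe_iff.2 k.2).trans_lt hx'
    · exact (EReal.coe_le_coe_iff.2 k.2).trans_lt h1

theorem minAt_closure {g : ℝ[X]} (hac : a < c) (h : ∀ x, a < x → x < c → MinAt F g x) :
    ∀ x, a ≤ x → x ≤ c → MinAt F g x := by
  intro x hx hx' f hf
  have hcl : IsClosed {x | g.eval x ≤ f.eval x} := isClosed_le g.continuous f.continuous
  have : Set.Icc a c ⊆ {x | g.eval x ≤ f.eval x} := by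
    rw [← closure_Ioo hac.ne]
    exact hcl.closure_subset_iff.2 fun y hy => h y hy.1 hy.2 f hf
  exact this ⟨hx, hx'⟩

theorem exists_lit {F : Finset ℝ[X]} (hF : F.Nonempty) (b : ℝ) (bs : List ℝ) :
    ∀ (a0 : EReal) (a : ℝ), a0 ≤ a → a < b → bs.Pairwise (· < ·) → (∀ c ∈ bs, a < c ∧ c < b) →
    (∀ x : ℝ, a0 < x → (∃ f ∈ F, ∃ h ∈ F, f ≠ h ∧ f.eval x = h.eval x) → x ∈ bs) →
    ∃ (r : ℕ) (t : Fin (r + 2) → EReal) (g : Fin (r + 1) → ℝ[X]),
      StrictMono t ∧ t 0 = a0 ∧ t (Fin.last (r + 1)) = ⊤ ∧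
      (∀ x : ℝ, (∃ i : Fin (r + 1), t i.succ = x) ↔ x ∈ bs) ∧
      (∀ i, g i ∈ F ∧
        ∀ x : ℝ, t i.castSucc < x → x < t i.succ → ∀ h ∈ F, (g i).eval x ≤ h.eval x) ∧
      Seg F a b (List.ofFn g) ∧ (∀ x : ℝ, a0 < x → x ≤ a → MinAt F (g 0) x) ∧
      (∀ x : ℝ, b ≤ x → MinAt F (g (Fin.last r)) x) := by
  induction bs with
  | nil =>
    intro a0 a h0 hab _ _ hc
    obtain ⟨g, hg, hmin⟩ := no_cross hF (lo := a0) (hi := ⊤) (x0 := b)
      (h0.trans_lt (EReal.coe_lt_coe_iff.2 hab)) (EReal.coe_lt_top _)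
      fun x hx _ hx' => by simpa using hc x hx hx'
    refine ⟨0, ![a0, ⊤], fun _ => g, ?_, rfl, rfl, ?_, ?_, ?_, ?_, ?_⟩
    · rw [Fin.strictMono_iff_lt_succ]
      intro i
      fin_cases i
      exact h0.trans_lt (EReal.coe_lt_top _)
    · intro x
      simp
    · intro i
      fin_cases i
      exact ⟨hg, fun x hx hx' => hmin x hx hx'⟩
    · refine Seg.cons hab hg (minAt_closure hab fun x hx _ => ?_) (Seg.nil _)
      exact hmin x (h0.trans_lt (EReal.coe_lt_coe_iff.2 hx)) (EReal.coe_lt_top _)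
    · exact fun x hx _ => hmin x hx (EReal.coe_lt_top _)
    · exact fun x hx => hmin x (h0.trans_lt (EReal.coe_lt_coe_iff.2 (hab.trans_le hx)))
        (EReal.coe_lt_top _)
  | cons c bs ih =>
    intro a0 a h0 hab hp hin hc
    rw [List.pairwise_cons] at hp
    have hac := hin c (by simp)
    obtain ⟨r, t, g, k1, k2, k3, k4, k5, k6, -, k8⟩ := ih c c le_rfl hac.2 hp.2
      (fun y hy => ⟨hp.1 y hy, (hin y (by simp [hy])).2⟩) fun x hx hx' => by
        have hx0 : c < x := EReal.coe_lt_coe_iff.1 hx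
        have := hc x (h0.trans_lt (EReal.coe_lt_coe_iff.2 (hac.1.trans hx0))) hx'
        rcases List.mem_cons.1 this with k | k
        · exact absurd k hx0.ne'
        · exact k
    obtain ⟨g0, hg, hmin⟩ := no_cross hF (lo := a0) (hi := c) (x0 := (a + c) / 2)
      (h0.trans_lt (EReal.coe_lt_coe_iff.2 (by linarith))) (EReal.coe_lt_coe_iff.2 (by linarith))
      fun x hx hx1 hx' => by
        have hx0 : x < c := EReal.coe_lt_coe_iff.1 hx1
        rcases List.mem_cons.1 (hc x hx hx') with k | k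
        · exact absurd k hx0.ne
        · exact absurd (hp.1 x k) hx0.not_gt
    refine ⟨r + 1, Fin.cons a0 t, Fin.cons g0 g, ?_, rfl, ?_, ?_, ?_, ?_, ?_, ?_⟩
    · rw [Fin.strictMono_cons]
      refine ⟨fun j => ?_, k1⟩
      exact (h0.trans_lt (EReal.coe_lt_coe_iff.2 hac.1)).trans_le (k2 ▸ k1.monotone (Fin.zero_le j))
    · rw [← Fin.succ_last, Fin.cons_succ, k3]
    · intro x
      simp only [Fin.cons_succ, List.mem_cons]
      rw [Fin.exists_fin_succ, k4, k2, EReal.coe_eq_coe_iff, eq_comm]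
    · intro i
      induction i using Fin.cases with
      | zero =>
        refine ⟨hg, fun x hx hx' => hmin x hx ?_⟩
        rw [Fin.cons_succ, k2] at hx'
        exact hx'
      | succ i =>
        rw [Fin.cons_succ, Fin.cons_succ, ← Fin.succ_castSucc, Fin.cons_succ]
        exact k5 i
    · rw [List.ofFn_succ]
      simp only [Fin.cons_zero, Fin.cons_succ]
      refine Seg.cons hac.1 hg (minAt_closure hac.1 fun x hx hx' => ?_) k6
      exact hmin x (h0.trans_lt (EReal.coe_lt_coe_iff.2 hx)) (EReal.coe_lt_coe_iff.2 hx')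
    · exact fun x hx hx' => hmin x hx (EReal.coe_lt_coe_iff.2 (hx'.trans_lt hac.1))
    · rw [← Fin.succ_last, Fin.cons_succ]
      exact k8

end Pool.Agent.P.MP_10147b_co
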