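import Pool.Agent.P.MP_10147b_co.Env

namespace Pool.Agent.P.MP_10147b_co

open Polynomial List

/-- a list of minimisers covering the whole line -/
def Env (F : Set ℝ[X]) (e : List ℝ[X]) : Prop :=
  ∃ a b, Seg F a b e ∧ (∀ g ∈ e.head?, ∀ x ≤ a, MinAt F g x) ∧
    ∀ g ∈ e.getLast?, ∀ x, b ≤ x → MinAt F g x

theorem cross_finite (F : Finset ℝ[X]) :
    {x : ℝ | ∃ f ∈ F, ∃ h ∈ F, f ≠ h ∧ f.eval x = h.eval x}.Finite := by
  have : {x : ℝ | ∃ f ∈ F, ∃ h ∈ F, f ≠ h ∧ f.eval x = h.eval x}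
      = ⋃ f ∈ (F : Set ℝ[X]), ⋃ h ∈ (F : Set ℝ[X]), {x | f ≠ h ∧ f.eval x = h.eval x} := by
    ext x
    simp only [Set.mem_ofPred_eq, Set.mem_iUnion, exists_prop, Finset.mem_coe]
  rw [this]
  refine F.finite_toSet.biUnion fun f _ => F.finite_toSet.biUnion fun h _ => ?_
  by_cases hfh : f = h
  · simp [hfh]
  · by_contra hinf
    exact hfh (eq_of_infinite_eval_eq f h (Set.Infinite.mono (fun x hx => hx.2) hinf))

theorem exists_lit' {F : Finset ℝ[X]} (hF : F.Nonempty) (a1 b1 : ℝ) :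
    ∃ a b, a ≤ a1 ∧ b1 ≤ b ∧ ∃ e, Seg F a b e ∧ (∀ g ∈ e.head?, ∀ x ≤ a, MinAt F g x) ∧
      (∀ g ∈ e.getLast?, ∀ x, b ≤ x → MinAt F g x) ∧ IsEnvelope F (e.destutter (· ≠ ·)) := by
  obtain ⟨lo, hlo⟩ := (cross_finite F).bddBelow
  obtain ⟨hi, hhi⟩ := (cross_finite F).bddAbove
  obtain ⟨r, t, g, k1, k2, k3, k4, k5, k6, k7, k8⟩ := exists_lit hF
    (max (max hi b1) (min lo a1) + 1) ((cross_finite F).toFinset.sort (· ≤ ·)) ⊥ (min lo a1 - 1)
    bot_le (by linarith [le_max_right (max hi b1) (min lo a1)])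
    (Finset.sortedLT_sort _).pairwise (fun c hc => by
      rw [Finset.mem_sort, Set.Finite.mem_toFinset] at hc
      have := hlo hc
      have := hhi hc
      constructor
      · linarith [min_le_left lo a1]
      · linarith [le_max_left (max hi b1) (min lo a1), le_max_left hi b1])
    (fun x _ hx => by rw [Finset.mem_sort, Set.Finite.mem_toFinset]; exact hx)
  refine ⟨_, _, by linarith [min_le_right lo a1],
    by linarith [le_max_left (max hi b1) (min lo a1), le_max_right hi b1], _, k6, ?_, ?_,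
    r, t, g, k1, k2, k3, fun x => ?_, k5, rfl⟩
  · intro f hf x hx
    rw [List.ofFn_succ] at hf
    simp only [head?_cons, Option.mem_def, Option.some.injEq] at hf
    subst hf
    exact k7 x (EReal.bot_lt_coe _) hx
  · intro f hf x hx
    rw [List.ofFn_succ', List.concat_eq_append, List.getLast?_concat] at hf
    simp only [Option.mem_def, Option.some.injEq] at hf
    subst hf
    exact k8 x hx
  · rw [Fin.exists_fin_succ, k4, k2, Finset.mem_sort, Set.Finite.mem_toFinset]
    simp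

theorem Seg.extendL {F : Set ℝ[X]} {a a' b : ℝ} {e : List ℝ[X]} (h : Seg F a b e) (he : e ≠ [])
    (ha : a' ≤ a) (h1 : ∀ g ∈ e.head?, ∀ x ≤ a, MinAt F g x) : Seg F a' b e := by
  cases h with
  | nil => exact absurd rfl he
  | cons k1 k2 k3 k4 =>
    refine Seg.cons (ha.trans_lt k1) k2 (fun x _ hx' => ?_) k4
    rcases le_total x a with k | k
    · exact h1 _ rfl x k
    · exact k3 x k hx'

theorem Seg.extendR {F : Set ℝ[X]} {a b b' : ℝ} {e : List ℝ[X]} (h : Seg F a b e) (he : e ≠ [])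
    (hb : b ≤ b') (h1 : ∀ g ∈ e.getLast?, ∀ x, b ≤ x → MinAt F g x) : Seg F a b' e := by
  induction h with
  | nil => exact absurd rfl he
  | @cons a c b g e k1 k2 k3 k4 ih =>
    cases k4 with
    | nil =>
      refine Seg.cons (k1.trans_le hb) k2 (fun x hx _ => ?_) (Seg.nil _)
      rcases le_total x c with k | k
      · exact k3 x hx k
      · exact h1 _ rfl x k
    | cons l1 l2 l3 l4 =>
      exact Seg.cons k1 k2 k3 (ih (by simp) hb (by rwa [getLast?_cons_cons] at h1))

theorem Env.isEnvelope {F : Finset ℝ[X]} {e : List ℝ[X]} (h : Env F e) (he : e ≠ []) :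
    IsEnvelope F (e.destutter (· ≠ ·)) := by
  obtain ⟨a1, b1, h1, h2, h3⟩ := h
  have hF : F.Nonempty := by
    obtain ⟨g, hg⟩ := List.exists_mem_of_ne_nil e he
    exact ⟨g, h1.mem g hg⟩
  obtain ⟨a, b, ha, hb, e', k1, -, -, k4⟩ := exists_lit' hF a1 b1
  rw [((h1.extendL he ha h2).extendR he hb h3).unique k1]
  exact k4

theorem Env.destutter {F : Set ℝ[X]} {e : List ℝ[X]} (h : Env F e) :
    Env F (e.destutter (· ≠ ·)) := by
  obtain ⟨a, b, h1, h2, h3⟩ := h
  cases e with
  | nil => exact ⟨a, b, h1, h2, h3⟩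
  | cons g e =>
    refine ⟨a, b, h1.destutter, ?_, ?_⟩
    · rw [destutter_cons', head_destutter']; exact h2
    · rw [destutter_cons', last_destutter']; exact h3

theorem Env.self {F : Set ℝ[X]} {e : List ℝ[X]} (h : Env F e) : Env {g | g ∈ e} e := by
  obtain ⟨a, b, h1, h2, h3⟩ := h
  have hm : ∀ g x, MinAt F g x → MinAt {g | g ∈ e} g x := fun g x hx f hf => hx f (h1.mem f hf)
  refine ⟨a, b, ?_, fun g hg x hx => hm _ _ (h2 g hg x hx), fun g hg x hx => hm _ _ (h3 g hg x hx)⟩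
  simpa using h1.transfer (G := {g | g ∈ e}) id 0 (fun g hg => hg)
    fun g _ x _ _ hx => by simpa using hm g x hx

theorem glue {e1 e2 : List ℝ[X]} (h1 : Env {g | g ∈ e1} e1) (h2 : Env {g | g ∈ e2} e2)
    (n1 : e1 ≠ []) (n2 : e2 ≠ []) (d1 : ∀ g ∈ e1, g.natDegree ≤ 3)
    (d2 : ∀ g ∈ e2, g.natDegree ≤ 3) :
    ∃ T1 T2 : ℝ[X] → ℝ[X], Function.Injective T1 ∧ Function.Injective T2 ∧
      (∀ g ∈ e1, (T1 g).natDegree ≤ 3) ∧ (∀ g ∈ e2, (T2 g).natDegree ≤ 3) ∧
      (∀ g ∈ e1, ∀ h ∈ e2, T1 g ≠ T2 h) ∧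
      Env {g | g ∈ e1.map T1 ++ e2.map T2} (e1.map T1 ++ e2.map T2) := by
  obtain ⟨a1, b1, s1, l1, r1⟩ := h1
  obtain ⟨a2, b2, s2, l2, r2⟩ := h2
  obtain ⟨u, hu⟩ : ∃ u, u = e1.getLast n1 := ⟨_, rfl⟩
  obtain ⟨v, hv⟩ : ∃ v, v = e2.head n2 := ⟨_, rfl⟩
  have hu1 : u ∈ e1 := hu ▸ getLast_mem n1
  have hv1 : v ∈ e2 := hv ▸ head_mem n2
  have hu2 := r1 u (by rw [hu, getLast?_eq_some_getLast n1]; rfl)
  have hv2 := l2 v (by rw [hv, head?_eq_some_head n2]; rfl)
  let T1 : ℝ[X] → ℝ[X] := fun g => g - u + (X - C b1)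
  let T2 : ℝ[X] → ℝ[X] := fun g => taylor (a2 - b1) (g - v)
  have ev1 : ∀ g x, (T1 g).eval x = g.eval x - u.eval x + (x - b1) := by
    intro g x; simp [T1]
  have ev2 : ∀ g x, (T2 g).eval x = g.eval (x + (a2 - b1)) - v.eval (x + (a2 - b1)) := by
    intro g x; simp only [T2]; rw [taylor_eval, eval_sub]
  have A : ∀ g x, x ≤ b1 → MinAt {g | g ∈ e1} g x →
      MinAt {g | g ∈ e1.map T1 ++ e2.map T2} (T1 g) x := by
    intro g x hx hg f hf
    rcases List.mem_append.1 hf with hf | hf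
    · obtain ⟨f', hf', rfl⟩ := List.mem_map.1 hf
      rw [ev1, ev1]
      linarith [hg f' hf']
    · obtain ⟨f', hf', rfl⟩ := List.mem_map.1 hf
      rw [ev1, ev2]
      linarith [hg u hu1, hv2 (x + (a2 - b1)) (by linarith) f' hf']
  have B : ∀ g y, a2 ≤ y → MinAt {g | g ∈ e2} g y →
      MinAt {g | g ∈ e1.map T1 ++ e2.map T2} (T2 g) (y + (b1 - a2)) := by
    intro g y hy hg f hf
    have e : y + (b1 - a2) + (a2 - b1) = y := by ring
    rcases List.mem_append.1 hf with hf | hf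
    · obtain ⟨f', hf', rfl⟩ := List.mem_map.1 hf
      rw [ev1, ev2, e]
      linarith [hg v hv1, hu2 (y + (b1 - a2)) (by linarith) f' hf']
    · obtain ⟨f', hf', rfl⟩ := List.mem_map.1 hf
      rw [ev2, ev2, e]
      linarith [hg f' hf']
  refine ⟨T1, T2, fun f g h => ?_, fun f g h => ?_, fun g hg => ?_, fun g hg => ?_,
    fun g hg h hh => ?_, a1, b2 + (b1 - a2), ?_, ?_, ?_⟩
  · simpa [T1] using h
  · simpa using taylor_injective _ h
  · refine (natDegree_add_le _ _).trans (max_le ((natDegree_sub_le _ _).trans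
      (max_le (d1 g hg) (d1 u hu1))) ?_)
    rw [natDegree_X_sub_C]; norm_num
  · simp only [T2]
    rw [natDegree_taylor]
    exact (natDegree_sub_le _ _).trans (max_le (d2 g hg) (d2 v hv1))
  · obtain ⟨x, -, hx, -, hm, -⟩ := s1.pts Set.finite_empty (List.singleton_sublist.2 hg)
    intro heq
    have k1 := congrArg (eval x) heq
    rw [ev1, ev2] at k1
    linarith [hm u hu1, hv2 (x + (a2 - b1)) (by linarith) h hh]
  · have k1 := s1.transfer (G := {g | g ∈ e1.map T1 ++ e2.map T2}) T1 0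
      (fun g hg => List.mem_append_left _ (List.mem_map_of_mem hg))
      fun g _ x _ hx hm => by simpa only [add_zero] using A g x hx hm
    have k2 := s2.transfer (G := {g | g ∈ e1.map T1 ++ e2.map T2}) T2 (b1 - a2)
      (fun g hg => List.mem_append_right _ (List.mem_map_of_mem hg))
      fun g _ x hx _ hm => B g x hx hm
    rw [add_zero, add_zero] at k1
    rw [show a2 + (b1 - a2) = b1 by ring] at k2
    exact k1.append k2
  · intro g hg x hx
    obtain ⟨f, e1', rfl⟩ := List.exists_cons_of_ne_nil n1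
    simp only [map_cons, cons_append, head?_cons, Option.mem_def, Option.some.injEq] at hg
    subst hg
    exact A f x (hx.trans s1.le) (l1 f rfl x hx)
  · intro g hg x hx
    rw [List.getLast?_append, List.getLast?_map, getLast?_eq_some_getLast n2] at hg
    simp only [Option.map_some, Option.some_or, Option.mem_def, Option.some.injEq] at hg
    subst hg
    have := B (e2.getLast n2) (x - (b1 - a2)) (by linarith [s2.le])
      (r2 _ (by rw [getLast?_eq_some_getLast n2]; rfl) _ (by linarith))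
    simpa only [sub_add_cancel] using this

/-- realisable by cubics, repeated neighbours allowed -/
def R (w : List ℕ) : Prop := ∃ φ : ℕ → ℝ[X], Set.InjOn φ {a | a ∈ w} ∧
  (∀ a ∈ w, (φ a).natDegree ≤ 3) ∧ Env {g | g ∈ w.map φ} (w.map φ)

theorem R_nil : R [] := ⟨fun _ => 0, by simp, by simp, 0, 0, Seg.nil _, by simp, by simp⟩

theorem R.append {w1 w2 : List ℕ} (h1 : R w1) (h2 : R w2) (hd : ∀ a ∈ w1, a ∉ w2) :
    R (w1 ++ w2) := by
  classical
  by_cases n1 : w1 = []
  · simpa [n1] using h2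
  by_cases n2 : w2 = []
  · simpa [n2] using h1
  obtain ⟨φ1, i1, d1, e1⟩ := h1
  obtain ⟨φ2, i2, d2, e2⟩ := h2
  obtain ⟨T1, T2, j1, j2, k1, k2, k3, k4⟩ := glue e1 e2 (by simpa using n1) (by simpa using n2)
    (by simpa using d1) (by simpa using d2)
  have e : (w1 ++ w2).map (fun a => if a ∈ w1 then T1 (φ1 a) else T2 (φ2 a))
      = (w1.map φ1).map T1 ++ (w2.map φ2).map T2 := by
    rw [List.map_append, List.map_map, List.map_map]
    congr 1
    · exact List.map_congr_left fun a ha => by simp [ha]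
    · exact List.map_congr_left fun a ha => by
        have : a ∉ w1 := fun k => hd a k ha
        simp [this]
  refine ⟨fun a => if a ∈ w1 then T1 (φ1 a) else T2 (φ2 a), ?_, ?_, by rw [e]; exact k4⟩
  · intro a ha b hb hab
    simp only [Set.mem_ofPred_eq, List.mem_append] at ha hb
    by_cases ha1 : a ∈ w1 <;> by_cases hb1 : b ∈ w1 <;> simp only [ha1, hb1, if_true, if_false] at hab
    · exact i1 ha1 hb1 (j1 hab)
    · exact absurd hab (k3 _ (List.mem_map_of_mem ha1) _
        (List.mem_map_of_mem (hb.resolve_left hb1)))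
    · exact absurd hab.symm (k3 _ (List.mem_map_of_mem hb1) _
        (List.mem_map_of_mem (ha.resolve_left ha1)))
    · exact i2 (ha.resolve_left ha1) (hb.resolve_left hb1) (j2 hab)
  · intro a ha
    by_cases ha1 : a ∈ w1 <;> simp only [ha1, if_true, if_false]
    · exact k1 _ (List.mem_map_of_mem ha1)
    · exact k2 _ (List.mem_map_of_mem ((List.mem_append.1 ha).resolve_left ha1))

theorem R_replicate (n a : ℕ) : R (List.replicate n a) := by
  have hm : ∀ (x : ℝ), MinAt {g | g ∈ (List.replicate n a).map fun _ => (0 : ℝ[X])} 0 x := by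
    intro x f hf
    obtain ⟨_, -, rfl⟩ := List.mem_map.1 hf
    exact le_rfl
  have key : ∀ (F : Set ℝ[X]) (k : ℕ) (c : ℝ), (k ≠ 0 → 0 ∈ F) → (∀ x, MinAt F 0 x) →
      Seg F c (c + k) (List.replicate k 0) := by
    intro F k
    induction k with
    | zero => intro c _ _; simpa using Seg.nil c
    | succ k ih =>
      intro c h0 hm
      refine Seg.cons (c := c + 1) (by linarith) (h0 (by omega)) (fun x _ _ => hm x) ?_
      have := ih (c + 1) (fun _ => h0 (by omega)) hm
      convert this using 1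
      push_cast
      ring
  refine ⟨fun _ => 0, ?_, by simp, 0, 0 + n, ?_, ?_, ?_⟩
  · intro x hx y hy _
    rw [List.eq_of_mem_replicate hx, List.eq_of_mem_replicate hy]
  · have := key _ n 0 (fun h => by simp [h]) hm
    simpa using this
  · intro g hg x _
    obtain ⟨_, -, rfl⟩ := List.mem_map.1 (List.mem_of_mem_head? hg)
    exact hm x
  · intro g hg x _
    obtain ⟨_, -, rfl⟩ := List.mem_map.1 (List.mem_of_mem_getLast? hg)
    exact hm x

theorem R.realized {w : List ℕ} (h : R w) (hw : w ≠ []) {k : ℕ} (hk : 3 ≤ k) : Realized k w := by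
  classical
  obtain ⟨φ, h1, h2, h3⟩ := h
  refine ⟨(w.map φ).toFinset, φ, ?_, h1, ?_⟩
  · intro f hf
    obtain ⟨a, ha, rfl⟩ := List.mem_map.1 (List.mem_toFinset.1 hf)
    exact (h2 a ha).trans hk
  · rw [List.map_destutter (R₂ := (· ≠ ·)) fun a ha b hb => (h1.ne_iff ha hb).symm]
    refine Env.isEnvelope ?_ (by simpa using hw)
    rwa [List.coe_toFinset]

end Pool.Agent.P.MP_10147b_co
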