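import Mathlib

namespace Pool.Agent.P.MP_10147b_co

/-- separation of a level from a site: `x` is the offset from the centre, `d` is line minus level -/
def SepR (K w θ x d : ℝ) : Prop :=
  w ≤ |x| ∧ (x < 0 → K * (-x) ^ 3 ≤ θ * d) ∧ (0 < x → -(K * d) ≤ x ^ 2)

/-- a member stays above a level with margin -/
def ValR (θ A D x d : ℝ) : Prop := 0 ≤ d + A * x ^ 2 + D * x ^ 3 - θ * |x|

theorem SepR.mono {K w θ x d d' : ℝ} (h : SepR K w θ x d) (hK : 0 ≤ K) (hθ : 0 ≤ θ)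
    (hd : d ≤ d') : SepR K w θ x d' := by
  obtain ⟨h1, h2, h3⟩ := h
  refine ⟨h1, fun hx => ?_, fun hx => ?_⟩
  · exact (h2 hx).trans (mul_le_mul_of_nonneg_left hd hθ)
  · have := h3 hx
    have := mul_le_mul_of_nonneg_left hd hK
    linarith

theorem ValR.mono {θ A D x d d' : ℝ} (h : ValR θ A D x d) (hd : d ≤ d') : ValR θ A D x d' := by
  unfold ValR at *
  linarith

theorem SepR.scale {K w θ x d e : ℝ} (he : 0 < e) (h : SepR K w θ x d) :
    SepR K (e * w) (e * θ) (e * x) (e ^ 2 * d) := by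
  obtain ⟨h1, h2, h3⟩ := h
  refine ⟨?_, fun hx => ?_, fun hx => ?_⟩
  · rw [abs_mul, abs_of_pos he]
    exact mul_le_mul_of_nonneg_left h1 he.le
  · have hx' : x < 0 := by
      by_contra hc
      push Not at hc
      have := mul_nonneg he.le hc
      linarith
    have := mul_le_mul_of_nonneg_left (h2 hx') (pow_pos he 3).le
    calc K * (-(e * x)) ^ 3 = e ^ 3 * (K * (-x) ^ 3) := by ring
      _ ≤ e ^ 3 * (θ * d) := this
      _ = _ := by ring
  · have hx' : 0 < x := by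
      by_contra hc
      push Not at hc
      have := mul_nonpos_of_nonneg_of_nonpos he.le hc
      linarith
    have := mul_le_mul_of_nonneg_left (h3 hx') (pow_pos he 2).le
    calc -(K * (e ^ 2 * d)) = e ^ 2 * (-(K * d)) := by ring
      _ ≤ e ^ 2 * x ^ 2 := this
      _ = _ := by ring

theorem SepR.unscale {K w θ x d e : ℝ} (he : 0 < e) (h : SepR K w θ x d) :
    SepR K (w / e) (θ / e) (x / e) (d / e ^ 2) := by
  have := h.scale (inv_pos.2 he)
  convert this using 1 <;> field_simp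

theorem ValR.scale {θ A D x d e : ℝ} (he : 0 < e) (h : ValR θ A D x d) :
    ValR (e * θ) A (D / e) (e * x) (e ^ 2 * d) := by
  unfold ValR at *
  rw [abs_mul, abs_of_pos he]
  have := mul_nonneg (pow_pos he 2).le h
  have e1 : D / e * (e * x) ^ 3 = e ^ 2 * (D * x ^ 3) := by field_simp
  rw [e1]
  nlinarith

theorem ValR.unscale {θ A D x d e : ℝ} (he : 0 < e) (h : ValR θ A D x d) :
    ValR (θ / e) A (D * e) (x / e) (d / e ^ 2) := by
  have := h.scale (inv_pos.2 he)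
  convert this using 1 <;> field_simp

/-- the scalar constants of one step -/
structure Cst (K C Φ lam : ℝ) : Prop where
  hK : 1 ≤ K
  hKC : K ≤ C
  hΦ : 100 * C ^ 4 ≤ Φ
  hlam : 2 * K * lam = 1

namespace Cst
variable {K C Φ lam : ℝ} (h : Cst K C Φ lam)
include h

theorem C1 : 1 ≤ C := h.hK.trans h.hKC
theorem lam_pos : 0 < lam := by
  have := h.hK
  have := h.hlam
  by_contra hc
  push Not at hc
  nlinarith
theorem lam_le : lam ≤ 1 / 2 := by
  have := h.hK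
  have := h.hlam
  have := h.lam_pos
  nlinarith
theorem lamC : 1 ≤ 2 * C * lam := by
  have := h.hKC
  have := h.hlam
  have := h.lam_pos
  nlinarith
theorem C2 : C ≤ C ^ 2 := by have := h.C1; nlinarith
theorem C3 : C ^ 2 ≤ C ^ 3 := by have := h.C1; nlinarith
theorem C4 : C ^ 3 ≤ C ^ 4 := by
  have := h.C1
  have : 0 ≤ C ^ 3 := by positivity
  nlinarith
theorem ΦC : 100 * C ≤ Φ := by have := h.C2; have := h.C3; have := h.C4; have := h.hΦ; linarith
theorem ΦC2 : 100 * C ^ 2 ≤ Φ := by have := h.C3; have := h.C4; have := h.hΦ; linarith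
theorem ΦC3 : 100 * C ^ 3 ≤ Φ := by have := h.C4; have := h.hΦ; linarith
theorem Φ1 : 100 ≤ Φ := by have := h.C1; have := h.ΦC; linarith
theorem Φ2 : Φ ≤ Φ ^ 2 := by have := h.Φ1; nlinarith
theorem Φ3 : Φ ≤ Φ ^ 3 := by have := h.Φ1; have := h.Φ2; nlinarith

end Cst

/-- the bounds on one bottom site -/
structure Bs (C t w θ μ ν : ℝ) : Prop where
  ht : |t| ≤ C
  hw : w ≤ C
  hθ : 1 ≤ C * θ
  hθw : 8 * θ ≤ w
  hμ : |μ| ≤ C
  hν : |ν| ≤ C

theorem Bs.θ_pos {K C Φ lam t w θ μ ν : ℝ} (h : Cst K C Φ lam) (b : Bs C t w θ μ ν) : 0 < θ := by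
  have := h.C1
  have := b.hθ
  by_contra hc
  push Not at hc
  nlinarith

theorem g_bound {K C Φ lam t w θ μ ν τ : ℝ} (h : Cst K C Φ lam) (b : Bs C t w θ μ ν)
    (hτ : 1 ≤ |τ|) : |ν + μ * τ| ≤ 2 * C * |τ| := by
  have h1 := b.hμ
  have h2 := b.hν
  have h3 := h.C1
  calc |ν + μ * τ| ≤ |ν| + |μ * τ| := abs_add_le _ _
    _ = |ν| + |μ| * |τ| := by rw [abs_mul]
    _ ≤ C + C * |τ| := by gcongr
    _ ≤ 2 * C * |τ| := by nlinarith

theorem lg_bound {K C Φ lam t w θ μ ν τ : ℝ} (h : Cst K C Φ lam) (b : Bs C t w θ μ ν)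
    (hτ : 1 ≤ |τ|) : |lam * (ν + μ * τ)| ≤ C * |τ| := by
  have h1 := g_bound h b hτ
  have h2 := h.lam_pos
  have h3 := h.lam_le
  rw [abs_mul, abs_of_pos h2]
  have := abs_nonneg (ν + μ * τ)
  nlinarith

theorem outer1 {K C Φ lam t w θ μ ν τ W d : ℝ} (h : Cst K C Φ lam) (b : Bs C t w θ μ ν)
    (hW : Φ ^ 3 ≤ W) (hs : SepR (Φ ^ 2) W Φ τ d) :
    SepR K (lam * w) (lam ^ 2 * θ) (τ - t) (d + lam * (ν + μ * τ)) := by
  obtain ⟨h1, h2, h3⟩ := hs
  have hC := h.C1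
  have hΦC := h.ΦC
  have hΦ3 := h.Φ3
  have hΦ1 := h.Φ1
  have hτ : 100 * C ≤ |τ| := by linarith
  have hg := lg_bound h b (τ := τ) (by linarith)
  have ht := abs_le.1 b.ht
  have hg' := abs_le.1 hg
  have hl := h.lam_pos
  have hl2 := h.lam_le
  have hθ := b.θ_pos h
  have hK := h.hK
  refine ⟨?_, fun hx => ?_, fun hx => ?_⟩
  · have : |τ| - |t| ≤ |τ - t| := abs_sub_abs_le_abs_sub _ _
    have := b.ht
    have hw := b.hw
    have hw0 : 0 ≤ w := by have := b.hθw; linarith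
    nlinarith
  · have hτ0 : τ < 0 := by
      by_contra hc
      push Not at hc
      rw [abs_of_nonneg hc] at hτ
      linarith
    rw [abs_of_neg hτ0] at hτ hg'
    have h4 := h2 hτ0
    obtain ⟨y, rfl⟩ : ∃ y, τ = -y := ⟨-τ, by ring⟩
    simp only [neg_neg] at *
    have hy : 100 ≤ y := by linarith
    have hd : Φ * y ^ 3 ≤ d := by
      have : Φ * (Φ * y ^ 3) ≤ Φ * d := by linarith
      exact le_of_mul_le_mul_left this (by linarith)
    have hy3 : y ≤ y ^ 3 := le_self_pow₀ (by linarith) (by norm_num)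
    have hd2 : Φ / 2 * y ^ 3 ≤ d + lam * (ν + μ * -y) := by nlinarith
    have hx3 : (-(-y - t)) ^ 3 ≤ (2 * y) ^ 3 := by
      apply pow_le_pow_left₀ <;> linarith
    have hy30 : 0 ≤ y ^ 3 := by positivity
    have e1 : 8 * K ≤ lam ^ 2 * θ * (Φ / 2) := by
      have k1 : 4 * K ^ 2 * lam ^ 2 = 1 := by have := h.hlam; nlinarith
      have k2 : K ^ 3 ≤ C ^ 3 := pow_le_pow_left₀ (by linarith) h.hKC 3
      have k3 : 100 * C ^ 4 * θ ≤ Φ * θ := mul_le_mul_of_nonneg_right h.hΦ hθ.le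
      have k4 : C ^ 3 ≤ C ^ 4 * θ := by
        have := b.hθ
        have : 0 ≤ C ^ 3 := by positivity
        nlinarith
      have k5 : 64 * K ^ 3 ≤ Φ * θ := by
        have : 0 ≤ K ^ 3 := by positivity
        nlinarith
      have k6 : lam ^ 2 * (64 * K ^ 3) ≤ lam ^ 2 * (Φ * θ) :=
        mul_le_mul_of_nonneg_left k5 (by positivity)
      have k7 : lam ^ 2 * (64 * K ^ 3) = 16 * K := by
        calc lam ^ 2 * (64 * K ^ 3) = 16 * K * (4 * K ^ 2 * lam ^ 2) := by ring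
          _ = 16 * K := by rw [k1]; ring
      linarith
    calc K * (-(-y - t)) ^ 3 ≤ K * (2 * y) ^ 3 := by gcongr
      _ = 8 * K * y ^ 3 := by ring
      _ ≤ lam ^ 2 * θ * (Φ / 2) * y ^ 3 := by gcongr
      _ = lam ^ 2 * θ * (Φ / 2 * y ^ 3) := by ring
      _ ≤ _ := by gcongr
  · have hτ0 : 0 < τ := by
      by_contra hc
      push Not at hc
      rw [abs_of_nonpos hc] at hτ
      linarith
    rw [abs_of_pos hτ0] at hτ hg' h1
    have h4 := h3 hτ0
    have hx2 : (τ / 2) ^ 2 ≤ (τ - t) ^ 2 := by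
      apply pow_le_pow_left₀ <;> linarith
    have hΦ2 := h.Φ2
    have hKC := h.hKC
    have k1 : -(K * d) ≤ τ ^ 2 / 8 := by
      by_cases hd : 0 ≤ d
      · have : 0 ≤ K * d := by positivity
        have : 0 ≤ τ ^ 2 := by positivity
        linarith
      · push Not at hd
        have : 8 * K ≤ Φ ^ 2 := by linarith
        nlinarith
    have k2 : K * (C * τ) ≤ τ ^ 2 / 8 := by
      have k3 : K * C ≤ C ^ 2 := by nlinarith
      have k4 := h.ΦC2
      have k5 : 8 * (K * C) ≤ τ := by nlinarith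
      nlinarith
    have k6 : -(K * (lam * (ν + μ * τ))) ≤ K * (C * τ) := by nlinarith
    nlinarith

theorem cast_left {K C Φ lam t w θ μ ν τ A D : ℝ} (h : Cst K C Φ lam) (b : Bs C t w θ μ ν)
    (hA : |A| ≤ 1) (hD0 : 0 ≤ D) (hD : D ≤ C) (hτ : τ ≤ -(2 * C)) :
    -(20 * C * (-τ) ^ 3) ≤ lam * (ν + μ * τ) + lam * (A - 1) * (τ - t) ^ 2 + lam * D * (τ - t) ^ 3
      - lam ^ 2 * θ * |τ - t| := by
  have hC := h.C1
  have hτ0 : τ < 0 := by linarith
  have hg := lg_bound h b (τ := τ) (by rw [abs_of_neg hτ0]; linarith)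
  have ht := abs_le.1 b.ht
  have hA' := abs_le.1 hA
  rw [abs_of_neg hτ0] at hg
  have hg' := abs_le.1 hg
  have hl := h.lam_pos
  have hl2 := h.lam_le
  have hθ := b.θ_pos h
  have hθC : θ ≤ C := by have := b.hθw; have := b.hw; linarith
  obtain ⟨y, rfl⟩ : ∃ y, τ = -y := ⟨-τ, by ring⟩
  simp only [neg_neg] at *
  have hy : 2 ≤ y := by linarith
  obtain ⟨x, hx⟩ : ∃ x, -y - t = -x := ⟨y + t, by ring⟩
  rw [hx]
  have hx0 : 0 ≤ x := by linarith
  have hx1 : x ≤ 2 * y := by linarith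
  rw [abs_neg, abs_of_nonneg hx0]
  have hx2 : x ^ 2 ≤ (2 * y) ^ 2 := pow_le_pow_left₀ hx0 hx1 2
  have hx3 : x ^ 3 ≤ (2 * y) ^ 3 := pow_le_pow_left₀ hx0 hx1 3
  have hy2 : y ≤ y ^ 2 := by nlinarith
  have hy3 : y ^ 2 ≤ y ^ 3 := by nlinarith
  have k1 : -(x ^ 2) ≤ lam * (A - 1) * (-x) ^ 2 := by
    have : -1 ≤ lam * (A - 1) := by nlinarith
    have : 0 ≤ x ^ 2 := by positivity
    nlinarith
  have k2 : -(C * x ^ 3) ≤ lam * D * (-x) ^ 3 := by
    have : lam * D ≤ C := by nlinarith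
    have : 0 ≤ x ^ 3 := by positivity
    nlinarith
  have k3 : lam ^ 2 * θ * x ≤ C * x := by
    have : lam ^ 2 ≤ 1 := by nlinarith
    have : lam ^ 2 * θ ≤ C := by nlinarith
    gcongr
  have k4 : C * y ≤ C * y ^ 3 := by gcongr; linarith
  have k5 : C * x ^ 3 ≤ C * (2 * y) ^ 3 := by gcongr
  have k6 : C * x ≤ C * (2 * y) := by gcongr
  have k7 : y ^ 3 ≤ C * y ^ 3 := by
    have : 0 ≤ y ^ 3 := by positivity
    nlinarith
  nlinarith

theorem cast_right {K C Φ lam t w θ μ ν τ A D : ℝ} (h : Cst K C Φ lam) (b : Bs C t w θ μ ν)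
    (hA : |A| ≤ 1) (hD : 1 ≤ C * D) (hτ : 48 * C ^ 2 ≤ τ) :
    lam * (4 * C * τ ^ 2) ≤ lam * (ν + μ * τ) + lam * (A - 1) * (τ - t) ^ 2
      + lam * D * (τ - t) ^ 3 - lam ^ 2 * θ * |τ - t| := by
  have hC := h.C1
  have hC2 := h.C2
  have hτ0 : 0 < τ := by linarith
  have hg := g_bound h b (τ := τ) (by rw [abs_of_pos hτ0]; linarith)
  have ht := abs_le.1 b.ht
  have hA' := abs_le.1 hA
  rw [abs_of_pos hτ0] at hg
  have hg' := abs_le.1 hg
  have hl := h.lam_pos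
  have hl2 := h.lam_le
  have hθ := b.θ_pos h
  have hθC : θ ≤ C := by have := b.hθw; have := b.hw; linarith
  obtain ⟨x, hx⟩ : ∃ x, τ - t = x := ⟨_, rfl⟩
  rw [hx]
  have hx0 : 47 * C ^ 2 ≤ x := by linarith
  have hx1 : τ ≤ 2 * x := by linarith
  have hx00 : 0 ≤ x := by linarith
  rw [abs_of_nonneg hx00]
  have hD0 : 0 < D := by
    by_contra hc
    push Not at hc
    nlinarith
  have k1 : 47 * C ≤ D * x := by
    have : D * (47 * C ^ 2) ≤ D * x := by gcongr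
    nlinarith
  have hxx : 0 ≤ x ^ 2 := by positivity
  have k2 : 47 * C * x ^ 2 ≤ D * x ^ 3 := by nlinarith
  have k3 : -(2 * x ^ 2) ≤ (A - 1) * x ^ 2 := by nlinarith
  have k4 : τ ^ 2 ≤ (2 * x) ^ 2 := pow_le_pow_left₀ hτ0.le hx1 2
  have k5 : x ≤ x ^ 2 := by nlinarith
  have k6 : lam * θ * x ≤ C * x ^ 2 := by
    have : lam * θ ≤ C := by nlinarith
    gcongr
  have k7 : C * τ ≤ C * (2 * x ^ 2) := by gcongr; linarith
  have k8 : C * τ ^ 2 ≤ C * (2 * x) ^ 2 := by gcongr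
  have k9 : x ^ 2 ≤ C * x ^ 2 := by nlinarith
  have k10 : 4 * C * τ ^ 2 ≤ (ν + μ * τ) + (A - 1) * x ^ 2 + D * x ^ 3 - lam * θ * x := by
    nlinarith
  have := mul_le_mul_of_nonneg_left k10 hl.le
  nlinarith

theorem outer2 {K C Φ lam t w θ μ ν τ W d A D : ℝ} (h : Cst K C Φ lam) (b : Bs C t w θ μ ν)
    (hW : Φ ^ 3 ≤ W) (hs : SepR (Φ ^ 2) W Φ τ d) (hA : |A| ≤ 1) (hD1 : 1 ≤ C * D) (hD : D ≤ C) :
    ValR (lam ^ 2 * θ) (lam * (A - 1)) (lam * D) (τ - t) (d + lam * (ν + μ * τ)) := by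
  obtain ⟨h1, h2, h3⟩ := hs
  have hC := h.C1
  have hΦC := h.ΦC
  have hΦC2 := h.ΦC2
  have hΦ3 := h.Φ3
  have hΦ2 := h.Φ2
  have hΦ1 := h.Φ1
  have hC2 := h.C2
  have hD0 : 0 ≤ D := by
    by_contra hc
    push Not at hc
    nlinarith
  unfold ValR
  rcases lt_trichotomy τ 0 with hτ | hτ | hτ
  · rw [abs_of_neg hτ] at h1
    have k1 := cast_left h b hA hD0 hD (τ := τ) (by linarith)
    have k2 := h2 hτ
    have hd : Φ * (-τ) ^ 3 ≤ d := by
      have : Φ * (Φ * (-τ) ^ 3) ≤ Φ * d := by linarith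
      exact le_of_mul_le_mul_left this (by linarith)
    have : 0 ≤ (-τ) ^ 3 := pow_nonneg (by linarith) 3
    nlinarith
  · subst hτ
    simp at h1
    linarith
  · rw [abs_of_pos hτ] at h1
    have k1 := cast_right h b hA hD1 (τ := τ) (by linarith)
    have k2 := h3 hτ
    have k3 := h.lamC
    have hτ2 : 0 ≤ τ ^ 2 := by positivity
    have k4 : -d ≤ τ ^ 2 := by
      by_cases hd : 0 ≤ d
      · linarith
      · push Not at hd
        nlinarith
    nlinarith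

theorem outer3 {K C Φ lam t w θ μ ν τ A E : ℝ} (h : Cst K C Φ lam) (b : Bs C t w θ μ ν)
    (hτ : 2 * C ≤ |τ|) (hA : Φ ^ 2 * |A| ≤ 1) (hE0 : 0 ≤ E) (hE : Φ ^ 2 * E ≤ 1) :
    |lam * (ν + μ * τ) + (A + 3 * E * t) * (τ - t) ^ 2 + E * (τ - t) ^ 3 - A * τ ^ 2 - E * τ ^ 3|
      + lam ^ 2 * θ * |τ - t| ≤ Φ * |τ| := by
  have hC := h.C1
  have hΦC := h.ΦC
  have hΦC2 := h.ΦC2
  have hΦ2 := h.Φ2
  have hΦ1 := h.Φ1
  have hC2 := h.C2
  have hg := lg_bound h b (τ := τ) (by linarith)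
  have ht := b.ht
  have hl := h.lam_pos
  have hl2 := h.lam_le
  have hθ := b.θ_pos h
  have hθC : θ ≤ C := by have := b.hθw; have := b.hw; linarith
  have hA0 := abs_nonneg A
  have hA1 : |A| ≤ 1 := by nlinarith
  have hE1 : C * E ≤ 1 := by nlinarith
  have ht0 := abs_nonneg t
  have e : lam * (ν + μ * τ) + (A + 3 * E * t) * (τ - t) ^ 2 + E * (τ - t) ^ 3 - A * τ ^ 2
      - E * τ ^ 3 = lam * (ν + μ * τ) + (-2 * A * t * τ + A * t * t)
        + (-3 * E * t * t * τ + 2 * E * t * t * t) := by ring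
  rw [e]
  have htτ : |t| ≤ |τ| := by linarith
  have k1 : |-2 * A * t * τ + A * t * t| ≤ 3 * C * |τ| := by
    calc _ ≤ |-2 * A * t * τ| + |A * t * t| := abs_add_le _ _
      _ = 2 * |A| * |t| * |τ| + |A| * |t| * |t| := by simp [abs_mul]
      _ ≤ 2 * 1 * C * |τ| + 1 * C * |τ| := by gcongr
      _ = _ := by ring
  have k2 : |-3 * E * t * t * τ + 2 * E * t * t * t| ≤ 5 * C * |τ| := by
    calc _ ≤ |-3 * E * t * t * τ| + |2 * E * t * t * t| := abs_add_le _ _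
      _ = 3 * E * |t| * |t| * |τ| + 2 * E * |t| * |t| * |t| := by
        simp [abs_mul, abs_of_nonneg hE0]
      _ ≤ 3 * E * C * C * |τ| + 2 * E * C * C * |τ| := by gcongr
      _ = 5 * (C * E) * C * |τ| := by ring
      _ ≤ 5 * 1 * C * |τ| := by gcongr
      _ = _ := by ring
  have k3 : lam ^ 2 * θ * |τ - t| ≤ C * (2 * |τ|) := by
    have : lam ^ 2 ≤ 1 := by nlinarith
    have : lam ^ 2 * θ ≤ C := by nlinarith
    have : |τ - t| ≤ 2 * |τ| := by
      have := abs_sub τ t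
      linarith
    gcongr
  have k4 := abs_add_three (lam * (ν + μ * τ)) (-2 * A * t * τ + A * t * t)
    (-3 * E * t * t * τ + 2 * E * t * t * t)
  have : 0 ≤ |τ| := abs_nonneg _
  nlinarith

theorem inner_sep {K lam KB w θ x d d' : ℝ} (hK : 1 ≤ K) (hlam : 2 * K * lam = 1)
    (hKB : 8 * K ^ 4 ≤ KB) (hθ : 0 < θ) (hw : 0 < w) (hs : SepR KB w θ x d)
    (hd : lam * (d + x ^ 2) ≤ d') :
    SepR K (lam * w) (lam ^ 2 * θ) x d' ∧ 7 / 8 * lam * x ^ 2 ≤ d' := by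
  obtain ⟨h1, h2, h3⟩ := hs
  have hl : 0 < lam := by
    by_contra hc
    push Not at hc
    nlinarith
  have hl2 : lam ≤ 1 / 2 := by nlinarith
  have hK4 : 1 ≤ K ^ 4 := one_le_pow₀ hK
  have hxx : 0 ≤ x ^ 2 := by positivity
  have key : -(x ^ 2 / 8) ≤ d := by
    rcases lt_trichotomy x 0 with hx | hx | hx
    · have k1 := h2 hx
      have k2 : 0 ≤ KB * (-x) ^ 3 := mul_nonneg (by linarith) (pow_nonneg (by linarith) 3)
      have : 0 ≤ d := by
        by_contra hc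
        push Not at hc
        nlinarith
      linarith
    · subst hx
      simp at h1
      linarith
    · have k1 := h3 hx
      by_cases hd0 : 0 ≤ d
      · linarith
      · push Not at hd0
        nlinarith
  have key2 : 7 / 8 * lam * x ^ 2 ≤ d' := by nlinarith
  refine ⟨⟨by nlinarith, fun hx => ?_, fun hx => ?_⟩, key2⟩
  · have k1 := h2 hx
    have k0 : 0 ≤ (-x) ^ 3 := pow_nonneg (by linarith) 3
    have k2 : lam * d ≤ d' := by nlinarith
    have k3 : lam ^ 3 * (8 * K ^ 4) = K := by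
      calc lam ^ 3 * (8 * K ^ 4) = K * (2 * K * lam) ^ 3 := by ring
        _ = K := by rw [hlam]; ring
    calc K * (-x) ^ 3 = lam ^ 3 * (8 * K ^ 4 * (-x) ^ 3) := by rw [← mul_assoc, k3]
      _ ≤ lam ^ 3 * (KB * (-x) ^ 3) := by gcongr
      _ ≤ lam ^ 3 * (θ * d) := by gcongr
      _ = lam ^ 2 * θ * (lam * d) := by ring
      _ ≤ _ := by gcongr
  · have : 0 ≤ d' := by
      have : 0 ≤ lam * x ^ 2 := by positivity
      linarith
    have : 0 ≤ K * d' := by positivity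
    linarith

theorem Alast_bound {K C Φ lam t A E : ℝ} (h : Cst K C Φ lam) (ht : |t| ≤ C)
    (hA : Φ ^ 2 * |A| ≤ 1) (hE0 : 0 ≤ E) (hE : Φ ^ 3 * E ≤ 1) :
    Φ ^ 2 * (|A + 3 * E * t| + 3 * C * E) ≤ 2 := by
  have hΦC := h.ΦC
  have hΦ1 := h.Φ1
  have hC := h.C1
  have k1 : |A + 3 * E * t| ≤ |A| + 3 * E * C := by
    calc _ ≤ |A| + |3 * E * t| := abs_add_le _ _
      _ = |A| + 3 * E * |t| := by simp [abs_mul, abs_of_nonneg hE0]
      _ ≤ _ := by gcongr
  have k2 : Φ ^ 2 * (6 * C * E) ≤ 1 := by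
    have : Φ ^ 2 * E * (6 * C) ≤ Φ ^ 2 * E * Φ := by gcongr; linarith
    nlinarith
  have : 0 ≤ Φ ^ 2 := by positivity
  nlinarith

theorem inner_last {K C Φ lam t w θ x d' A E : ℝ} (h : Cst K C Φ lam) (ht : |t| ≤ C)
    (hA : Φ ^ 2 * |A| ≤ 1) (hE0 : 0 ≤ E) (hE : Φ ^ 3 * E ≤ 1) (hθ : 0 < θ) (hθw : 8 * θ ≤ w)
    (hw : w ≤ |x|) (hx : |x| ≤ 3 * C) (hd : 7 / 8 * lam * x ^ 2 ≤ d') :
    ValR (lam ^ 2 * θ) (A + 3 * E * t) E x d' := by
  have k0 := Alast_bound h ht hA hE0 hE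
  have hl := h.lam_pos
  have hl2 := h.lam_le
  have hlC := h.lamC
  have hΦC := h.ΦC
  have hΦ2 := h.Φ2
  have hΦ1 := h.Φ1
  have hC := h.C1
  unfold ValR
  obtain ⟨a, ha⟩ : ∃ a, a = A + 3 * E * t := ⟨_, rfl⟩
  rw [← ha] at k0 ⊢
  have ha0 := abs_nonneg a
  have hx0 := abs_nonneg x
  have hxx : x ^ 2 = |x| ^ 2 := (sq_abs x).symm
  have k1 : -(|a| * x ^ 2) ≤ a * x ^ 2 := by
    have := neg_abs_le a
    have : 0 ≤ x ^ 2 := by positivity
    nlinarith
  have k2 : -(3 * C * E * x ^ 2) ≤ E * x ^ 3 := by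
    have := neg_abs_le x
    have k : 0 ≤ E * x ^ 2 := by positivity
    nlinarith
  have k3 : lam ^ 2 * θ * |x| ≤ lam / 16 * x ^ 2 := by
    have k : θ * |x| ≤ x ^ 2 / 8 := by rw [hxx]; nlinarith
    have k' : lam ^ 2 ≤ lam / 2 := by nlinarith
    calc lam ^ 2 * θ * |x| = lam ^ 2 * (θ * |x|) := by ring
      _ ≤ lam / 2 * (x ^ 2 / 8) := by gcongr
      _ = _ := by ring
  have k4 : |a| + 3 * C * E ≤ lam / 2 := by
    have k5 : 0 ≤ |a| + 3 * C * E := by positivity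
    have k6 : 100 * C * (|a| + 3 * C * E) ≤ 2 := by nlinarith
    nlinarith
  have : 0 ≤ x ^ 2 := by positivity
  nlinarith

theorem inner_cast {lam θ A D x d d' : ℝ} (hl : 0 < lam) (hl1 : lam ≤ 1) (hθ : 0 < θ)
    (hv : ValR θ A D x d) (hd : lam * (d + x ^ 2) ≤ d') :
    ValR (lam ^ 2 * θ) (lam * (A - 1)) (lam * D) x d' := by
  unfold ValR at *
  have k1 := mul_nonneg hl.le hv
  have k2 : lam ^ 2 * θ * |x| ≤ lam * θ * |x| := by
    have : lam ^ 2 ≤ lam := by nlinarith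
    gcongr
  nlinarith

/-- bounds at a descent point -/
structure Ds (C Φ lam U A E : ℝ) : Prop where
  hU : 48 * C ^ 2 ≤ U
  hA : Φ ^ 2 * |A| ≤ 1
  hE0 : 0 ≤ E
  hE : Φ ^ 3 * (E * U ^ 2) ≤ 1

theorem desc_err {K C Φ lam t w θ μ ν U A E : ℝ} (h : Cst K C Φ lam) (b : Bs C t w θ μ ν)
    (s : Ds C Φ lam U A E) :
    16 * C * |lam * (ν + μ * U) + (A + 3 * E * t) * (U - t) ^ 2 + E * (U - t) ^ 3
      - lam * μ * U - A * U ^ 2| ≤ lam * U := by
  have hC := h.C1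
  have hΦC := h.ΦC
  have hΦC2 := h.ΦC2
  have hΦC3 := h.ΦC3
  have hΦ2 := h.Φ2
  have hΦ3 := h.Φ3
  have hΦ1 := h.Φ1
  have hC2 := h.C2
  have hC3 := h.C3
  have ht := b.ht
  have hl := h.lam_pos
  have hl2 := h.lam_le
  have hlC := h.lamC
  have hA0 := abs_nonneg A
  have hU := s.hU
  have hE0 := s.hE0
  have hU0 : 0 < U := by linarith
  have ht0 := abs_nonneg t
  have e : lam * (ν + μ * U) + (A + 3 * E * t) * (U - t) ^ 2 + E * (U - t) ^ 3
      - lam * μ * U - A * U ^ 2 = lam * ν + (-2 * A * t * U + A * t * t)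
        + (E * U * U * U + (-3 * E * t * t * U + 2 * E * t * t * t)) := by ring
  rw [e]
  have htU : |t| ≤ U := by linarith
  have k1 : |-2 * A * t * U + A * t * t| ≤ 3 * |A| * C * U := by
    calc _ ≤ |-2 * A * t * U| + |A * t * t| := abs_add_le _ _
      _ = 2 * |A| * |t| * U + |A| * |t| * |t| := by simp [abs_mul, abs_of_pos hU0]
      _ ≤ 2 * |A| * C * U + |A| * C * U := by gcongr
      _ = _ := by ring
  have k2 : |E * U * U * U + (-3 * E * t * t * U + 2 * E * t * t * t)| ≤ 6 * (E * U ^ 2) * U := by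
    calc _ ≤ |E * U * U * U| + |-3 * E * t * t * U + 2 * E * t * t * t| := abs_add_le _ _
      _ ≤ |E * U * U * U| + (|-3 * E * t * t * U| + |2 * E * t * t * t|) := by
        gcongr; exact abs_add_le _ _
      _ = E * U * U * U + (3 * E * |t| * |t| * U + 2 * E * |t| * |t| * |t|) := by
        simp [abs_mul, abs_of_nonneg hE0, abs_of_pos hU0]
      _ ≤ E * U * U * U + (3 * E * U * U * U + 2 * E * U * U * U) := by gcongr
      _ = _ := by ring
  have k3 : |lam * ν| ≤ lam * C := by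
    rw [abs_mul, abs_of_pos hl]
    have := b.hν
    gcongr
  have k4 := abs_add_three (lam * ν) (-2 * A * t * U + A * t * t)
    (E * U * U * U + (-3 * E * t * t * U + 2 * E * t * t * t))
  have k5 : 16 * C * (lam * C) ≤ lam * U / 3 := by nlinarith
  have hΦ2' : 100 * Φ ≤ Φ ^ 2 := by nlinarith
  have k6 : 16 * C * (3 * |A| * C) ≤ lam / 3 := by
    have k7 : 10000 * C ^ 3 * |A| ≤ 1 := by
      have := s.hA
      have : 10000 * C ^ 3 * |A| ≤ Φ ^ 2 * |A| := by gcongr; linarith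
      linarith
    have k8 : 0 ≤ C ^ 2 * |A| := by positivity
    nlinarith
  have k9 : 16 * C * (6 * (E * U ^ 2)) ≤ lam / 3 := by
    have k8 : 0 ≤ E * U ^ 2 := by positivity
    have k7 : 10000 * C ^ 2 * (E * U ^ 2) ≤ 1 := by
      have := s.hE
      have : 10000 * C ^ 2 * (E * U ^ 2) ≤ Φ ^ 3 * (E * U ^ 2) := by gcongr; nlinarith
      linarith
    have k10 : 0 ≤ C * (E * U ^ 2) := by positivity
    nlinarith
  have k11 := mul_le_mul_of_nonneg_right k6 hU0.le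
  have k12 := mul_le_mul_of_nonneg_right k9 hU0.le
  have k13 : 16 * C * |lam * ν + (-2 * A * t * U + A * t * t)
      + (E * U * U * U + (-3 * E * t * t * U + 2 * E * t * t * t))|
      ≤ 16 * C * (lam * C + 3 * |A| * C * U + 6 * (E * U ^ 2) * U) := by gcongr; linarith
  nlinarith

end Pool.Agent.P.MP_10147b_co
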