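import Pool.Agent.P.MP_10147b_co.Scalar

namespace Pool.Agent.P.MP_10147b_co

/-- the normalised level at a descent point -/
noncomputable def dlev (lam t θ μ ν U A E : ℝ) : ℝ :=
  lam * (ν + μ * U) + (A + 3 * E * t) * (U - t) ^ 2 + E * (U - t) ^ 3 + lam ^ 2 * θ * |U - t|

theorem desc_theta {K C Φ lam t w θ μ ν U A E : ℝ} (h : Cst K C Φ lam) (b : Bs C t w θ μ ν)
    (s : Ds C Φ lam U A E) : lam ^ 2 * θ * |U - t| ≤ lam * w * U / 8 := by
  have hC := h.C1
  have hC2 := h.C2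
  have ht := abs_le.1 b.ht
  have hU := s.hU
  have hl := h.lam_pos
  have hl2 := h.lam_le
  have hθ := b.θ_pos h
  have hθw := b.hθw
  have k1 : |U - t| ≤ 2 * U := by
    rw [abs_of_nonneg (by linarith)]
    linarith
  have k2 : lam ^ 2 ≤ lam / 2 := by nlinarith
  have k3 : θ ≤ w / 8 := by linarith
  have hU0 : 0 ≤ U := by linarith
  have hw0 : 0 ≤ w := by linarith
  calc lam ^ 2 * θ * |U - t| ≤ lam / 2 * (w / 8) * (2 * U) := by gcongr
    _ = _ := by ring

theorem desc_level {K C Φ lam t w θ μ ν U A E : ℝ} (h : Cst K C Φ lam) (b : Bs C t w θ μ ν)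
    (s : Ds C Φ lam U A E) : dlev lam t θ μ ν U A E ≤ 3 * lam * C * U + |A| * U ^ 2 := by
  have k1 := desc_err h b s
  have k2 := desc_theta h b s
  have hC := h.C1
  have hC2 := h.C2
  have hU := s.hU
  have hU0 : 0 ≤ U := by linarith
  have hl := h.lam_pos
  unfold dlev
  obtain ⟨e, he⟩ : ∃ e, e = lam * (ν + μ * U) + (A + 3 * E * t) * (U - t) ^ 2 + E * (U - t) ^ 3
      - lam * μ * U - A * U ^ 2 := ⟨_, rfl⟩
  rw [← he] at k1
  have k0 : 0 ≤ lam * U := by positivity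
  have k3 : e ≤ lam * U := by
    have := le_abs_self e
    have := abs_nonneg e
    nlinarith
  have k4 : μ * (lam * U) ≤ C * (lam * U) := by
    have := (abs_le.1 b.hμ).2
    gcongr
  have k5 : A * U ^ 2 ≤ |A| * U ^ 2 := by
    have := le_abs_self A
    gcongr
  have k6 : w * (lam * U) ≤ C * (lam * U) := by
    have := b.hw
    gcongr
  have k7 : lam * U ≤ C * (lam * U) := by nlinarith
  nlinarith

theorem desc_sep {K C Φ lam t w θ μ ν U A L : ℝ} (h : Cst K C Φ lam) (b : Bs C t w θ μ ν)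
    (hU : 48 * C ^ 2 ≤ U) (hA : Φ ^ 2 * |A| ≤ 1) (hL : L ≤ 3 * lam * C * U + |A| * U ^ 2) :
    SepR K (lam * w) (lam ^ 2 * θ) (U - t) (lam * (ν + μ * U) - L) := by
  have hC := h.C1
  have hC2 := h.C2
  have ht := abs_le.1 b.ht
  have hl := h.lam_pos
  have hl2 := h.lam_le
  have hθ := b.θ_pos h
  have hθw := b.hθw
  have hw := b.hw
  have hU0 : 0 < U := by linarith
  have hK := h.hK
  refine ⟨?_, fun hx => by linarith, fun _ => ?_⟩
  · rw [abs_of_nonneg (by linarith)]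
    nlinarith
  · have hg := g_bound h b (τ := U) (by rw [abs_of_pos hU0]; linarith)
    rw [abs_of_pos hU0] at hg
    have hg' := (abs_le.1 hg).1
    have k1 : L - lam * (ν + μ * U) ≤ 5 * lam * C * U + |A| * U ^ 2 := by nlinarith
    have k2 : K * (L - lam * (ν + μ * U)) ≤ K * (5 * lam * C * U + |A| * U ^ 2) := by gcongr
    have k3 : K * (5 * lam * C * U) = 5 / 2 * C * U := by
      calc K * (5 * lam * C * U) = 5 / 2 * C * U * (2 * K * lam) := by ring
        _ = _ := by rw [h.hlam]; ring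
    have k4 : K * |A| ≤ 1 / 100 := by
      have := h.hKC
      have := h.ΦC
      have := h.Φ2
      have := abs_nonneg A
      nlinarith
    have k5 : (U / 2) ^ 2 ≤ (U - t) ^ 2 := by
      apply pow_le_pow_left₀ <;> linarith
    have k6 : 48 * C * U ≤ U ^ 2 := by nlinarith
    have k7 : K * |A| * U ^ 2 ≤ 1 / 100 * U ^ 2 := by gcongr
    nlinarith

theorem desc_cast {K C Φ lam t w θ μ ν U A L A' D : ℝ} (h : Cst K C Φ lam) (b : Bs C t w θ μ ν)
    (hU : 48 * C ^ 2 ≤ U) (hA : Φ ^ 2 * |A| ≤ 1) (hL : L ≤ 3 * lam * C * U + |A| * U ^ 2)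
    (hA' : |A'| ≤ 1) (hD : 1 ≤ C * D) :
    ValR (lam ^ 2 * θ) (lam * (A' - 1)) (lam * D) (U - t) (lam * (ν + μ * U) - L) := by
  have k1 := cast_right h b hA' hD hU
  have hC := h.C1
  have hC2 := h.C2
  have hl := h.lam_pos
  have hlC := h.lamC
  have k4 : |A| ≤ lam * C := by
    have := h.Φ1
    have := h.Φ2
    have := abs_nonneg A
    nlinarith
  have k5 : |A| * U ^ 2 ≤ lam * C * U ^ 2 := by gcongr
  have k6 : U ≤ U ^ 2 := by nlinarith
  have k7 : lam * C * U ≤ lam * C * U ^ 2 := by gcongr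
  unfold ValR
  nlinarith

theorem desc_lt {K C Φ lam t w θ μ ν U A E t' w' θ' μ' ν' A' E' α G : ℝ} (h : Cst K C Φ lam)
    (b : Bs C t w θ μ ν) (s : Ds C Φ lam U A E) (b' : Bs C t' w' θ' μ' ν')
    (s' : Ds C Φ lam U A' E') (hα : 4 * C * α * U = lam) (hA : A - A' ≤ α) (hG : G ≤ μ' - μ)
    (hw : w ≤ G) (hw' : w' ≤ G) :
    ValR (lam ^ 2 * θ') (A' + 3 * E' * t') E' (U - t')
      (lam * (ν' + μ' * U) - dlev lam t θ μ ν U A E) := by
  have k1 := desc_err h b s
  have k2 := desc_theta h b s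
  have k1' := desc_err h b' s'
  have k2' := desc_theta h b' s'
  have hC := h.C1
  have hC2 := h.C2
  have hU := s.hU
  have hU0 : 0 ≤ U := by linarith
  have hl := h.lam_pos
  have hθ := b.θ_pos h
  unfold ValR dlev
  obtain ⟨e, he⟩ : ∃ e, e = lam * (ν + μ * U) + (A + 3 * E * t) * (U - t) ^ 2 + E * (U - t) ^ 3
      - lam * μ * U - A * U ^ 2 := ⟨_, rfl⟩
  rw [← he] at k1
  obtain ⟨e', he'⟩ : ∃ e, e = lam * (ν' + μ' * U) + (A' + 3 * E' * t') * (U - t') ^ 2
      + E' * (U - t') ^ 3 - lam * μ' * U - A' * U ^ 2 := ⟨_, rfl⟩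
  rw [← he'] at k1'
  obtain ⟨P, hP⟩ : ∃ P, P = lam * U := ⟨_, rfl⟩
  have k0 : 0 ≤ P := by rw [hP]; positivity
  have hCG : 1 ≤ C * G := by
    have := b.hθ
    have := b.hθw
    nlinarith
  have hG0 : 0 ≤ G := by have := b.hθw; linarith
  have k3 : ∀ e : ℝ, 16 * C * |e| ≤ P → 16 * |e| ≤ G * P := by
    intro e he
    have := abs_nonneg e
    have k : G * (16 * C * |e|) ≤ G * P := by gcongr
    nlinarith
  have k4 := k3 e (by linarith)
  have k4' := k3 e' (by linarith)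
  have k5 : 4 * ((A - A') * U ^ 2) ≤ G * P := by
    have k6 : (A - A') * U ^ 2 ≤ α * U ^ 2 := by gcongr
    have k7 : 4 * C * (α * U ^ 2) = P := by rw [hP, ← hα]; ring
    have hα0 : 0 ≤ α * U ^ 2 := by
      by_contra hc
      push Not at hc
      nlinarith
    nlinarith
  have k8 : G * P ≤ (μ' - μ) * P := by gcongr
  have k9 : w * P ≤ G * P := by gcongr
  have k10 : w' * P ≤ G * P := by gcongr
  have := le_abs_self e
  have := neg_abs_le e'
  have e1 : lam * μ * U = μ * P := by rw [hP]; ring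
  have e2 : lam * μ' * U = μ' * P := by rw [hP]; ring
  have e3 : lam * w * U = w * P := by rw [hP]; ring
  have e4 : lam * w' * U = w' * P := by rw [hP]; ring
  have : 0 ≤ G * P := by positivity
  nlinarith

theorem desc_gt {K C Φ lam t w θ μ ν U A E t' w' θ' μ' ν' A' E' α : ℝ} (h : Cst K C Φ lam)
    (b : Bs C t w θ μ ν) (s : Ds C Φ lam U A E) (b' : Bs C t' w' θ' μ' ν')
    (s' : Ds C Φ lam U A' E') (hα : 4 * C * α * U = lam) (hA : Φ ^ 2 * α ≤ A' - A) :
    ValR (lam ^ 2 * θ') (A' + 3 * E' * t') E' (U - t')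
      (lam * (ν' + μ' * U) - dlev lam t θ μ ν U A E) := by
  have k1 := desc_err h b s
  have k2 := desc_theta h b s
  have k1' := desc_err h b' s'
  have k2' := desc_theta h b' s'
  have hC := h.C1
  have hC2 := h.C2
  have hU := s.hU
  have hU0 : 0 ≤ U := by linarith
  have hl := h.lam_pos
  have hθ := b.θ_pos h
  unfold ValR dlev
  obtain ⟨e, he⟩ : ∃ e, e = lam * (ν + μ * U) + (A + 3 * E * t) * (U - t) ^ 2 + E * (U - t) ^ 3
      - lam * μ * U - A * U ^ 2 := ⟨_, rfl⟩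
  rw [← he] at k1
  obtain ⟨e', he'⟩ : ∃ e, e = lam * (ν' + μ' * U) + (A' + 3 * E' * t') * (U - t') ^ 2
      + E' * (U - t') ^ 3 - lam * μ' * U - A' * U ^ 2 := ⟨_, rfl⟩
  rw [← he'] at k1'
  obtain ⟨P, hP⟩ : ∃ P, P = lam * U := ⟨_, rfl⟩
  have k0 : 0 ≤ P := by rw [hP]; positivity
  have k3 : ∀ e : ℝ, 16 * C * |e| ≤ P → |e| ≤ P := by
    intro e he
    have := abs_nonneg e
    nlinarith
  have k4 := k3 e (by linarith)
  have k4' := k3 e' (by linarith)
  have k5 : 25 * C * P ≤ (A' - A) * U ^ 2 := by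
    have k6 : Φ ^ 2 * α * U ^ 2 ≤ (A' - A) * U ^ 2 := by gcongr
    have k7 : 4 * C * (α * U ^ 2) = P := by rw [hP, ← hα]; ring
    have hα0 : 0 ≤ α * U ^ 2 := by
      by_contra hc
      push Not at hc
      nlinarith
    have k8 : 100 * C ^ 2 * (α * U ^ 2) ≤ Φ ^ 2 * (α * U ^ 2) := by
      have := h.ΦC2
      have := h.Φ2
      gcongr
      linarith
    nlinarith
  have k8 : μ * P ≤ C * P := by have := (abs_le.1 b.hμ).2; gcongr
  have k8' : -C * P ≤ μ' * P := by have := (abs_le.1 b'.hμ).1; gcongr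
  have k9 : w * P ≤ C * P := by have := b.hw; gcongr
  have k10 : w' * P ≤ C * P := by have := b'.hw; gcongr
  have := le_abs_self e
  have := neg_abs_le e'
  have e1 : lam * μ * U = μ * P := by rw [hP]; ring
  have e2 : lam * μ' * U = μ' * P := by rw [hP]; ring
  have e3 : lam * w * U = w * P := by rw [hP]; ring
  have e4 : lam * w' * U = w' * P := by rw [hP]; ring
  have : P ≤ C * P := by nlinarith
  nlinarith

theorem desc_dom {K C Φ lam U A L W : ℝ} (h : Cst K C Φ lam) (hU0 : 0 ≤ U) (hU : U ≤ W)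
    (hW : Φ ^ 3 ≤ W) (hA : Φ ^ 2 * |A| ≤ 1) (hL : L ≤ 3 * lam * C * U + |A| * U ^ 2) :
    L ≤ W ^ 2 := by
  have hC := h.C1
  have hl := h.lam_pos
  have hl2 := h.lam_le
  have := h.ΦC
  have := h.Φ1
  have := h.Φ2
  have := h.Φ3
  have hA0 := abs_nonneg A
  have k1 : |A| ≤ 1 / 2 := by nlinarith
  have k2 : |A| * U ^ 2 ≤ 1 / 2 * W ^ 2 := by gcongr
  have k3 : 3 * lam * C ≤ W / 2 := by nlinarith
  have k4 : 3 * lam * C * U ≤ W / 2 * W := by
    have : 0 ≤ W / 2 := by linarith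
    gcongr
  nlinarith

end Pool.Agent.P.MP_10147b_co
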