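import Pool.Agent.P.MP_10147b_co.Config

namespace Pool.Agent.P.MP_10147b_co

/-- the data of one step: a bottom configuration, a top configuration and constants -/
structure StepD (S JB JT : Type) (n m : ℕ) where
  B : Cfg (Fin (n + 1)) JB m
  T : Cfg S JT (n + 1)
  K : ℝ
  C : ℝ
  Φ : ℝ
  lam : ℝ

namespace StepD
variable {S JB JT : Type} {n m : ℕ} (d : StepD S JB JT n m)

noncomputable def eps (r : S) : ℝ := d.T.θ r / d.Φ
def mu (l : Fin (n + 1)) : ℝ := d.B.sl l - 2 * d.B.X l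
def nu (l : Fin (n + 1)) : ℝ := d.B.v l - d.B.sl l * d.B.X l + d.B.X l ^ 2
noncomputable def al (r : S) (l : Fin (n + 1)) : ℝ := d.T.A r l - d.T.A r 0 + d.T.θ r / d.T.w r
noncomputable def U (r : S) (l : Fin (n + 1)) : ℝ := d.lam / (4 * d.C * d.al r l)
noncomputable def E (r : S) (l : Fin (n + 1)) : ℝ := d.T.D r l * d.eps r
noncomputable def W (r : S) : ℝ := d.T.w r / d.eps r

def idx (i : Fin n) : Bool → Fin (n + 1)
  | false => i.succ
  | true => i.castSucc

noncomputable def gp (r : S) : JB ⊕ Fin n → Bool → ℝ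
  | .inl j, b => d.B.p j b
  | .inr i, b => d.U r (idx i b)

def gown : JB ⊕ Fin n → Bool → Fin (n + 1) × Fin (m + 1)
  | .inl j, b => ((d.B.own j b).1, (d.B.own j b).2.castSucc)
  | .inr i, b => (idx i b, Fin.last m)

noncomputable def nA (r : S) (l : Fin (n + 1)) : Fin (m + 1) → ℝ :=
  Fin.lastCases (d.T.A r l + 3 * d.E r l * d.B.X l) (fun t => d.lam * (d.B.A l t - 1))

noncomputable def nE (r : S) (l : Fin (n + 1)) : Fin (m + 1) → ℝ :=
  Fin.lastCases (d.E r l) (fun t => d.lam * d.B.D l t)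

noncomputable def pt (r : S) (τ : ℝ) : ℝ := d.T.X r + d.eps r * τ

/-- the new configuration -/
noncomputable def N : Cfg (S × Fin (n + 1)) (JT ⊕ S × (JB ⊕ Fin n)) (m + 1) where
  X s := d.pt s.1 (d.B.X s.2)
  v s := d.T.line s.1 (d.pt s.1 (d.B.X s.2))
    + d.eps s.1 ^ 2 * (d.lam * (d.nu s.2 + d.mu s.2 * d.B.X s.2))
  sl s := d.T.sl s.1 + d.lam * d.eps s.1 * d.mu s.2
  w s := d.eps s.1 * (d.lam * d.B.w s.2)
  θ s := d.eps s.1 * (d.lam ^ 2 * d.B.θ s.2)
  A s := d.nA s.1 s.2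
  D s t := d.nE s.1 s.2 t / d.eps s.1
  p j b := match j with
    | .inl j => d.T.p j b
    | .inr (r, g) => d.pt r (d.gp r g b)
  own j b := match j with
    | .inl j => (d.T.own j b, Fin.last m)
    | .inr (r, g) => ((r, (d.gown g b).1), (d.gown g b).2)

/-- hypotheses of one step -/
structure OK : Prop where
  h : Cst d.K d.C d.Φ d.lam
  gB : Good (8 * d.K ^ 4) d.B
  gT : Good (d.Φ ^ 2) d.T
  mono : StrictMono d.B.X
  bs : ∀ l, Bs d.C (d.B.X l) (d.B.w l) (d.B.θ l) (d.mu l) (d.nu l)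
  hD1 : ∀ l t, 1 ≤ d.C * d.B.D l t
  hD2 : ∀ l t, d.B.D l t ≤ d.C
  hp : ∀ j b, |d.B.p j b| ≤ d.C
  hlv : ∀ j b, d.B.lv j b ≤ d.C

theorem N_off (r : S) (l : Fin (n + 1)) (τ : ℝ) :
    d.pt r τ - d.N.X (r, l) = d.eps r * (τ - d.B.X l) := by
  simp only [N, pt]; ring

theorem N_line (r : S) (l : Fin (n + 1)) (τ : ℝ) :
    d.N.line (r, l) (d.pt r τ)
      = d.T.line r (d.pt r τ) + d.eps r ^ 2 * (d.lam * (d.nu l + d.mu l * τ)) := by
  simp only [N, pt, Cfg.line]; ring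

theorem B_line (l : Fin (n + 1)) (τ : ℝ) :
    d.nu l + d.mu l * τ = d.B.line l τ - τ ^ 2 + (τ - d.B.X l) ^ 2 := by
  simp only [nu, mu, Cfg.line]; ring

namespace OK
variable {d} (o : d.OK)
include o

theorem hKB : 1 ≤ 8 * d.K ^ 4 := by
  have : 1 ≤ d.K ^ 4 := one_le_pow₀ o.h.hK
  linarith

theorem hKT : 1 ≤ d.Φ ^ 2 := by have := o.h.Φ1; have := o.h.Φ2; linarith

theorem Φpos : 0 < d.Φ := by have := o.h.Φ1; linarith

theorem epos (r : S) : 0 < d.eps r := div_pos (o.gT.θpos r) o.Φpos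

theorem θe (r : S) : d.T.θ r / d.eps r = d.Φ := by
  have := o.gT.θpos r
  have := o.Φpos
  unfold eps
  field_simp

theorem θe' (r : S) : d.T.θ r = d.eps r * d.Φ := by
  have := o.Φpos
  unfold eps
  field_simp

theorem we (r : S) : d.T.w r = d.eps r * d.W r := by
  have := o.epos r
  unfold W
  field_simp

theorem hW (r : S) : d.Φ ^ 3 ≤ d.W r := by
  have k := o.gT.θw r
  rw [o.θe', o.we] at k
  have : d.eps r * d.Φ ^ 3 ≤ d.eps r * d.W r := by linarith
  exact le_of_mul_le_mul_left this (o.epos r)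

theorem E0 (r : S) (l : Fin (n + 1)) : 0 ≤ d.E r l := (mul_pos (o.gT.Dpos r l) (o.epos r)).le

theorem hEW (r : S) (l : Fin (n + 1)) : d.Φ * (d.E r l * d.W r ^ 2) ≤ 1 := by
  have k := o.gT.Db r l
  rw [o.θe', o.we] at k
  have : d.eps r * d.Φ * (d.Φ * (d.E r l * d.W r ^ 2)) ≤ d.eps r * d.Φ * 1 := by
    unfold E
    nlinarith
  exact le_of_mul_le_mul_left this (mul_pos (o.epos r) o.Φpos)

theorem hE3 (r : S) (l : Fin (n + 1)) : d.Φ ^ 3 * d.E r l ≤ 1 := by
  have k1 := o.hEW r l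
  have k2 := o.hW r
  have k3 := o.h.Φ3
  have k4 := o.Φpos
  have k5 := o.E0 r l
  have k6 : d.Φ ^ 2 ≤ d.W r ^ 2 := by
    apply pow_le_pow_left₀ <;> linarith
  have : d.Φ * (d.E r l * d.Φ ^ 2) ≤ d.Φ * (d.E r l * d.W r ^ 2) := by gcongr
  nlinarith

theorem hE2 (r : S) (l : Fin (n + 1)) : d.Φ ^ 2 * d.E r l ≤ 1 := by
  have k1 := o.hE3 r l
  have k2 := o.h.Φ1
  have k5 := o.E0 r l
  have : 0 ≤ d.Φ ^ 2 * d.E r l := by positivity
  nlinarith

theorem exists_pt (r : S) (z : ℝ) : ∃ τ, z = d.pt r τ := by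
  have := o.epos r
  exact ⟨(z - d.T.X r) / d.eps r, by unfold pt; field_simp; ring⟩

theorem exists_lev (r : S) (z lev : ℝ) : ∃ a, lev = d.T.line r z - d.eps r ^ 2 * a := by
  have := o.epos r
  exact ⟨(d.T.line r z - lev) / d.eps r ^ 2, by field_simp; ring⟩

theorem newSep {r : S} {l : Fin (n + 1)} {τ a : ℝ}
    (h : SepR d.K (d.lam * d.B.w l) (d.lam ^ 2 * d.B.θ l) (τ - d.B.X l)
      (a + d.lam * (d.nu l + d.mu l * τ))) :
    d.N.Sep d.K (r, l) (d.pt r τ) (d.T.line r (d.pt r τ) - d.eps r ^ 2 * a) := by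
  have := h.scale (o.epos r)
  unfold Cfg.Sep
  rw [N_off, N_line]
  convert this using 1 <;> first | rfl | ring

theorem newVal {r : S} {l : Fin (n + 1)} {t : Fin (m + 1)} {τ a : ℝ}
    (h : ValR (d.lam ^ 2 * d.B.θ l) (d.nA r l t) (d.nE r l t) (τ - d.B.X l)
      (a + d.lam * (d.nu l + d.mu l * τ))) :
    d.N.Val (r, l) t (d.pt r τ) (d.T.line r (d.pt r τ) - d.eps r ^ 2 * a) := by
  have := h.scale (o.epos r)
  unfold Cfg.Val
  rw [N_off, N_line]
  convert this using 1 <;> first | rfl | ring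

theorem newTop (r : S) (l : Fin (n + 1)) (t : Fin (m + 1)) (τ : ℝ) :
    d.N.top (r, l) t (d.pt r τ) = d.T.line r (d.pt r τ) - d.eps r ^ 2 *
      -(d.lam * (d.nu l + d.mu l * τ) + d.nA r l t * (τ - d.B.X l) ^ 2
        + d.nE r l t * (τ - d.B.X l) ^ 3 + d.lam ^ 2 * d.B.θ l * |τ - d.B.X l|) := by
  have he := o.epos r
  unfold Cfg.top Cfg.f
  rw [N_off, N_line, abs_mul, abs_of_pos he]
  simp only [N]
  field_simp
  ring

theorem oldSep {r : S} {τ a : ℝ}
    (h : d.T.Sep (d.Φ ^ 2) r (d.pt r τ) (d.T.line r (d.pt r τ) - d.eps r ^ 2 * a)) :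
    SepR (d.Φ ^ 2) (d.W r) d.Φ τ a := by
  have he := o.epos r
  have := SepR.unscale he h
  rw [o.θe] at this
  convert this using 1
  · rfl
  · unfold pt; field_simp; ring
  · field_simp; ring

theorem oldVal {r : S} {l : Fin (n + 1)} {τ a : ℝ}
    (h : d.T.Val r l (d.pt r τ) (d.T.line r (d.pt r τ) - d.eps r ^ 2 * a)) :
    ValR d.Φ (d.T.A r l) (d.E r l) τ a := by
  have he := o.epos r
  have := ValR.unscale he h
  rw [o.θe] at this
  convert this using 1
  · rfl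
  · unfold pt; field_simp; ring
  · field_simp; ring

theorem BA1 (l : Fin (n + 1)) (t : Fin m) : |d.B.A l t| ≤ 1 := by
  have := o.gB.Ab l t
  have := o.hKB
  have := abs_nonneg (d.B.A l t)
  nlinarith

theorem CW (r : S) : 2 * d.C ≤ d.W r := by
  have := o.hW r
  have := o.h.ΦC
  have := o.h.Φ3
  have := o.h.C1
  linarith

theorem Nθ (s : S × Fin (n + 1)) : 0 < d.N.θ s := by
  have := o.epos s.1
  have := o.h.lam_pos
  have := o.gB.θpos s.2
  simp only [N]
  positivity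

theorem outer {r : S} {z lev lev' : ℝ} (hs : d.T.Sep (d.Φ ^ 2) r z lev) (hl : lev' ≤ lev)
    (l : Fin (n + 1)) :
    d.N.Sep d.K (r, l) z lev' ∧ (∀ t : Fin m, d.N.Val (r, l) t.castSucc z lev') ∧
      (d.T.Val r l z lev → d.N.Val (r, l) (Fin.last m) z lev') := by
  obtain ⟨τ, rfl⟩ := o.exists_pt r z
  obtain ⟨a, rfl⟩ := o.exists_lev r (d.pt r τ) lev
  have hs' := o.oldSep hs
  refine ⟨?_, fun t => ?_, fun hv => ?_⟩
  · exact (o.newSep (outer1 o.h (o.bs l) (o.hW r) hs')).mono (by have := o.h.hK; linarith)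
      (o.Nθ _).le (by linarith)
  · refine (o.newVal (t := t.castSucc) (a := a) ?_).mono (by linarith)
    simp only [nA, nE, Fin.lastCases_castSucc]
    exact outer2 o.h (o.bs l) (o.hW r) hs' (o.BA1 l t) (o.hD1 l t) (o.hD2 l t)
  · refine (o.newVal (t := Fin.last m) (a := a) ?_).mono (by linarith)
    simp only [nA, nE, Fin.lastCases_last]
    have k1 := o.oldVal hv
    have k2 := outer3 o.h (o.bs l) ((o.CW r).trans hs'.1) (o.gT.Ab r l) (o.E0 r l) (o.hE2 r l)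
    unfold ValR at *
    have := neg_abs_le (d.lam * (d.nu l + d.mu l * τ)
      + (d.T.A r l + 3 * d.E r l * d.B.X l) * (τ - d.B.X l) ^ 2 + d.E r l * (τ - d.B.X l) ^ 3
      - d.T.A r l * τ ^ 2 - d.E r l * τ ^ 3)
    linarith

theorem old_top {r : S} {l : Fin (n + 1)} {z : ℝ} (hz : d.T.w r ≤ |z - d.T.X r|) :
    d.N.top (r, l) (Fin.last m) z ≤ d.T.top r l z := by
  obtain ⟨τ, rfl⟩ := o.exists_pt r z
  have he := o.epos r
  rw [o.newTop]
  have e1 : d.pt r τ - d.T.X r = d.eps r * τ := by unfold pt; ring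
  rw [e1, abs_mul, abs_of_pos he, o.we] at hz
  have hτ := le_of_mul_le_mul_left hz he
  have k2 := outer3 o.h (o.bs l) ((o.CW r).trans hτ) (o.gT.Ab r l) (o.E0 r l) (o.hE2 r l)
  simp only [nA, nE, Fin.lastCases_last]
  unfold Cfg.top Cfg.f
  rw [e1, abs_mul, abs_of_pos he, o.θe']
  have := le_abs_self (d.lam * (d.nu l + d.mu l * τ)
      + (d.T.A r l + 3 * d.E r l * d.B.X l) * (τ - d.B.X l) ^ 2 + d.E r l * (τ - d.B.X l) ^ 3
      - d.T.A r l * τ ^ 2 - d.E r l * τ ^ 3)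
  have k3 : d.lam * (d.nu l + d.mu l * τ)
      + (d.T.A r l + 3 * d.E r l * d.B.X l) * (τ - d.B.X l) ^ 2 + d.E r l * (τ - d.B.X l) ^ 3
      + d.lam ^ 2 * d.B.θ l * |τ - d.B.X l|
      ≤ d.T.A r l * τ ^ 2 + d.E r l * τ ^ 3 + d.Φ * |τ| := by linarith
  have k4 := mul_le_mul_of_nonneg_left k3 (pow_pos he 2).le
  have e2 : d.T.D r l * (d.eps r * τ) ^ 3 = d.eps r ^ 2 * (d.E r l * τ ^ 3) := by
    unfold E; ring
  rw [e2]
  nlinarith

theorem dom {r r0 : S} (hr : r ≠ r0) {τ a : ℝ} (hτ : |τ| ≤ d.W r0) (ha : -a ≤ d.W r0 ^ 2)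
    (l : Fin (n + 1)) :
    d.N.Sep d.K (r, l) (d.pt r0 τ) (d.T.line r0 (d.pt r0 τ) - d.eps r0 ^ 2 * a) ∧
      ∀ t, d.N.Val (r, l) t (d.pt r0 τ) (d.T.line r0 (d.pt r0 τ) - d.eps r0 ^ 2 * a) := by
  have he := o.epos r0
  have hz : |d.pt r0 τ - d.T.X r0| ≤ d.T.w r0 := by
    rw [show d.pt r0 τ - d.T.X r0 = d.eps r0 * τ by unfold pt; ring, abs_mul, abs_of_pos he, o.we]
    gcongr
  have hl : d.T.line r0 (d.pt r0 τ) - d.eps r0 ^ 2 * a
      ≤ d.T.line r0 (d.pt r0 τ) + d.T.w r0 ^ 2 := by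
    rw [o.we]
    have := mul_le_mul_of_nonneg_left ha (pow_pos he 2).le
    nlinarith
  obtain ⟨k1, k2, k3⟩ := o.outer (o.gT.N1 r r0 _ hr hz) hl l
  refine ⟨k1, fun t => ?_⟩
  induction t using Fin.lastCases with
  | last => exact k3 (o.gT.N2 r l r0 _ hr hz)
  | cast t => exact k2 t

theorem inner (r : S) {l : Fin (n + 1)} {τ a lev : ℝ} (hτ : |τ| ≤ 2 * d.C)
    (hs : d.B.Sep (8 * d.K ^ 4) l τ lev) (ha : -a ≤ d.lam * (lev - τ ^ 2)) :
    d.N.Sep d.K (r, l) (d.pt r τ) (d.T.line r (d.pt r τ) - d.eps r ^ 2 * a) ∧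
      d.N.Val (r, l) (Fin.last m) (d.pt r τ) (d.T.line r (d.pt r τ) - d.eps r ^ 2 * a) ∧
      ∀ t, d.B.Val l t τ lev →
        d.N.Val (r, l) t.castSucc (d.pt r τ) (d.T.line r (d.pt r τ) - d.eps r ^ 2 * a) := by
  have hd : d.lam * (d.B.line l τ - lev + (τ - d.B.X l) ^ 2)
      ≤ a + d.lam * (d.nu l + d.mu l * τ) := by
    rw [B_line]
    nlinarith
  obtain ⟨k1, k2⟩ := inner_sep o.h.hK o.h.hlam le_rfl (o.gB.θpos l) (o.gB.wpos o.hKB l) hs hd
  refine ⟨o.newSep k1, o.newVal ?_, fun t hv => o.newVal ?_⟩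
  · simp only [nA, nE, Fin.lastCases_last]
    refine inner_last o.h (o.bs l).ht (o.gT.Ab r l) (o.E0 r l) (o.hE3 r l) (o.gB.θpos l)
      (o.bs l).hθw hs.1 ?_ k2
    have := abs_sub τ (d.B.X l)
    have := (o.bs l).ht
    linarith
  · simp only [nA, nE, Fin.lastCases_castSucc]
    exact inner_cast o.h.lam_pos (by have := o.h.lam_le; linarith) (o.gB.θpos l) hv hd

theorem al_ge (r : S) (l : Fin (n + 1)) : d.Φ ≤ d.al r l * d.W r := by
  have k1 := o.gT.A_le o.hKT r (Fin.zero_le l)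
  have he := o.epos r
  have hW : 0 < d.W r := by have := o.CW r; have := o.h.C1; linarith
  have e : d.T.θ r / d.T.w r * d.W r = d.Φ := by
    rw [o.θe', o.we]; field_simp
  unfold al
  nlinarith

theorem al_pos (r : S) (l : Fin (n + 1)) : 0 < d.al r l := by
  have k1 := o.al_ge r l
  have hW : 0 < d.W r := by have := o.CW r; have := o.h.C1; linarith
  have := o.Φpos
  by_contra hc
  push Not at hc
  nlinarith

theorem al_le (r : S) (l : Fin (n + 1)) : d.Φ ^ 2 * d.al r l ≤ 3 := by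
  have k1 := o.gT.Ab r l
  have k2 := o.gT.Ab r 0
  have k3 := o.gT.θw r
  have k4 := o.gT.wpos o.hKT r
  have k5 : d.Φ ^ 2 * (d.T.θ r / d.T.w r) ≤ 1 := by
    rw [← mul_div_assoc, div_le_one k4]; exact k3
  have k6 : 0 ≤ d.Φ ^ 2 := by positivity
  have := mul_le_mul_of_nonneg_left (le_abs_self (d.T.A r l)) k6
  have := mul_le_mul_of_nonneg_left (neg_abs_le (d.T.A r 0)) k6
  unfold al
  nlinarith

theorem U_eq (r : S) (l : Fin (n + 1)) : 4 * d.C * d.al r l * d.U r l = d.lam := by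
  have := o.al_pos r l
  have := o.h.C1
  unfold U
  field_simp

theorem U_pos (r : S) (l : Fin (n + 1)) : 0 < d.U r l := by
  have := o.al_pos r l
  have := o.h.C1
  have := o.h.lam_pos
  unfold U
  positivity

theorem U_ge (r : S) (l : Fin (n + 1)) : 48 * d.C ^ 2 ≤ d.U r l := by
  have k1 := o.U_eq r l
  have k2 := o.al_le r l
  have k3 := o.U_pos r l
  have k4 := o.h.lamC
  have k5 := o.h.C1
  have k6 := o.h.hΦ
  have k7 := o.h.Φ1
  have k8 : d.Φ ^ 2 * d.lam ≤ 12 * d.C * d.U r l := by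
    rw [← k1]
    have : 0 ≤ d.C * d.U r l := by positivity
    nlinarith
  have k9 : d.Φ ^ 2 ≤ 24 * d.C ^ 2 * d.U r l := by
    have : 0 ≤ d.Φ ^ 2 := by positivity
    nlinarith
  have k10 : 10000 * d.C ^ 4 ≤ d.Φ ^ 2 := by nlinarith
  have k11 : d.C ^ 2 * (48 * d.C ^ 2) ≤ d.C ^ 2 * d.U r l := by
    have : 0 ≤ d.C ^ 4 := by positivity
    nlinarith
  exact le_of_mul_le_mul_left k11 (by positivity)

theorem U_le (r : S) (l : Fin (n + 1)) : d.Φ * d.U r l ≤ d.W r := by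
  have k1 := o.U_eq r l
  have k2 := o.al_ge r l
  have k3 := o.U_pos r l
  have k4 := o.h.lam_le
  have k5 := o.h.C1
  have k6 := o.al_pos r l
  have hW : 0 < d.W r := by have := o.CW r; linarith
  have k7 : d.al r l * d.U r l ≤ 1 := by
    have : 0 ≤ d.al r l * d.U r l := by positivity
    nlinarith
  nlinarith

theorem U_lt_W (r : S) (l : Fin (n + 1)) : d.U r l < d.W r := by
  have := o.U_le r l
  have := o.U_pos r l
  have := o.h.Φ1
  nlinarith

theorem U_anti (r : S) {l l' : Fin (n + 1)} (h : l < l') : d.U r l' < d.U r l := by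
  have k1 := o.gT.A_lt o.hKT r h
  have := o.al_pos r l
  have := o.h.C1
  have := o.h.lam_pos
  unfold U
  apply div_lt_div_of_pos_left (by assumption) (by positivity)
  have : d.al r l < d.al r l' := by unfold al; linarith
  gcongr

theorem ds (r : S) (l l' : Fin (n + 1)) :
    Ds d.C d.Φ d.lam (d.U r l) (d.T.A r l') (d.E r l') := by
  refine ⟨o.U_ge r l, o.gT.Ab r l', o.E0 r l', ?_⟩
  have k1 := o.hEW r l'
  have k2 := o.U_le r l
  have k3 := o.U_pos r l
  have k4 := o.Φpos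
  have k5 := o.E0 r l'
  have k6 : (d.Φ * d.U r l) ^ 2 ≤ d.W r ^ 2 := by
    apply pow_le_pow_left₀ _ k2
    positivity
  have : d.Φ * (d.E r l' * (d.Φ * d.U r l) ^ 2) ≤ d.Φ * (d.E r l' * d.W r ^ 2) := by gcongr
  nlinarith

theorem descent (r : S) (l l' : Fin (n + 1)) :
    d.N.Sep d.K (r, l') (d.pt r (d.U r l)) (d.N.top (r, l) (Fin.last m) (d.pt r (d.U r l))) ∧
    ∀ t, (l', t) ≠ (l, Fin.last m) → d.N.Val (r, l') t (d.pt r (d.U r l))
      (d.N.top (r, l) (Fin.last m) (d.pt r (d.U r l))) := by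
  rw [o.newTop]
  simp only [nA, nE, Fin.lastCases_last]
  have hL := desc_level o.h (o.bs l) (o.ds r l l)
  have e : ∀ x y : ℝ, -x + y = y - x := fun x y => by ring
  refine ⟨o.newSep ?_, fun t ht => o.newVal ?_⟩
  · rw [e]
    exact desc_sep o.h (o.bs l') (o.U_ge r l) (o.gT.Ab r l) hL
  · rw [e]
    induction t using Fin.lastCases with
    | cast t =>
      simp only [nA, nE, Fin.lastCases_castSucc]
      exact desc_cast o.h (o.bs l') (o.U_ge r l) (o.gT.Ab r l) hL (o.BA1 l' t) (o.hD1 l' t)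
    | last =>
      simp only [nA, nE, Fin.lastCases_last]
      rcases lt_trichotomy l' l with k | k | k
      · have k1 := o.mono k
        have hne : l' ≠ l := k.ne
        refine desc_lt o.h (o.bs l) (o.ds r l l) (o.bs l') (o.ds r l l') (o.U_eq r l)
          (G := d.B.X l - d.B.X l') ?_ (o.gB.slope_gap o.hKB k1) ?_ ?_
        · have k2 := o.gT.A_le o.hKT r (Fin.zero_le l')
          have : 0 ≤ d.T.θ r / d.T.w r :=
            (div_pos (o.gT.θpos r) (o.gT.wpos o.hKT r)).le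
          unfold al
          linarith
        · have := o.gB.far o.hKB hne.symm
          rwa [abs_sub_comm, abs_of_pos (by linarith)] at this
        · have := o.gB.far o.hKB hne
          rwa [abs_of_pos (by linarith)] at this
      · exact absurd (by rw [k]) ht
      · refine desc_gt o.h (o.bs l) (o.ds r l l) (o.bs l') (o.ds r l l') (o.U_eq r l) ?_
        have k1 := o.gT.prof r 0 l l' (Fin.zero_le l) k
        have k2 := o.gT.wpos o.hKT r
        have : d.T.w r * (d.Φ ^ 2 * d.al r l) ≤ d.T.w r * (d.T.A r l' - d.T.A r l) := by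
          refine le_trans (le_of_eq ?_) k1
          unfold al
          field_simp
        exact le_of_mul_le_mul_left this k2

end OK

end StepD

end Pool.Agent.P.MP_10147b_co
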