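import Pool.Agent.P.MP_10147b_co.Step

namespace Pool.Agent.P.MP_10147b_co

namespace StepD
variable {S JB JT : Type} {n m : ℕ} {d : StepD S JB JT n m}

namespace OK
variable (o : d.OK)
include o

theorem gp_lt (r : S) (g : JB ⊕ Fin n) (b : Bool) : |d.gp r g b| < d.W r := by
  cases g with
  | inl j =>
    have := o.hp j b
    have := o.CW r
    have := o.h.C1
    simp only [gp]
    linarith
  | inr i =>
    simp only [gp]
    rw [abs_of_pos (o.U_pos r _)]
    exact o.U_lt_W r _

theorem pt_in {r : S} {τ : ℝ} (h : |τ| < d.W r) :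
    d.T.X r - d.T.w r < d.pt r τ ∧ d.pt r τ < d.T.X r + d.T.w r := by
  have h' := abs_lt.1 h
  have he := o.epos r
  rw [o.we]
  unfold pt
  constructor <;> nlinarith

theorem X_lt (r : S) (l : Fin (n + 1)) : |d.B.X l| < d.W r := by
  have := (o.bs l).ht
  have := o.CW r
  have := o.h.C1
  linarith

theorem pt_lt (r : S) {τ τ' : ℝ} (h : τ < τ') : d.pt r τ < d.pt r τ' := by
  have he := o.epos r
  unfold pt
  nlinarith

theorem pt_le (r : S) {τ τ' : ℝ} (h : τ ≤ τ') : d.pt r τ ≤ d.pt r τ' := by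
  have he := o.epos r
  unfold pt
  nlinarith

theorem CW2 (r : S) : 4 * d.C ^ 2 ≤ d.W r ^ 2 := by
  have := o.CW r
  have := o.h.C1
  nlinarith

/-- level of a scaled bottom pair -/
theorem lv_inl (r : S) (j : JB) (b : Bool) : ∃ a, d.N.lv (.inr (r, .inl j)) b
    = d.T.line r (d.pt r (d.B.p j b)) - d.eps r ^ 2 * a ∧
      -a ≤ d.lam * (d.B.lv j b - d.B.p j b ^ 2) := by
  refine ⟨_, o.newTop r (d.B.own j b).1 (d.B.own j b).2.castSucc (d.B.p j b), ?_⟩
  simp only [nA, nE, Fin.lastCases_castSucc, neg_neg]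
  rw [B_line]
  unfold Cfg.lv Cfg.top Cfg.f
  have k1 := o.h.lam_pos
  have k2 := o.h.lam_le
  have k3 := o.gB.θpos (d.B.own j b).1
  have k4 : d.lam ^ 2 * d.B.θ (d.B.own j b).1 * |d.B.p j b - d.B.X (d.B.own j b).1|
      ≤ d.lam * d.B.θ (d.B.own j b).1 * |d.B.p j b - d.B.X (d.B.own j b).1| := by
    have : d.lam ^ 2 ≤ d.lam := by nlinarith
    gcongr
  nlinarith

theorem W12 (s : S × Fin (n + 1)) (j : JT ⊕ S × (JB ⊕ Fin n)) (b : Bool) :
    d.N.Sep d.K s (d.N.p j b) (d.N.lv j b) ∧
      ∀ t, (s, t) ≠ d.N.own j b → d.N.Val s t (d.N.p j b) (d.N.lv j b) := by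
  obtain ⟨r, l⟩ := s
  rcases j with j | ⟨r0, j | i⟩
  · have hl : d.N.lv (.inl j) b ≤ d.T.lv j b := o.old_top (o.gT.W1 (d.T.own j b).1 j b).1
    obtain ⟨k1, k2, k3⟩ := o.outer (o.gT.W1 r j b) hl l
    refine ⟨k1, fun t ht => ?_⟩
    induction t using Fin.lastCases with
    | last =>
      refine k3 (o.gT.W2 r l j b fun k => ht ?_)
      simp only [N]
      rw [k]
    | cast t => exact k2 t
  · obtain ⟨a, ha, ha'⟩ := o.lv_inl r0 j b
    rw [ha]
    change d.N.Sep d.K (r, l) (d.pt r0 (d.B.p j b)) _ ∧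
      ∀ t, _ → d.N.Val (r, l) t (d.pt r0 (d.B.p j b)) _
    by_cases hr : r = r0
    · subst hr
      have hp := o.hp j b
      have hC := o.h.C1
      obtain ⟨k1, k2, k3⟩ := o.inner r (by linarith) (o.gB.W1 l j b) ha'
      refine ⟨k1, fun t ht => ?_⟩
      induction t using Fin.lastCases with
      | last => exact k2
      | cast t =>
        refine k3 t (o.gB.W2 l t j b fun k => ht ?_)
        simp only [N, gown]
        rw [← k]
    · have k0 : -a ≤ d.W r0 ^ 2 := by
        have := o.hlv j b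
        have := o.CW2 r0
        have := o.h.C2
        have := o.h.C1
        have := o.h.lam_pos
        have := o.h.lam_le
        have := sq_nonneg (d.B.p j b)
        nlinarith
      obtain ⟨k1, k2⟩ := o.dom hr (o.gp_lt r0 (.inl j) b).le k0 l
      exact ⟨k1, fun t _ => k2 t⟩
  · change d.N.Sep d.K (r, l) (d.pt r0 (d.U r0 (idx i b)))
      (d.N.top (r0, idx i b) (Fin.last m) (d.pt r0 (d.U r0 (idx i b)))) ∧
      ∀ t, ((r, l), t) ≠ ((r0, idx i b), Fin.last m) → d.N.Val (r, l) t (d.pt r0 (d.U r0 (idx i b)))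
        (d.N.top (r0, idx i b) (Fin.last m) (d.pt r0 (d.U r0 (idx i b))))
    by_cases hr : r = r0
    · subst hr
      obtain ⟨k1, k2⟩ := o.descent r (idx i b) l
      refine ⟨k1, fun t ht => k2 t fun k => ht ?_⟩
      simp only [Prod.mk.injEq] at k ⊢
      exact ⟨⟨trivial, k.1⟩, k.2⟩
    · rw [o.newTop]
      have hL := desc_level o.h (o.bs (idx i b)) (o.ds r0 (idx i b) (idx i b))
      have k0 := desc_dom o.h (o.U_pos r0 _).le (o.U_lt_W r0 _).le (o.hW r0) (o.gT.Ab r0 _) hL
      obtain ⟨k1, k2⟩ := o.dom hr (o.gp_lt r0 (.inr i) b).le (a := -dlev d.lam (d.B.X (idx i b))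
        (d.B.θ (idx i b)) (d.mu (idx i b)) (d.nu (idx i b)) (d.U r0 (idx i b))
        (d.T.A r0 (idx i b)) (d.E r0 (idx i b))) (by rw [neg_neg]; exact k0) l
      simp only [nA, nE, Fin.lastCases_last]
      exact ⟨k1, fun t _ => k2 t⟩

theorem N12 (s s' : S × Fin (n + 1)) (z : ℝ) (hs : s ≠ s') (hz : |z - d.N.X s'| ≤ d.N.w s') :
    d.N.Sep d.K s z (d.N.line s' z + d.N.w s' ^ 2) ∧
      ∀ t, d.N.Val s t z (d.N.line s' z + d.N.w s' ^ 2) := by
  obtain ⟨r, l⟩ := s
  obtain ⟨r0, l0⟩ := s'
  obtain ⟨τ, rfl⟩ := o.exists_pt r0 z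
  have he := o.epos r0
  have hl := o.h.lam_pos
  have hl2 := o.h.lam_le
  have hw := o.gB.wpos o.hKB l0
  have hwC := (o.bs l0).hw
  have hC := o.h.C1
  rw [N_off, abs_mul, abs_of_pos he] at hz
  have hz1 : |τ - d.B.X l0| ≤ d.lam * d.B.w l0 := le_of_mul_le_mul_left hz he
  have hz2 : |τ - d.B.X l0| ≤ d.B.w l0 := by nlinarith
  have hτ : |τ| ≤ 2 * d.C := by
    have := abs_sub_abs_le_abs_sub τ (d.B.X l0)
    have := (o.bs l0).ht
    linarith
  have e : d.N.line (r0, l0) (d.pt r0 τ) + d.N.w (r0, l0) ^ 2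
      = d.T.line r0 (d.pt r0 τ) - d.eps r0 ^ 2 *
        -(d.lam * (d.nu l0 + d.mu l0 * τ) + (d.lam * d.B.w l0) ^ 2) := by
    rw [N_line]
    simp only [N]
    ring
  rw [e]
  by_cases hr : r = r0
  · subst hr
    have hll : l ≠ l0 := fun k => hs (by rw [k])
    obtain ⟨k1, k2, k3⟩ := o.inner r hτ (o.gB.N1 l l0 τ hll hz2)
      (a := -(d.lam * (d.nu l0 + d.mu l0 * τ) + (d.lam * d.B.w l0) ^ 2)) (by
        rw [neg_neg, B_line]
        have k4 : (τ - d.B.X l0) ^ 2 ≤ (d.lam * d.B.w l0) ^ 2 := by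
          rw [← sq_abs]
          exact pow_le_pow_left₀ (abs_nonneg _) hz1 2
        have k5 : d.lam * (τ - d.B.X l0) ^ 2 ≤ d.lam * (d.lam * d.B.w l0) ^ 2 := by gcongr
        have k6 : 0 ≤ d.lam * d.B.w l0 ^ 2 := by positivity
        have k7 : d.lam ^ 2 + d.lam ≤ 1 := by nlinarith
        nlinarith)
    refine ⟨k1, fun t => ?_⟩
    induction t using Fin.lastCases with
    | last => exact k2
    | cast t => exact k3 t (o.gB.N2 l t l0 τ hll hz2)
  · refine o.dom hr (hτ.trans (o.CW r0)) ?_ l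
    rw [neg_neg]
    have k1 := o.CW2 r0
    have k2 : d.nu l0 + d.mu l0 * τ ≤ d.C + d.C * (2 * d.C) := by
      have k3 := (abs_le.1 (o.bs l0).hν).2
      have k4 : d.mu l0 * τ ≤ d.C * (2 * d.C) := by
        refine (le_abs_self _).trans ?_
        rw [abs_mul]
        have := (o.bs l0).hμ
        gcongr
      linarith
    have k5 : (d.lam * d.B.w l0) ^ 2 ≤ d.C ^ 2 := by
      apply pow_le_pow_left₀ (by positivity)
      nlinarith
    have k6 := o.h.C2
    have k7 : d.lam * (d.nu l0 + d.mu l0 * τ) ≤ d.lam * (3 * d.C ^ 2) := by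
      gcongr
      nlinarith
    have : 0 ≤ d.C ^ 2 := by positivity
    nlinarith

theorem gp_lt' (r : S) (g : JB ⊕ Fin n) : d.gp r g false < d.gp r g true := by
  cases g with
  | inl j => exact o.gB.plt j
  | inr i => exact o.U_anti r (Fin.castSucc_lt_succ (i := i))

theorem p_le_U (r : S) (j : JB) (b : Bool) (l : Fin (n + 1)) : d.B.p j b ≤ d.U r l := by
  have := (abs_le.1 (o.hp j b)).2
  have := o.U_ge r l
  have := o.h.C2
  have := o.h.C1
  linarith

theorem U_anti' (r : S) {l l' : Fin (n + 1)} (h : l ≤ l') : d.U r l' ≤ d.U r l := by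
  rcases h.eq_or_lt with h | h
  · rw [h]
  · exact (o.U_anti r h).le

theorem gp_disj (r : S) {g g' : JB ⊕ Fin n} (h : g ≠ g') :
    d.gp r g true ≤ d.gp r g' false ∨ d.gp r g' true ≤ d.gp r g false := by
  rcases g with j | i <;> rcases g' with j' | i'
  · exact o.gB.pdisj j j' fun k => h (by rw [k])
  · exact Or.inl (o.p_le_U r j _ _)
  · exact Or.inr (o.p_le_U r j' _ _)
  · have hi : i ≠ i' := fun k => h (by rw [k])
    rcases lt_or_gt_of_ne hi with k | k
    · exact Or.inr (o.U_anti' r (Fin.succ_le_castSucc_iff.2 k))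
    · exact Or.inl (o.U_anti' r (Fin.succ_le_castSucc_iff.2 k))

theorem gp_cent (r : S) (l : Fin (n + 1)) (g : JB ⊕ Fin n) :
    d.B.X l < d.gp r g false ∨ d.gp r g true < d.B.X l := by
  rcases g with j | i
  · exact o.gB.cent l j
  · left
    have := (abs_le.1 (o.bs l).ht).2
    have := o.U_ge r (idx i false)
    have := o.h.C2
    have := o.h.C1
    simp only [gp]
    linarith

theorem nA_last (r : S) (l : Fin (n + 1)) : 50 * d.K * |d.nA r l (Fin.last m)| ≤ 1 := by
  have k := Alast_bound o.h (o.bs l).ht (o.gT.Ab r l) (o.E0 r l) (o.hE3 r l)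
  simp only [nA, Fin.lastCases_last]
  have k1 := o.E0 r l
  have k2 := o.h.C1
  have k3 : 0 ≤ 3 * d.C * d.E r l := by positivity
  have k4 := o.h.hKC
  have k5 := o.h.ΦC
  have k6 := o.h.Φ2
  have k7 := abs_nonneg (d.T.A r l + 3 * d.E r l * d.B.X l)
  nlinarith

theorem good : Good d.K d.N := by
  have hK := o.h.hK
  have hl := o.h.lam_pos
  have hl2 := o.h.lam_le
  have hKl := o.h.hlam
  refine ⟨o.Nθ, fun s => ?_, fun s t => ?_, fun s t => ?_, fun s t => ?_, ?_,
    fun s j b => (o.W12 s j b).1, fun s t j b => (o.W12 s j b).2 t,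
    fun s s' z h hz => (o.N12 s s' z h hz).1, fun s t s' z h hz => (o.N12 s s' z h hz).2 t,
    fun j => ?_, fun j => ?_, fun j j' h => ?_, fun s j => ?_⟩
  · simp only [N]
    have k1 := (o.bs s.2).hθw
    have k2 := o.gB.θpos s.2
    have k3 : 0 < d.eps s.1 * d.lam := mul_pos (o.epos s.1) hl
    calc d.K * (d.eps s.1 * (d.lam ^ 2 * d.B.θ s.2))
        = d.eps s.1 * d.lam * (2 * d.K * d.lam * (d.B.θ s.2 / 2)) := by ring
      _ ≤ d.eps s.1 * d.lam * d.B.w s.2 := by rw [hKl]; gcongr; linarith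
      _ = _ := by ring
  · induction t using Fin.lastCases with
    | last =>
      have := o.nA_last s.1 s.2
      have := abs_nonneg (d.nA s.1 s.2 (Fin.last m))
      simp only [N]
      nlinarith
    | cast t =>
      simp only [N, nA, Fin.lastCases_castSucc]
      have k1 := abs_le.1 (o.BA1 s.2 t)
      rw [abs_mul, abs_of_pos hl, abs_of_nonpos (by linarith)]
      nlinarith
  · have he := o.epos s.1
    induction t using Fin.lastCases with
    | last =>
      simp only [N, nE, Fin.lastCases_last, E]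
      have := o.gT.Dpos s.1 s.2
      positivity
    | cast t =>
      simp only [N, nE, Fin.lastCases_castSucc]
      have := o.gB.Dpos s.2 t
      positivity
  · have he := o.epos s.1
    have key : d.K * d.nE s.1 s.2 t * d.B.w s.2 ^ 2 ≤ d.B.θ s.2 := by
      induction t using Fin.lastCases with
      | last =>
        simp only [nE, Fin.lastCases_last]
        have k1 := o.hE2 s.1 s.2
        have k2 := o.E0 s.1 s.2
        have k3 := (o.bs s.2).hθ
        have k4 := (o.bs s.2).hw
        have k5 := o.gB.wpos o.hKB s.2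
        have k6 := o.h.hKC
        have k7 := o.h.C1
        have k8 := o.h.hΦ
        have k9 := o.h.Φ2
        have k10 : d.K * d.E s.1 s.2 * d.B.w s.2 ^ 2 ≤ d.C * d.E s.1 s.2 * d.C ^ 2 := by gcongr
        have k11 : d.C ^ 4 * d.E s.1 s.2 ≤ d.Φ ^ 2 * d.E s.1 s.2 := by
          have : 0 ≤ d.C ^ 4 := by positivity
          gcongr
          linarith
        have k12 : d.C * (d.C * d.E s.1 s.2 * d.C ^ 2) ≤ d.C * d.B.θ s.2 := by nlinarith
        exact k10.trans (le_of_mul_le_mul_left k12 (by linarith))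
      | cast t =>
        simp only [nE, Fin.lastCases_castSucc]
        have k1 := o.gB.Db s.2 t
        have k2 := o.hKB
        have k3 : 0 ≤ d.B.D s.2 t * d.B.w s.2 ^ 2 := by have := o.gB.Dpos s.2 t; positivity
        calc d.K * (d.lam * d.B.D s.2 t) * d.B.w s.2 ^ 2
            = 2 * d.K * d.lam * (d.B.D s.2 t * d.B.w s.2 ^ 2) / 2 := by ring
          _ ≤ _ := by rw [hKl]; nlinarith
    simp only [N]
    calc d.K * (d.nE s.1 s.2 t / d.eps s.1) * (d.eps s.1 * (d.lam * d.B.w s.2)) ^ 2
        = d.eps s.1 * (d.lam ^ 2 * (d.K * d.nE s.1 s.2 t * d.B.w s.2 ^ 2)) := by field_simp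
      _ ≤ _ := by gcongr
  · rintro ⟨r, l⟩ t t' t'' h1 h2
    have he := o.epos r
    obtain ⟨u', rfl⟩ : ∃ u', t' = Fin.castSucc u' :=
      (Fin.exists_castSucc_eq.2 (Fin.ne_last_of_lt h2)).imp fun _ h => h.symm
    obtain ⟨u, rfl⟩ : ∃ u, t = Fin.castSucc u :=
      (Fin.exists_castSucc_eq.2 (Fin.ne_last_of_lt (h1.trans_lt h2))).imp fun _ h => h.symm
    have h1' : u ≤ u' := Fin.castSucc_le_castSucc_iff.1 h1
    have hw := o.gB.wpos o.hKB l
    have hθ := o.gB.θpos l
    have hA := o.gB.A_le o.hKB l h1'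
    have hK4 : d.K ≤ d.K ^ 4 := le_self_pow₀ hK (by norm_num)
    have k0 : 0 < d.eps r * d.lam := mul_pos he hl
    have key : d.K * d.lam * (d.B.w l * (d.B.A l u' - d.B.A l u) + d.B.θ l)
        ≤ d.B.w l * (d.nA r l t'' - d.lam * (d.B.A l u' - 1)) := by
      induction t'' using Fin.lastCases with
      | cast u'' =>
        simp only [nA, Fin.lastCases_castSucc]
        have k1 := o.gB.prof l u u' u'' h1' (Fin.castSucc_lt_castSucc_iff.1 h2)
        have k2 : 0 ≤ d.B.w l * (d.B.A l u' - d.B.A l u) + d.B.θ l := by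
          have : 0 ≤ d.B.w l * (d.B.A l u' - d.B.A l u) := mul_nonneg hw.le (by linarith)
          linarith
        have k3 : d.K * (d.B.w l * (d.B.A l u' - d.B.A l u) + d.B.θ l)
            ≤ d.B.w l * (d.B.A l u'' - d.B.A l u') := by
          refine le_trans ?_ k1
          gcongr
          linarith
        have := mul_le_mul_of_nonneg_left k3 hl.le
        nlinarith
      | last =>
        have k1 := o.nA_last r l
        have k2 := neg_abs_le (d.nA r l (Fin.last m))
        have a1 := o.gB.Ab l u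
        have a2 := o.gB.Ab l u'
        have a3 := o.gB.θw l
        have b1 := abs_nonneg (d.B.A l u)
        have b2 := abs_nonneg (d.B.A l u')
        have b3 := abs_nonneg (d.nA r l (Fin.last m))
        have c1 : 8 * d.K * |d.B.A l u| ≤ 1 := by nlinarith
        have c2 : 8 * d.K * |d.B.A l u'| ≤ 1 := by nlinarith
        have c3 : 8 * d.K * d.B.θ l ≤ d.B.w l := by nlinarith
        have c4 : |d.B.A l u| ≤ d.lam / 4 := by nlinarith
        have c5 : |d.B.A l u'| ≤ d.lam / 4 := by nlinarith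
        have c6 : d.B.θ l ≤ d.B.w l * (d.lam / 4) := by nlinarith
        have c7 : |d.nA r l (Fin.last m)| ≤ d.lam / 25 := by nlinarith
        have c8 := abs_le.1 c4
        have c9 := abs_le.1 c5
        have e1 : d.K * d.lam = 1 / 2 := by linarith
        rw [e1]
        have c10 : d.lam * d.B.A l u' ≤ d.lam / 8 := by nlinarith
        have c11 : d.lam / 2 ≤ d.nA r l (Fin.last m) - d.lam * (d.B.A l u' - 1) := by nlinarith
        have c12 : d.B.w l * (d.B.A l u' - d.B.A l u) ≤ d.B.w l * (d.lam / 2) := by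
          gcongr; linarith
        have c13 := mul_le_mul_of_nonneg_left c11 hw.le
        have : 0 ≤ d.B.w l * d.lam := by positivity
        nlinarith
    have := mul_le_mul_of_nonneg_left key k0.le
    simp only [N]
    simp only [nA, Fin.lastCases_castSucc] at this ⊢
    nlinarith
  · rcases j with j | ⟨r, g⟩
    · exact o.gT.plt j
    · exact o.pt_lt r (o.gp_lt' r g)
  · rcases j with j | ⟨r, j | i⟩
    · intro h
      simp only [N, Prod.mk.injEq, and_true] at h
      exact o.gT.odiff j h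
    · intro h
      simp only [N, gown, Prod.mk.injEq, true_and, Fin.castSucc_inj] at h
      exact o.gB.odiff j (Prod.ext h.1 h.2)
    · intro h
      simp only [N, gown, idx, Prod.mk.injEq, true_and, and_true] at h
      exact (Fin.castSucc_lt_succ (i := i)).ne' h
  · rcases j with j | ⟨r, g⟩ <;> rcases j' with j' | ⟨r', g'⟩
    · exact o.gT.pdisj j j' fun k => h (by rw [k])
    · have k1 := o.pt_in (o.gp_lt r' g' false)
      have k2 := o.pt_in (o.gp_lt r' g' true)
      simp only [N]
      rcases o.gT.pair_nbhd r' j with k | k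
      · right; linarith
      · left; linarith
    · have k1 := o.pt_in (o.gp_lt r g false)
      have k2 := o.pt_in (o.gp_lt r g true)
      simp only [N]
      rcases o.gT.pair_nbhd r j' with k | k
      · left; linarith
      · right; linarith
    · simp only [N]
      by_cases hr : r = r'
      · subst hr
        have hg : g ≠ g' := fun k => h (by rw [k])
        exact (o.gp_disj r hg).imp (o.pt_le r) (o.pt_le r)
      · have k1 := o.pt_in (o.gp_lt r g false)
        have k2 := o.pt_in (o.gp_lt r g true)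
        have k3 := o.pt_in (o.gp_lt r' g' false)
        have k4 := o.pt_in (o.gp_lt r' g' true)
        rcases o.gT.nbhd_disj o.hKT hr with k | k
        · left; linarith
        · right; linarith
  · obtain ⟨r, l⟩ := s
    have k0 := o.pt_in (o.X_lt r l)
    rcases j with j | ⟨r', g⟩
    · simp only [N]
      rcases o.gT.pair_nbhd r j with k | k
      · left; linarith
      · right; linarith
    · simp only [N]
      by_cases hr : r = r'
      · subst hr
        exact (o.gp_cent r l g).imp (o.pt_lt r) (o.pt_lt r)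
      · have k3 := o.pt_in (o.gp_lt r' g false)
        have k4 := o.pt_in (o.gp_lt r' g true)
        rcases o.gT.nbhd_disj o.hKT hr with k | k
        · left; linarith
        · right; linarith

end OK

end StepD

end Pool.Agent.P.MP_10147b_co
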